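import Pool.Agent.Work.MP_8c679b_co.Cubic
import Pool.Agent.Work.MP_8c679b_co.Top.LRad

/-!
The cube without a vertex can be contracted.
-/

set_option autoImplicit false

namespace Pool.Agent.Work.MP_8c679b_co

open Finset

namespace SG

variable {V E : Type} [Fintype V] [DecidableEq V] [DecidableEq E] {G : SG V E}

variable {T : Finset V}

/-- HINT: finite check (`interval_cases`, then `decide` or explicit values). -/
theorem cube_table (x1 x2 x3 : ℤ) (h1 : x1 ≠ 0 ∧ |x1| ≤ 5) (h2 : x2 ≠ 0 ∧ |x2| ≤ 5)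
    (h3 : x3 ≠ 0 ∧ |x3| ≤ 5) (hs : x1 + x2 + x3 = 0) : ∃ Z u : ℤ,
    ∀ r ∈ [Z, u, Z - x1, u - x2, u - x2 + Z, Z + u + x3, Z + u], r ≠ 0 ∧ |r| ≤ 5 := by
  have key : ∀ x1 ∈ Icc (-5 : ℤ) 5, ∀ x2 ∈ Icc (-5 : ℤ) 5, x1 ≠ 0 → x2 ≠ 0 → -x1 - x2 ≠ 0 →
      |-x1 - x2| ≤ 5 → ∃ q ∈ [((-2, 1) : ℤ × ℤ), (-1, -1), (-1, 2), (1, 2), (1, -2), (2, -1), (-5, 1)],
        ∀ r ∈ [q.1, q.2, q.1 - x1, q.2 - x2, q.2 - x2 + q.1, q.1 + q.2 + (-x1 - x2), q.1 + q.2],
          r ≠ 0 ∧ |r| ≤ 5 := by decide +kernel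
  obtain rfl : x3 = -x1 - x2 := by omega
  obtain ⟨q, -, hq⟩ := key x1 (mem_Icc.2 (abs_le.1 h1.2)) x2 (mem_Icc.2 (abs_le.1 h2.2)) h1.1 h2.1
    h3.1 h3.2
  exact ⟨q.1, q.2, hq⟩

omit [Fintype V] in
theorem ndCu_bd {v : V} (hv : v ∈ T) (p : V → ZMod 2) (f : E → ℤ) : chi (p v) * G.bd f v =
    ∑ e ∈ G.ins T, G.kap p {v} e * f e +
      ∑ e ∈ G.cut T, iv (G.ie T e = v) * (G.kap p T e * f e) := by
  have := sum_bd (G := G) p {v} f
  rw [sum_singleton] at this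
  rw [this, cut, crs, ins, sum_filter, sum_filter, ← sum_add_distrib]
  refine sum_congr rfl fun e _ => ?_
  have k1 : G.s e ∉ T → G.s e ≠ v := fun k k' => k (k' ▸ hv)
  have k2 : G.t e ∉ T → G.t e ≠ v := fun k k' => k (k' ▸ hv)
  by_cases h1 : G.s e ∈ T <;> by_cases h2 : G.t e ∈ T <;> simp [h1, h2, k1, k2, iv, kap, ie]

omit [Fintype V] [DecidableEq E] in
theorem ndCu_edge {e : E} {c d : V} (hj : G.Je e c d) (hne : c ≠ d) (p : V → ZMod 2) :
    ∃ o : ℤ, (o = 1 ∨ o = -1) ∧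
      ∀ v, G.kap p {v} e * o = iv (c = v) - iv (d = v) * chi (G.sw p e) := by
  rcases hj with ⟨rfl, rfl⟩ | ⟨rfl, rfl⟩
  · refine ⟨chi (p (G.s e)), by rcases z2 (p (G.s e)) with k | k <;> simp [k], fun v => ?_⟩
    have := chi_mul_self (R := ℤ) (p (G.s e))
    simp only [kap, sw, chi_add, mem_singleton]
    linear_combination iv (G.s e = v) * this
  · refine ⟨-(chi (p (G.t e)) * chi (G.n e)), by
      rcases z2 (p (G.t e)) with k | k <;> rcases z2 (G.n e) with k' | k' <;> simp [k, k'],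
      fun v => ?_⟩
    have k1 := chi_mul_self (R := ℤ) (p (G.t e))
    have k2 := chi_mul_self (R := ℤ) (G.n e)
    simp only [kap, sw, chi_add, mem_singleton]
    linear_combination iv (G.t e = v) * (chi (G.n e) * chi (G.n e) * k1 + k2)

/-- first ends of the nine edges -/
def ndCu_s : Fin 9 → Fin 7 := ![0, 2, 4, 0, 5, 2, 1, 3, 6]

/-- second ends of the nine edges -/
def ndCu_t : Fin 9 → Fin 7 := ![1, 4, 3, 5, 2, 1, 3, 6, 0]

/-- signs of the nine edges -/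
def ndCu_n : Fin 9 → ZMod 2 := ![1, 1, 0, 0, 0, 0, 0, 0, 0]

theorem ndCu_inj : (∀ i, ndCu_s i ≠ ndCu_t i) ∧ ∀ i j, (ndCu_s i = ndCu_s j ∧ ndCu_t i = ndCu_t j) ∨
    (ndCu_s i = ndCu_t j ∧ ndCu_t i = ndCu_s j) → i = j := by decide +kernel

theorem ndCu_tab {x1 x2 x3 Z u : ℤ} (hs : x1 + x2 + x3 = 0) (k : Fin 7) :
    ∑ i, (iv (ndCu_s i = k) - iv (ndCu_t i = k) * chi (ndCu_n i)) *
      ![Z, -Z, Z - x1, u, u - x2, u - x2 + Z, u - x2, Z + u + x3, Z + u] i +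
      (iv (4 = k) * x1 + (iv (5 = k) * x2 + iv (6 = k) * x3)) = 0 := by
  fin_cases k <;> simp [Fin.sum_univ_succ, iv, ndCu_s, ndCu_t, ndCu_n] <;> omega

/-- HINT: the twist is the potential `p` of `Cube`.  Write `o v e = kap p {v} e` (it is `1` or `-1`
for an end `v` of an edge that is no loop); `chi (p v) * bd f v = ∑ e ∈ A, o v e * f e` (`sum_bd`
for `{v}`).  For an edge with ends `u`, `v`: `o v e = - o u e` if `sw p e = 0` and `o v e = o u e` if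
`sw p e = 1`.  The edges `e1, e2, e3` of `cut T` at `t1, t2, t3` are all of `cut T`; put
`xi = o ti ei * h ei`, then `x1 + x2 + x3 = tw p T h = 0`.  Define `f e = h e` off `ins T` and,
with `Z`, `u` from `cube_table`, the values of `o v e * f e` at the first end `v`:
`z : a ↦ Z`, `f : x ↦ -Z`, `g1 : t1 ↦ Z - x1`, `g2 : a ↦ u`, `g3 : t2 ↦ u - x2`,
`g4 : x ↦ u - x2 + Z`, `g5 : b ↦ u - x2`, `g6 : y ↦ Z + u + x3`, `g7 : t3 ↦ Z + u`.
The seven vertices are different (`T.card = 7`), so the nine edges are different and the three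
listed edges at a vertex are all its edges (`Cub`, `mem_of_deg_le`, or `HT.vtx`); in particular
`ins T` consists of the nine edges. -/
theorem cube_xn (h : G.NCx T) (c : G.Cube T) : G.Xn T := by
  obtain ⟨p, a, b, x, y, t1, t2, t3, z, f, g1, g2, g3, g4, g5, g6, g7, hT, h7, ⟨-, e1, c1, a1⟩,
    ⟨-, e2, c2, a2⟩, ⟨-, e3, c3, a3⟩, hA, hJ, hs⟩ := c
  obtain ⟨w, hw⟩ : ∃ w : Fin 7 → V, w = ![a, b, x, y, t1, t2, t3] := ⟨_, rfl⟩
  obtain ⟨d, hd⟩ : ∃ d : Fin 9 → E, d = ![z, f, g1, g2, g3, g4, g5, g6, g7] := ⟨_, rfl⟩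
  have w1 : T = univ.image w := by
    ext v
    simp only [hT, hw, mem_image, mem_univ, true_and, Fin.exists_fin_succ, mem_insert,
      mem_singleton, Matrix.cons_val_zero, Matrix.cons_val_succ, IsEmpty.exists_iff, or_false,
      eq_comm (a := v)]
  have w2 : Function.Injective w := fun i j =>
    card_image_iff.1 (by rw [← w1, h7, card_fin]) (mem_univ i) (mem_univ j)
  have w3 : ∀ i, w i ∈ T := fun i => w1 ▸ mem_image_of_mem _ (mem_univ i)
  have d1 : ∀ i, d i ∈ G.A ∧ G.Je (d i) (w (ndCu_s i)) (w (ndCu_t i)) ∧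
      G.sw p (d i) = ndCu_n i := by
    obtain ⟨m1, m2, m3, m4, m5, m6, m7, m8, m9⟩ := hA
    obtain ⟨j1, j2, j3, j4, j5, j6, j7, j8, j9⟩ := hJ
    obtain ⟨s1, s2, s3, s4, s5, s6, s7, s8, s9⟩ := hs
    subst hw hd
    intro i
    fin_cases i
    exacts [⟨m1, j1, s1⟩, ⟨m2, j2, s2⟩, ⟨m3, j3, s3⟩, ⟨m4, j4, s4⟩, ⟨m5, j5, s5⟩, ⟨m6, j6, s6⟩,
      ⟨m7, j7, s7⟩, ⟨m8, j8, s8⟩, ⟨m9, j9, s9⟩]
  have d2 : Function.Injective d := fun i j k => by
    have k1 := (d1 i).2.1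
    have k2 := (d1 j).2.1
    rw [← k] at k2
    refine ndCu_inj.2 i j ?_
    rcases k1 with k1 | k1 <;> rcases k2 with k2 | k2
    exacts [.inl ⟨w2 (k1.1.symm.trans k2.1), w2 (k1.2.symm.trans k2.2)⟩,
      .inr ⟨w2 (k1.1.symm.trans k2.1), w2 (k1.2.symm.trans k2.2)⟩,
      .inr ⟨w2 (k1.2.symm.trans k2.2), w2 (k1.1.symm.trans k2.1)⟩,
      .inl ⟨w2 (k1.2.symm.trans k2.2), w2 (k1.1.symm.trans k2.1)⟩]
  have d3 : univ.image d = G.ins T := by
    refine eq_of_subset_of_card_le (image_subset_iff.2 fun i _ =>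
      Cut_je_ins (d1 i).1 (d1 i).2.1 (w3 _) (w3 _)) ?_
    have := deg_sum h.hc h.hT.act
    rw [card_image_of_injective _ d2, card_fin]
    rw [h.h3, h7] at this
    omega
  have i1 : G.ie T e1 = w 4 := (eq_ie c1 (w3 4) (hw ▸ a1)).symm
  have i2 : G.ie T e2 = w 5 := (eq_ie c2 (w3 5) (hw ▸ a2)).symm
  have i3 : G.ie T e3 = w 6 := (eq_ie c3 (w3 6) (hw ▸ a3)).symm
  have n12 : e1 ≠ e2 := fun k => absurd (w2 (i1.symm.trans (k ▸ i2))) (by decide)
  have n13 : e1 ≠ e3 := fun k => absurd (w2 (i1.symm.trans (k ▸ i3))) (by decide)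
  have n23 : e2 ≠ e3 := fun k => absurd (w2 (i2.symm.trans (k ▸ i3))) (by decide)
  have n1 : e1 ∉ ({e2, e3} : Finset E) := by simp [n12, n13]
  have c4 : {e1, e2, e3} = G.cut T := eq_of_subset_of_card_le
    (insert_subset c1 (insert_subset c2 (singleton_subset_iff.2 c3)))
    (by rw [h.h3, card_insert_of_notMem n1, card_pair n23])
  refine ⟨p, fun g hB h0 => ?_⟩
  have b1 : ∀ e ∈ G.cut T, G.kap p T e * g e ≠ 0 ∧ |G.kap p T e * g e| ≤ 5 := fun e he => by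
    have k := (mem_cut.1 he).2
    have k1 : (G.kap p T e : ℤ) = 1 ∨ (G.kap p T e : ℤ) = -1 := by
      by_cases h1 : G.s e ∈ T <;> by_cases h2 : G.t e ∈ T <;> simp [h1, h2] at k <;>
        simp only [kap, iv, chi, h1, h2, if_true, if_false] <;> split_ifs <;> simp
    rcases k1 with k1 | k1 <;> simpa [k1] using hB e he
  rw [tw, ← c4, sum_insert n1, sum_pair n23, ← add_assoc] at h0
  obtain ⟨Z, u, hr⟩ := cube_table _ _ _ (b1 e1 c1) (b1 e2 c2) (b1 e3 c3) h0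
  obtain ⟨r, r1⟩ : ∃ r : Fin 9 → ℤ, r = ![Z, -Z, Z - G.kap p T e1 * g e1, u,
      u - G.kap p T e2 * g e2, u - G.kap p T e2 * g e2 + Z, u - G.kap p T e2 * g e2,
      Z + u + G.kap p T e3 * g e3, Z + u] := ⟨_, rfl⟩
  have r2 : ∀ i, r i ≠ 0 ∧ |r i| ≤ 5 := by
    simp only [List.forall_mem_cons] at hr
    obtain ⟨k1, k2, k3, k4, k5, k6, k7, -⟩ := hr
    subst r1
    intro i
    fin_cases i
    exacts [k1, by simpa using k1, k3, k2, k4, k5, k4, k6, k7]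
  choose o o1 o2 using fun i => ndCu_edge (d1 i).2.1 (w2.ne (ndCu_inj.1 i)) p
  have f1 : ∀ e ∈ G.cut T, Function.extend d (fun i => o i * r i) g e = g e := fun e he =>
    Function.extend_apply' _ _ _ fun ⟨i, k⟩ =>
      not_ins_of_cut he (d3 ▸ mem_image.2 ⟨i, mem_univ i, k⟩)
  refine ⟨Function.extend d (fun i => o i * r i) g, f1, fun v hv => ?_, fun e he => ?_⟩
  · have k := ndCu_bd (G := G) hv p (Function.extend d (fun i => o i * r i) g)
    obtain ⟨j, -, rfl⟩ := mem_image.1 (w1 ▸ hv)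
    rw [← d3, sum_image d2.injOn, ← c4, sum_insert n1, sum_pair n23, f1 e1 c1, f1 e2 c2, f1 e3 c3,
      i1, i2, i3] at k
    simp only [d2.extend_apply, ← mul_assoc, o2, w2.eq_iff, (d1 _).2.2] at k
    have k2 := ndCu_tab (Z := Z) (u := u) h0 j
    rw [← r1] at k2
    simp only [mul_assoc, k2] at k
    rcases z2 (p (w j)) with k1 | k1 <;> simpa [k1] using k
  · obtain ⟨i, -, rfl⟩ := mem_image.1 (d3 ▸ he)
    rw [d2.extend_apply]
    rcases o1 i with k | k <;> simpa [k] using r2 i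

end SG

end Pool.Agent.Work.MP_8c679b_co
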