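import Pool.Agent.Work.MP_8c679b_co.Cubic
import Pool.Agent.Work.MP_8c679b_co.K1.Tp2
import Pool.Agent.Work.MP_8c679b_co.K1.GT1
import Pool.Agent.Work.MP_8c679b_co.Six.PAll
import Pool.Agent.Work.MP_8c679b_co.A3.E5
import Pool.Agent.Work.MP_8c679b_co.ND.Cu

-- merged part: Pool.Agent.Work.MP_8c679b_co.ND.Tw5b
section
-- merged part: Pool.Agent.Work.MP_8c679b_co.ND.X
section
/-!
Shortening the two paths.
-/

set_option autoImplicit false

namespace Pool.Agent.Work.MP_8c679b_co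

open Finset

namespace SG

variable {V E : Type} [Fintype V] [DecidableEq V] [DecidableEq E] {G : SG V E}

variable {T Y : Finset V} {ρ A1 A2 A3 A4 Z Z' : Finset E} {a a' b b' : V}

theorem ndX_inner (h : G.NCx T) (k : G.K4 T ρ a a' b b' A1 A2 A3 A4 Z Z') (h2 : 2 ≤ Z.card) :
    ∃ u, u ∈ G.vs Z ∧ u ≠ a ∧ u ≠ b := by
  by_contra! hn
  have hT := (sub_ins_iff.1 k.sz).2
  have hj : ∀ e ∈ Z, G.Je e a b := fun e he => by
    have h1 := hn _ (s_mem_vs he)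
    have h3 := hn _ (t_mem_vs he)
    have h4 := h.no_loop (k.sz he)
    by_cases h5 : G.s e = a
    · exact Or.inl ⟨h5, h3 fun h6 => h4 (h5.trans h6.symm)⟩
    · refine Or.inr ⟨h1 h5, ?_⟩
      by_contra h6
      exact h4 ((h1 h5).trans (h3 h6).symm)
  obtain ⟨e, he, f, hf, hne⟩ := one_lt_card.1 h2
  exact hne (h.hT.simple h.hc (hT k.jz.left_mem) (hT k.jz.right_mem) (ins_sub_A (k.sz he))
    (ins_sub_A (k.sz hf)) (hj e he) (hj f hf))

theorem ndX_tf {W : Finset E} (tf : G.Tf T Z) (s : W ⊆ Z) : G.Tf T W :=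
  fun v hv => tf v (vs_mono s hv)

theorem ndX_one {v : V} (hd : G.deg Z v = 1) [DecidablePred fun e => G.At e v] :
    (Z.filter fun e => G.At e v).card ≤ 1 :=
  card_le_one.2 fun _ he _ hf => eq_of_deg_le_one hd.le (mem_filter.1 hf).1 (mem_filter.1 he).1
    (mem_filter.1 hf).2 (mem_filter.1 he).2

/-- A path with at least two edges has an ear to the rest of the configuration that avoids `Y`.
HINT: `I` = vertices of `Z` other than `a`, `b` (nonempty: otherwise all edges of `Z` join `a` and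
`b`, `HT.simple`).  `S0 = ins (T \ Y) \ (ρ ∪ (Z ∪ Z'))`, `R` = vertices reached from `I` through
`S0`.  If `R` contains a vertex `w` of the configuration outside `I`: `Rch.jn`; `w ∉ vs Z` because
`a`, `b` have no edge in `S0` (`K4.free`).  Otherwise every edge of `ins T` that leaves `R` is an
edge of `Z` at `a` or `b`: an edge of the configuration at `R` is at `I`, hence in `Z` (`zr`,
`dzz`); an edge into `Y` gives by `hex` a walk from `R` to the ring along which `R` is closed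
(`Rch.closed`).  `Z` has one edge at `a` and one at `b` (`Cc.deg_end` in `k.odd`), so `NCx.c2`
applies: `R` contains a vertex that is no terminal, `T \ R` contains `a` and `b`. -/
theorem K4.exists_ear (h : G.NCx T) (k : G.K4 T ρ a a' b b' A1 A2 A3 A4 Z Z') (tf : G.Tf T Z)
    (h2 : 2 ≤ Z.card) (dy : Disjoint (G.vs Z) Y)
    (hex : ∀ e ∈ G.cut Y, e ∈ G.ins T → ∀ n, G.At e n → n ∉ Y →
      ∃ x ∈ G.vs ρ, G.Rch (G.ins (T \ Y) \ (Z ∪ Z')) n x) :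
    ∃ u w F, u ∈ G.vs Z ∧ u ≠ a ∧ u ≠ b ∧ (w ∈ G.vs ρ ∨ w ∈ G.vs Z') ∧ w ≠ a ∧ w ≠ a' ∧ w ≠ b ∧
      w ≠ b' ∧ F ⊆ G.ins (T \ Y) ∧ G.Jn F u w ∧ Disjoint F (ρ ∪ (Z ∪ Z')) := by
  classical
  by_contra hno
  have hT := (sub_ins_iff.1 k.sz).2
  obtain ⟨S0, hS0⟩ : ∃ S0, S0 = G.ins (T \ Y) \ (ρ ∪ (Z ∪ Z')) := ⟨_, rfl⟩
  obtain ⟨R, hR⟩ : ∃ R : Finset V, ∀ v, v ∈ R ↔
      ∃ u, (u ∈ G.vs Z ∧ u ≠ a ∧ u ≠ b) ∧ G.Rch S0 u v :=
    ⟨univ.filter fun v => ∃ u, (u ∈ G.vs Z ∧ u ≠ a ∧ u ≠ b) ∧ G.Rch S0 u v, fun v => by simp⟩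
  have hfree : ∀ v ∈ G.vs S0, v ≠ a ∧ v ≠ a' ∧ v ≠ b ∧ v ≠ b' := fun v hv => by
    obtain ⟨e, he, h1⟩ := SG.mem_vs.1 hv
    rw [hS0, mem_sdiff, mem_union, mem_union, not_or, not_or] at he
    exact k.free h.hc (ins_sub_A he.1) h1 he.2.1 he.2.2.1 he.2.2.2
  have hab : ∀ v ∈ R, v ≠ a ∧ v ≠ b := fun v hv => by
    obtain ⟨u, hu, r⟩ := (hR v).1 hv
    by_cases e : v = u
    · exact e ▸ hu.2
    · have := hfree v (r.symm.mem_vs e)
      exact ⟨this.1, this.2.2.1⟩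
  have hRT : ∀ v ∈ R, v ∈ T \ Y := fun v hv => by
    obtain ⟨u, hu, r⟩ := (hR v).1 hv
    refine r.closed (P := fun x => x ∈ T \ Y) (fun e he => ?_)
      (mem_sdiff.2 ⟨hT hu.1, disjoint_left.1 dy hu.1⟩)
    have := mem_ins.1 (mem_sdiff.1 (hS0 ▸ he)).1
    exact iff_of_true this.2.1 this.2.2
  have hA : ∀ v ∈ R, ¬ (v ∈ G.vs ρ ∨ v ∈ G.vs Z') := fun v hv h1 => by
    obtain ⟨u, hu, r⟩ := (hR v).1 hv
    have hne : u ≠ v := by
      rintro rfl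
      rcases h1 with h1 | h1
      · exact (k.zr h.hc hu.1 h1).elim hu.2.1 hu.2.2
      · exact disjoint_left.1 k.dzz hu.1 h1
    obtain ⟨F, hF, j⟩ := r.jn hne
    obtain ⟨f1, f2, f3, f4⟩ := hfree v (vs_mono hF j.right_mem)
    rw [hS0] at hF
    exact hno ⟨u, v, F, hu.1, hu.2.1, hu.2.2, h1, f1, f2, f3, f4, hF.trans sdiff_subset, j,
      disjoint_left.2 fun e he => (mem_sdiff.1 (hF he)).2⟩
  have hB : ∀ e ∈ G.ins (T \ Y) \ (Z ∪ Z'), G.s e ∈ R ↔ G.t e ∈ R := fun e he => by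
    by_cases h1 : e ∈ ρ
    · exact iff_of_false (fun h3 => hA _ h3 (Or.inl (s_mem_vs h1)))
        fun h3 => hA _ h3 (Or.inl (t_mem_vs h1))
    · have h3 : e ∈ S0 := by
        rw [hS0, mem_sdiff, mem_union, not_or]
        exact ⟨(mem_sdiff.1 he).1, h1, (mem_sdiff.1 he).2⟩
      rw [hR, hR]
      exact ⟨fun ⟨u, hu, r⟩ => ⟨u, hu, r.trans (rch_edge h3)⟩,
        fun ⟨u, hu, r⟩ => ⟨u, hu, r.trans (rch_edge h3).symm⟩⟩
  have hC : ∀ e ∈ G.ins T, ∀ n m, G.Je e n m → n ∈ R → m ∉ R →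
      e ∈ Z ∧ (G.At e a ∨ G.At e b) := fun e he n m j hn hm => by
    have an : G.At e n := j.imp And.left And.right
    have am : G.At e m := j.symm.imp And.left And.right
    have hnY := mem_sdiff.1 (hRT n hn)
    by_cases h1 : e ∈ Z
    · refine ⟨h1, ?_⟩
      by_contra h3
      rw [not_or] at h3
      exact hm ((hR m).2 ⟨m, ⟨SG.mem_vs.2 ⟨e, h1, am⟩, fun h4 => h3.1 (h4 ▸ am),
        fun h4 => h3.2 (h4 ▸ am)⟩, Rch.refl _ _⟩)
    exfalso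
    have h3 : e ∉ Z' := fun h3 => hA n hn (Or.inr (SG.mem_vs.2 ⟨e, h3, an⟩))
    have h4 := mem_ins.1 he
    by_cases h5 : m ∈ Y
    · obtain ⟨x, hx, r⟩ := hex e (mem_cut.2 ⟨h4.1, by
        rcases j with ⟨rfl, rfl⟩ | ⟨rfl, rfl⟩
        · exact fun h6 => hnY.2 (h6.2 h5)
        · exact fun h6 => hnY.2 (h6.1 h5)⟩) he n an hnY.2
      exact hA x (r.closed (P := fun x => x ∈ R) hB hn) (Or.inl hx)
    · have h6 := hB e (mem_sdiff.2 ⟨mem_ins.2 ⟨h4.1, ?_⟩, by simp [h1, h3]⟩)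
      · rcases j with ⟨rfl, rfl⟩ | ⟨rfl, rfl⟩
        · exact hm (h6.1 hn)
        · exact hm (h6.2 hn)
      · rcases j with ⟨rfl, rfl⟩ | ⟨rfl, rfl⟩
        · exact ⟨mem_sdiff.2 hnY, mem_sdiff.2 ⟨h4.2.2, h5⟩⟩
        · exact ⟨mem_sdiff.2 ⟨h4.2.1, h5⟩, mem_sdiff.2 hnY⟩
  have hsub : G.crs (G.ins T) R ⊆ (Z.filter fun e => G.At e a) ∪ Z.filter fun e => G.At e b := by
    intro e he
    obtain ⟨h1, h3⟩ := mem_crs.1 he
    have h4 : e ∈ Z ∧ (G.At e a ∨ G.At e b) := by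
      by_cases h5 : G.s e ∈ R
      · exact hC e h1 _ _ (Or.inl ⟨rfl, rfl⟩) h5 fun h6 => h3 (iff_of_true h5 h6)
      · refine hC e h1 _ _ (Or.inr ⟨rfl, rfl⟩) ?_ h5
        by_contra h6
        exact h3 (iff_of_false h5 h6)
    rw [mem_union, mem_filter, mem_filter]
    exact h4.2.imp (And.intro h4.1) (And.intro h4.1)
  have hA' := k.odd.2.2.trans ins_sub_A
  have hc2 : (G.crs (G.ins T) R).card ≤ 2 :=
    ((card_le_card hsub).trans (card_union_le _ _)).trans (add_le_add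
      (ndX_one (k.odd.1.deg_end h.hc hA' subset_union_right k.jz))
      (ndX_one (k.odd.1.deg_end h.hc hA' subset_union_right k.jz.symm)))
  obtain ⟨u, hu⟩ := ndX_inner h k h2
  have huR : u ∈ R := (hR u).2 ⟨u, hu, Rch.refl _ _⟩
  have ha : a ∈ T \ R := mem_sdiff.2 ⟨hT k.jz.left_mem, fun h1 => (hab a h1).1 rfl⟩
  have hb : b ∈ T \ R := mem_sdiff.2 ⟨hT k.jz.right_mem, fun h1 => (hab b h1).2 rfl⟩
  rcases h.c2 (fun v hv => (mem_sdiff.1 (hRT v hv)).1) ⟨u, huR⟩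
    (fun e => (mem_sdiff.1 ha).2 (e ▸ (mem_sdiff.1 ha).1)) hc2 with ⟨t, ht, e⟩ | ⟨t, -, e⟩
  · rw [e, mem_singleton] at huR
    exact tf u hu.1 (huR ▸ ht)
  · rw [e, mem_singleton] at ha hb
    exact k.jz.1 (ha.trans hb.symm)

theorem ndX_m1 (h : G.NCx T) (k : G.K4 T ρ a a' b b' A1 A2 A3 A4 Z Z') (tf : G.Tf T Z)
    (tf' : G.Tf T Z') {u w : V} {F : Finset E} (hu : u ∈ G.vs Z) (ua : u ≠ a) (ub : u ≠ b)
    (hw : w ∈ G.vs A1) (wa : w ≠ a) (wa' : w ≠ a') (hF : F ⊆ G.ins T) (j : G.Jn F u w)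
    (d : Disjoint F (ρ ∪ (Z ∪ Z'))) :
    ∃ ρ₀ c c' d d' B1 B2 B3 B4 W W', G.K4 T ρ₀ c c' d d' B1 B2 B3 B4 W W' ∧ G.Tf T W ∧
      G.Tf T W' ∧ W.card + W'.card < Z.card + Z'.card := by
  obtain ⟨Za, s, j1, j2, -⟩ := k.odd.1.split h.hc (k.odd.2.2.trans ins_sub_A) subset_union_right
    k.jz hu ua ub
  obtain ⟨Aa, s', j3, j4, -⟩ := k.cc.1.split h.hc k.subA k.s1.1 k.j1 hw wa wa'
  exact ⟨_, _, _, _, _, _, _, _, _, _, _, (k.m1 h s j1 j2 s' j3 j4 hF j d).1,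
    ndX_tf tf sdiff_subset, tf',
    Nat.add_lt_add_right (card_lt_card (sdiff_ssubset s j1.nonempty)) _⟩

/-- One step.  HINT: `exists_ear` with `Y = ∅`.  Split `Z` at `u` and the arc (or `Z'`) at `w`
(`Cc.split` in `k.cc`, `k.odd`, `k.rot.odd`).  `w` on `A1`: `m1`; on `A4`: `m1` for `k.flip`; on
`A3`: for `k.rot.rot`; on `A2`: for `k.rot.rot.flip`.  `w` on `Z'`: `m2` for `k` or for `k.flip`
(the two parity conditions add up to `o4`). -/
theorem K4.step (h : G.NCx T) (k : G.K4 T ρ a a' b b' A1 A2 A3 A4 Z Z') (tf : G.Tf T Z)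
    (tf' : G.Tf T Z') (h2 : 2 ≤ Z.card) :
    ∃ ρ₀ c c' d d' B1 B2 B3 B4 W W', G.K4 T ρ₀ c c' d d' B1 B2 B3 B4 W W' ∧ G.Tf T W ∧
      G.Tf T W' ∧ W.card + W'.card < Z.card + Z'.card := by
  obtain ⟨u, w, F, hu, ua, ub, hw, wa, wa', wb, wb', hF, j, d⟩ := k.exists_ear (Y := ∅) h tf h2
    (disjoint_empty_right _) fun e he => absurd (mem_cut.1 he).2 (by simp)
  rw [sdiff_empty] at hF
  rcases hw with hw | hw
  · rcases k.mem_vs.1 hw with hw | hw | hw | hw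
    · exact ndX_m1 h k tf tf' hu ua ub hw wa wa' hF j d
    · exact ndX_m1 h k.rot.rot.flip tf tf' hu ub ua hw wb wa' hF j d
    · exact ndX_m1 h k.rot.rot tf tf' hu ub ua hw wb wb' hF j d
    · exact ndX_m1 h k.flip tf tf' hu ua ub hw wa wb' hF j d
  obtain ⟨Za, s, j1, j2, -⟩ := k.odd.1.split h.hc (k.odd.2.2.trans ins_sub_A) subset_union_right
    k.jz hu ua ub
  obtain ⟨Zb, s', j3, j4, -⟩ := k.rot.odd.1.split h.hc (k.rot.odd.2.2.trans ins_sub_A)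
    subset_union_right k.jz' hw wa' wb'
  have hlt := card_lt_card (sdiff_ssubset s j1.nonempty)
  rcases z2 (G.par A1 + G.par Zb + G.par F + G.par Za) with hp | hp
  · exact ⟨_, _, _, _, _, _, _, _, _, _, _, k.m2 h s j1 j2 s' j3 j4 hF j d hp,
      ndX_tf tf sdiff_subset, ndX_tf tf' sdiff_subset,
      Nat.add_lt_add_of_lt_of_le hlt (card_le_card sdiff_subset)⟩
  · refine ⟨_, _, _, _, _, _, _, _, _, _, _, k.flip.m2 h s j1 j2 sdiff_subset j4.symm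
      (by rw [Finset.sdiff_sdiff_eq_self s']; exact j3.symm) hF j d ?_,
      ndX_tf tf sdiff_subset, ndX_tf tf' sdiff_subset,
      Nat.add_lt_add_of_lt_of_le hlt (card_le_card sdiff_subset)⟩
    rw [par_sdiff s']
    linear_combination hp + k.o4 - z2_add_self (G.par A1) + z2_add_self 1

/-- HINT: strong induction on `Z.card + Z'.card`; `step` for `k` or `k.rot`. -/
theorem cp2 (h : G.NCx T) (k : G.Kpa T) : ∃ ρ, G.Kch T ρ := by
  obtain ⟨ρ, a, a', b, b', A1, A2, A3, A4, Z, Z', k, tf, tf'⟩ := k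
  generalize hn : Z.card + Z'.card = n
  induction n using Nat.strong_induction_on generalizing ρ a a' b b' A1 A2 A3 A4 Z Z' with
  | _ n ih =>
    by_cases h1 : 2 ≤ Z.card
    · obtain ⟨_, _, _, _, _, _, _, _, _, W, W', k', t, t', hlt⟩ := k.step h tf tf' h1
      exact ih _ (hn ▸ hlt) _ _ _ _ _ _ _ _ _ W W' k' t t' rfl
    by_cases h2 : 2 ≤ Z'.card
    · obtain ⟨_, _, _, _, _, _, _, _, _, W, W', k', t, t', hlt⟩ := k.rot.step h tf' tf h2
      exact ih _ (by omega) _ _ _ _ _ _ _ _ _ W W' k' t t' rfl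
    have h3 := k.jz.nonempty.card_pos
    have h4 := k.jz'.nonempty.card_pos
    obtain ⟨z, rfl⟩ := card_eq_one.1 (show Z.card = 1 by omega)
    obtain ⟨z', rfl⟩ := card_eq_one.1 (show Z'.card = 1 by omega)
    exact ⟨ρ, a, a', b, b', A1, A2, A3, A4, z, z', k⟩

end SG

end Pool.Agent.Work.MP_8c679b_co
end

-- merged part: Pool.Agent.Work.MP_8c679b_co.ND.Four
section
/-!
Ears of negative edges and the ring through the ends of two ears (as in `T2.lean`).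
-/

set_option autoImplicit false

namespace Pool.Agent.Work.MP_8c679b_co

open Finset

namespace SG

variable {V E : Type} [Fintype V] [DecidableEq V] [DecidableEq E] {G : SG V E}
  {W : Finset V} {p : V → ZMod 2} {e z z' : E} {u v x y a b a' b' : V} {R R' J C P : Finset E}

omit [Fintype V] [DecidableEq V] [DecidableEq E] in
lemma z2_tri {c1 c2 c3 x1 x2 x3 : ZMod 2} (h1 : 0 = c1 + (x1 + x2)) (h2 : 0 = c2 + (x2 + x3))
    (h3 : 1 = c3 + (x1 + x3)) : c1 + c2 + c3 = 1 := by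
  revert c1 c2 c3 x1 x2 x3
  decide

namespace NCx

variable (h : G.NCx W)
include h

lemma ne_d3 (hy : G.Ex W y) (ha : G.deg (G.ins W) a = 3) : y ≠ a := by
  rintro rfl
  exact absurd ((h.deg_ex hy).symm.trans ha) (by decide)

lemma at_pair (hy : G.Ex W y) (hz : z ∈ G.ins W) (hz' : z' ∈ G.ins W) (hne : z ≠ z')
    (h1 : G.At z y) (h1' : G.At z' y) (he : e ∈ G.ins W) (h3 : G.At e y) : e = z ∨ e = z' := by
  have k := mem_of_deg_le (D := {z, z'}) (insert_subset hz (singleton_subset_iff.2 hz')) (by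
    rw [h.deg_ex hy, deg, sum_pair hne]
    have := inc_pos.2 h1
    have := inc_pos.2 h1'
    omega) he h3
  simpa using k

lemma two_neg_ex (hm : G.Mn W p) (hy : G.Ex W y) (hz : z ∈ G.sg p 1 W) (hz' : z' ∈ G.sg p 1 W)
    (h1 : G.At z y) (h1' : G.At z' y) : z = z' := by
  by_contra hne
  have k1 : G.crs (G.sg p 0 W) {y} = ∅ := filter_eq_empty_iff.2 fun e he k => by
    obtain ⟨u, k1, k2⟩ := cut_end (mem_cut.2 ⟨ins_sub_A (sg_sub he), k⟩)
    rcases h.at_pair hy (sg_sub hz) (sg_sub hz') hne h1 h1' (sg_sub he) (mem_singleton.1 k1 ▸ k2)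
      with rfl | rfl
    · exact zero_ne_one ((mem_sg.1 he).2.symm.trans (mem_sg.1 hz).2)
    · exact zero_ne_one ((mem_sg.1 he).2.symm.trans (mem_sg.1 hz').2)
  have k2 := hm {y}
  rw [k1, card_empty, Nat.le_zero, card_eq_zero] at k2
  refine notMem_empty z (k2 ▸ mem_crs.2 ⟨hz, ?_⟩)
  have k3 := h.no_loop (sg_sub hz)
  rcases h1 with rfl | rfl <;> simp [k3, k3.symm]

lemma deg_pos_ex (hy : G.Ex W y) (hz : z ∈ G.ins W) (hn : G.sw p z = 1) (h1 : G.At z y)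
    (hJ : J ⊆ G.sg p 0 W) : G.deg J y ≤ 1 := by
  have k1 := deg_sdiff (G := G) (v := y) (singleton_subset_iff.2 hz)
  have k2 := deg_pos.2 (mem_vs_single.2 h1)
  have k3 := deg_mono (G := G) (v := y) (show J ⊆ G.ins W \ {z} from fun e he =>
    mem_sdiff.2 ⟨sg_sub (hJ he), fun k => zero_ne_one
      ((mem_sg.1 (hJ he)).2.symm.trans (mem_singleton.1 k ▸ hn))⟩)
  have k4 := h.deg_ex hy
  omega

lemma exists_ear (hm : G.Mn W p) (hz : z ∈ G.sg p 1 W) : ∃ a b R, G.Ear W p z a b R := by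
  obtain ⟨z1, z2'⟩ := mem_sg.1 hz
  by_cases k : ∃ y, G.Ex W y ∧ G.At z y
  swap
  · push Not at k
    refine ⟨_, _, {z}, (h.d3_or (mem_ins.1 z1).2.1).resolve_right fun k1 => k _ k1 (Or.inl rfl),
      (h.d3_or (mem_ins.1 z1).2.2).resolve_right fun k1 => k _ k1 (Or.inr rfl),
      jn_edge (h.no_loop z1), singleton_subset_iff.2 z1, mem_singleton_self _, z2',
      fun u hu => ?_, fun e he => Or.inl (mem_singleton.1 he)⟩
    rcases mem_vs_single.1 hu with rfl | rfl <;> simp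
  obtain ⟨y, y1, y2⟩ := k
  obtain ⟨b, b1⟩ := y2.jo
  have b2 := b1.ne (h.no_loop z1)
  have b3 := (h.d3_or (b1.symm.left.mem z1)).resolve_right (h.indep' z1 b1 y1)
  obtain ⟨e, e1, e2⟩ := mem_vs.1 (deg_pos.1 (show 0 < G.deg (G.ins W \ {z}) y by
    have k1 := deg_sdiff (G := G) (v := y) (singleton_subset_iff.2 z1)
    have k2 := h.deg_ex y1
    have k3 : G.deg {z} y = 1 := by
      rcases b1 with ⟨k4, k5⟩ | ⟨k4, k5⟩ <;> simp [deg, inc, iv, k4, k5, b2.symm]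
    omega))
  obtain ⟨e3, e4⟩ := mem_sdiff.1 e1
  rw [mem_singleton] at e4
  obtain ⟨a, a1⟩ := e2.jo
  have a2 := a1.ne (h.no_loop e3)
  have a3 := (h.d3_or (a1.symm.left.mem e3)).resolve_right (h.indep' e3 a1 y1)
  have e5 : G.sw p e = 0 := (z2 _).resolve_right fun k =>
    e4 (h.two_neg_ex hm y1 (mem_sg.2 ⟨e3, k⟩) hz e2 y2)
  have j1 : G.Jn {e} a y := ⟨a2.symm, od_edge a1.symm, cn_edge⟩
  have j2 : G.Jn {z} y b := ⟨b2, od_edge b1, cn_edge⟩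
  have d : Disjoint ({e} : Finset E) {z} := disjoint_singleton.2 e4
  have r1 : ({e} ∪ {z} : Finset E) ⊆ G.ins W :=
    union_subset (singleton_subset_iff.2 e3) (singleton_subset_iff.2 z1)
  have r2 : ∀ u ∈ G.vs ({e} ∪ {z}), u = a ∨ u = b ∨ u = y := fun u hu => by
    rw [vs_union, mem_union, mem_vs_single, mem_vs_single] at hu
    have := hu.imp a1.at b1.at
    (clear * - hu this; tauto)
  have r3 : ∀ x ∈ G.ins W, G.At x y → x ∈ ({e} ∪ {z} : Finset E) := fun x k1 k2 => by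
    simpa using h.at_pair y1 e3 z1 e4 e2 y2 k1 k2
  have ab : a ≠ b := by
    rintro rfl
    have c1 := j1.cc j2.symm d
    by_cases k : G.vs ({e} ∪ {z}) = W
    · have k0 := vs_mono (G := G) (subset_union_left (s₂ := {z})) j1.left_mem
      obtain ⟨g, g1, g2, g3⟩ := third_exists h.hc (r1.trans ins_sub_A) k0 (c1.2.1 a)
      have g4 := mem_of_deg_le ins_sub_A ((h.hc.le3 Subset.rfl a).trans a3.ge) g1 g3
      obtain ⟨w, w1⟩ := g3.jo
      have w2 := r2 w (k ▸ w1.symm.left.mem g4)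
      have w3 := (w1.ne (h.no_loop g4)).symm
      exact g2 (r3 g g4 ((show w = y by tauto) ▸ w1.symm.left))
    · obtain ⟨v, v', k1, k2, k3⟩ := two_br h.hc h.two r1 c1 k
      have k4 := not_br_of_ex h.hc r1 c1.2.1 y1
      have k5 : ∀ v, G.Br W ({e} ∪ {z}) v → v = a := fun v hv => by
        rcases r2 v hv.1 with k6 | k6 | rfl
        exacts [k6, k6, absurd hv k4]
      exact k1 ((k5 v k2).trans (k5 v' k3).symm)
  refine ⟨a, b, _, a3, b3, j1.union j2 d ab, r1, mem_union_right _ (mem_singleton_self _), z2',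
    fun u hu => ?_, fun x hx => ?_⟩
  · rcases r2 u hu with k | k | rfl
    exacts [Or.inl k, Or.inr (Or.inl k), Or.inr (Or.inr ⟨y1, y2, r3⟩)]
  · rcases mem_union.1 hx with k | k <;> rw [mem_singleton.1 k]
    exacts [Or.inr ⟨e5, y, y1, y2, e2⟩, Or.inl rfl]

lemma ear_avoid (r : G.Ear W p z a b R) (hJ : J ⊆ G.sg p 0 W) (h0 : ∀ y, G.Ex W y → G.dg J y = 0) :
    Disjoint R J ∧ ∀ u ∈ G.vs R, u ∈ G.vs J → u = a ∨ u = b := by
  have k : ∀ y, G.Ex W y → G.At z y → y ∉ G.vs J := fun y k1 k2 k3 => zero_ne_one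
    ((h0 y k1).symm.trans (dg_one_of_le (h.deg_pos_ex k1 (r.sub r.mem) r.neg k2 hJ) k3))
  refine ⟨disjoint_left.2 fun e he he' => ?_, fun u hu hu' => ?_⟩
  · rcases r.edge e he with rfl | ⟨-, y, k1, k2, k3⟩
    · exact zero_ne_one ((mem_sg.1 (hJ he')).2.symm.trans r.neg)
    · exact k y k1 k2 (mem_vs.2 ⟨e, he', k3⟩)
  · rcases r.vert u hu with k1 | k1 | k1
    exacts [Or.inl k1, Or.inr k1, absurd hu' (k u k1.1 k1.2.1)]

lemma ear_circ (hm : G.Mn W p) (r : G.Ear W p z a b R) :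
    ∃ C ⊆ G.sg p 0 W, G.Cc C ∧ a ∈ G.vs C ∧ b ∈ G.vs C :=
  cc_through _ r.jn.1 (h.sep hm r.da r.db)

lemma ear_disj (hm : G.Mn W p) (r : G.Ear W p z a b R) (r' : G.Ear W p z' a' b' R')
    (hne : z ≠ z') : Disjoint (G.vs R) (G.vs R') := by
  have k0 : ∀ y, G.Ex W y → G.At z y → G.At z' y → False := fun y k1 k2 k3 => hne
    (h.two_neg_ex hm k1 (mem_sg.2 ⟨r.sub r.mem, r.neg⟩) (mem_sg.2 ⟨r'.sub r'.mem, r'.neg⟩) k2 k3)
  refine disjoint_left.2 fun u hu hu' => ?_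
  obtain ⟨C, c1, c2, c3, c4⟩ := h.ear_circ hm r
  by_cases k : G.Ex W u
  · have k1 := ((r.vert u hu).resolve_left (h.ne_d3 k r.da)).resolve_left (h.ne_d3 k r.db)
    have k2 := ((r'.vert u hu').resolve_left (h.ne_d3 k r'.da)).resolve_left (h.ne_d3 k r'.db)
    exact k0 u k k1.2.1 k2.2.1
  have k1 : u ∈ G.vs C := by
    rcases r.vert u hu with rfl | rfl | k1
    exacts [c3, c4, absurd k1.1 k]
  obtain ⟨e, e1, e2⟩ := mem_vs.1 hu
  obtain ⟨e', e3, e4⟩ := mem_vs.1 hu'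
  obtain rfl := third_unique h.hc (c1.trans (sg_sub.trans ins_sub_A)) k1 (c2.2.1 u)
    (ins_sub_A (r.sub e1)) (ins_sub_A (r'.sub e3))
    (disjoint_left.1 (h.ear_avoid r c1 fun y _ => c2.2.1 y).1 e1)
    (disjoint_left.1 (h.ear_avoid r' c1 fun y _ => c2.2.1 y).1 e3) e2 e4
  rcases r.edge _ e1 with k2 | ⟨k2, y, k3, k4, k5⟩ <;>
    rcases r'.edge _ e3 with k6 | ⟨k6, y', k7, k8, k9⟩
  · exact hne (k2.symm.trans k6)
  · exact zero_ne_one (k6.symm.trans (k2 ▸ r.neg))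
  · exact zero_ne_one (k2.symm.trans (k6 ▸ r'.neg))
  · obtain ⟨w, hw⟩ := e2.jo
    have a1 := (hw.at k5).resolve_left fun a => k (a ▸ k3)
    have a2 := (hw.at k9).resolve_left fun a => k (a ▸ k7)
    exact k0 y k3 k4 (a1 ▸ a2 ▸ k8)

lemma ear_odd (r : G.Ear W p z a b R) (hJ : J ⊆ G.sg p 0 W) (j : G.Jn J a b) :
    R ∪ J ⊆ G.ins W ∧ G.Cc (R ∪ J) ∧ G.par (R ∪ J) = 1 := by
  have d := (h.ear_avoid r hJ fun y hy => j.2.1.other (h.ne_d3 hy r.da) (h.ne_d3 hy r.db)).1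
  have c := r.jn.cc j d
  exact ⟨union_subset r.sub (hJ.trans sg_sub), c,
    by rw [c.2.1.par_eq p, sum_union d, r.sum, sum_sg hJ, add_zero]⟩

lemma nolink (hm : G.Mn W p) (r : G.Ear W p z a b R) (r' : G.Ear W p z' a' b' R') (hne : z ≠ z')
    {J' : Finset E} (hJ : J ⊆ G.sg p 0 W) (j : G.Jn J a b) (hJ' : J' ⊆ G.sg p 0 W)
    (j' : G.Jn J' a' b') (d : Disjoint (G.vs J) (G.vs J')) : False := by
  obtain ⟨c1, c2, c3⟩ := h.ear_odd r hJ j
  obtain ⟨d1, d2, d3⟩ := h.ear_odd r' hJ' j'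
  refine h.hK _ c1 _ d1 c2 c3 d2 d3 ?_
  rw [vs_union, vs_union, disjoint_union_left, disjoint_union_right, disjoint_union_right]
  refine ⟨⟨h.ear_disj hm r r' hne, disjoint_left.2 fun u hu hu' => ?_⟩,
    disjoint_left.2 fun u hu hu' => ?_, d⟩
  · rcases (h.ear_avoid r hJ' fun y hy => j'.2.1.other (h.ne_d3 hy r'.da)
      (h.ne_d3 hy r'.db)).2 u hu hu' with rfl | rfl
    exacts [disjoint_left.1 d j.left_mem hu', disjoint_left.1 d j.right_mem hu']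
  · rcases (h.ear_avoid r' hJ fun y hy => j.2.1.other (h.ne_d3 hy r.da)
      (h.ne_d3 hy r.db)).2 u hu' hu with rfl | rfl
    exacts [disjoint_left.1 d hu j'.left_mem, disjoint_left.1 d hu j'.right_mem]

lemma att_ne (hm : G.Mn W p) (r : G.Ear W p z a b R) (r' : G.Ear W p z' a' b' R') (hne : z ≠ z')
    (c1 : C ⊆ G.sg p 0 W) (c2 : G.Cc C) (ha : a ∈ G.vs C) (hb : b ∈ G.vs C)
    (hu : G.Rch (G.sg p 0 W \ C) a' u) : u ≠ a ∧ u ≠ b := by
  have k : ∀ e ∈ G.sg p 0 W \ C, ∀ v ∈ G.vs R, G.At e v → e ∈ R := fun e he v hv hv' => by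
    obtain ⟨k1, k2⟩ := mem_sdiff.1 he
    have k3 : v ∈ G.vs C → e ∈ R := fun k3 => by
      obtain ⟨x, x1, x2⟩ := mem_vs.1 hv
      exact third_unique h.hc (c1.trans (sg_sub.trans ins_sub_A)) k3 (c2.2.1 v)
        (ins_sub_A (r.sub x1)) (ins_sub_A (sg_sub k1))
        (disjoint_left.1 (h.ear_avoid r c1 fun y _ => c2.2.1 y).1 x1) k2 x2 hv' ▸ x1
    rcases r.vert v hv with rfl | rfl | k4
    exacts [k3 ha, k3 hb, k4.2.2 e (sg_sub k1) hv']
  have k1 : u ∉ G.vs R := fun k1 => disjoint_left.1 (h.ear_disj hm r r' hne)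
    (hu.symm.closed (P := fun v => v ∈ G.vs R) (fun e he =>
      ⟨fun k2 => t_mem_vs (k e he _ k2 (Or.inl rfl)), fun k2 => s_mem_vs (k e he _ k2 (Or.inr rfl))⟩)
      k1) r'.jn.left_mem
  exact ⟨fun k2 => k1 (k2 ▸ r.jn.left_mem), fun k2 => k1 (k2 ▸ r.jn.right_mem)⟩

lemma att_join (r' : G.Ear W p z' a' b' R') (c1 : C ⊆ G.sg p 0 W) (c2 : G.Cc C)
    (hu : G.Rch (G.sg p 0 W \ C) a' u) (hu' : u ∈ G.vs C) (hne : a' ≠ u) :
    ∃ J ⊆ G.sg p 0 W, G.Jn J a' u ∧ ∀ w ∈ G.vs J, w ∈ G.vs C → w = u := by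
  obtain ⟨J, j1, j2⟩ := hu.jn hne
  have cA := c1.trans (sg_sub.trans ins_sub_A)
  have j3 := j1.trans sdiff_subset
  refine ⟨J, j3, j2, fun w hw hw' => ?_⟩
  refine (j2.2.1.end_of_le (le_trans (deg_mono (j1.trans (sdiff_subset_sdiff
    (sg_sub.trans ins_sub_A) Subset.rfl))) (deg_third h.hc cA hw' (c2.2.1 w)).le) hw).resolve_left ?_
  rintro rfl
  obtain ⟨e, e1, e2⟩ := mem_vs.1 hw
  obtain ⟨x, x1, x2⟩ := mem_vs.1 r'.jn.left_mem
  have av := h.ear_avoid r' c1 fun y _ => c2.2.1 y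
  obtain rfl := third_unique h.hc cA hw' (c2.2.1 w) (ins_sub_A (r'.sub x1))
    (ins_sub_A (sg_sub (j3 e1))) (disjoint_left.1 av.1 x1) (mem_sdiff.1 (j1 e1)).2 x2 e2
  rcases r'.edge e x1 with rfl | ⟨-, y, k1, k2, k3⟩
  · exact zero_ne_one ((mem_sg.1 (j3 e1)).2.symm.trans r'.neg)
  · rcases j2.2.1.end_of_le (h.deg_pos_ex k1 (r'.sub r'.mem) r'.neg k2 j3)
      (mem_vs.2 ⟨e, e1, k3⟩) with k4 | rfl
    · exact h.ne_d3 k1 r'.da k4
    · exact (av.2 y (mem_vs.2 ⟨e, x1, k3⟩) hu').elim (h.ne_d3 k1 r'.da) (h.ne_d3 k1 r'.db)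

lemma att_both (hm : G.Mn W p) (r : G.Ear W p z a b R) (r' : G.Ear W p z' a' b' R') (hne : z ≠ z')
    (c1 : C ⊆ G.sg p 0 W) (c2 : G.Cc C) (hP : P ⊆ C) (j : G.Jn P a b) {u' : V}
    (hu : G.Rch (G.sg p 0 W \ C) a' u) (hu' : G.Rch (G.sg p 0 W \ C) b' u') (m : u ∈ G.vs P)
    (m' : u' ∈ G.vs P) : False := by
  have cA := c1.trans (sg_sub.trans ins_sub_A)
  have ha := vs_mono hP j.left_mem
  have hb := vs_mono hP j.right_mem
  set T := (G.sg p 0 W).filter fun e => G.s e ∉ G.vs (C \ P) ∧ G.t e ∉ G.vs (C \ P) with hT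
  have k0 : ∀ J ⊆ G.sg p 0 W, (∀ w ∈ G.vs J, w ∉ G.vs (C \ P)) → J ⊆ T := fun J k1 k2 e he =>
    mem_filter.2 ⟨k1 he, k2 _ (s_mem_vs he), k2 _ (t_mem_vs he)⟩
  have k1 : ∀ {a' b' u : V}, G.Ear W p z' a' b' R' → G.Rch (G.sg p 0 W \ C) a' u → u ∈ G.vs P →
      G.Rch T a' u := fun {a' b' u} r' hu m => by
    by_cases k : a' = u
    · exact k ▸ Rch.refl _ _
    obtain ⟨J, j1, j2, j3⟩ := h.att_join r' c1 c2 hu (vs_mono hP m) k
    refine (j2.2.2 _ j2.left_mem _ j2.right_mem).mono (k0 J j1 fun w hw hw' => ?_)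
    obtain rfl := j3 w hw (vs_mono sdiff_subset hw')
    have k2 := h.att_ne hm r r' hne c1 c2 ha hb hu
    exact (c2.ends h.hc cA hP j.2.1 m hw').elim k2.1 k2.2
  have k2 : G.Rch T u u' := by
    by_cases k : u = u'
    · exact k ▸ Rch.refl _ _
    obtain ⟨K, j1, j2⟩ := (j.2.2 u m u' m').jn k
    refine (j2.2.2 _ j2.left_mem _ j2.right_mem).mono
      (k0 K (j1.trans (hP.trans c1)) fun w hw hw' => ?_)
    have k3 := h.att_ne hm r r' hne c1 c2 ha hb hu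
    have k4 := h.att_ne hm r r'.symm hne c1 c2 ha hb hu'
    rcases c2.ends h.hc cA hP j.2.1 (vs_mono j1 hw) hw' with rfl | rfl
    · exact (j2.2.1.end_of_le ((deg_mono j1).trans (c2.deg_end h.hc cA hP j).le) hw).elim
        k3.1.symm k4.1.symm
    · exact (j2.2.1.end_of_le ((deg_mono j1).trans (c2.deg_end h.hc cA hP j.symm).le) hw).elim
        k3.2.symm k4.2.symm
  obtain ⟨J, j1, j2⟩ := (((k1 r' hu m).trans k2).trans (k1 r'.symm hu' m').symm).jn r'.jn.1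
  refine h.nolink hm r r' hne (sdiff_subset.trans c1) (c2.compl h.hc cA hP j)
    (j1.trans (filter_subset _ _)) j2 (disjoint_left.2 fun w hw hw' => ?_)
  obtain ⟨e, e1, rfl | rfl⟩ := mem_vs.1 hw'
  exacts [(mem_filter.1 (j1 e1)).2.1 hw, (mem_filter.1 (j1 e1)).2.2 hw]

lemma att_fan (hm : G.Mn W p) (hx : G.deg (G.ins W) x = 3) (ha : G.deg (G.ins W) a = 3)
    (c1 : C ⊆ G.sg p 0 W) (c2 : G.Cc C) (ha' : a ∈ G.vs C) (hx' : x ∉ G.vs C) :
    ∃ u u' F, u ∈ G.vs C ∧ u' ∈ G.vs C ∧ G.Jn F u u' ∧ F ⊆ G.sg p 0 W \ C ∧ x ∈ G.vs F := by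
  obtain ⟨u, u', F, f1, f2, f3, f4, f5, f6, -⟩ := fan h.hc (c1.trans (sg_sub.trans ins_sub_A)) c2
    (sg_sub.trans (ins_sub_A (W := W))) (od_self.2 ev_empty) (disjoint_empty_left _)
    (by simp [vs]) hx' hx' fun X hX => by
      by_cases k : x ∈ X
      · simpa [iv, k] using h.sep hm hx ha X k fun k1 => disjoint_left.1 hX k1 ha'
      · simp [iv, k]
  exact ⟨u, u', F, f1, f2, f3, subset_sdiff.2 ⟨by simpa using f4, f5⟩, f6⟩

lemma step (hm : G.Mn W p) (hx : G.deg (G.ins W) x = 3) (ha : G.deg (G.ins W) a = 3)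
    (c1 : C ⊆ G.sg p 0 W) (c2 : G.Cc C) (hP : P ⊆ C) (j : G.Jn P a b)
    (hu : ∀ u ∈ G.vs C, G.Rch (G.sg p 0 W \ C) x u → u ∈ G.vs P) :
    ∃ C' ⊆ G.sg p 0 W, G.Cc C' ∧ ∃ P' ⊆ C', G.Jn P' a b ∧ C' \ P' = C \ P ∧ x ∈ G.vs P' := by
  by_cases k : x ∈ G.vs C
  · exact ⟨C, c1, c2, P, hP, j, rfl, hu x k (Rch.refl _ _)⟩
  obtain ⟨u, u', F, f1, f2, f3, f4, f5⟩ := h.att_fan hm hx ha c1 c2 (vs_mono hP j.left_mem) k
  obtain ⟨J, j1, j2⟩ := (j.2.2 u (hu u f1 ((f3.2.2 x f5 u f3.left_mem).mono f4)) u'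
    (hu u' f2 ((f3.2.2 x f5 u' f3.right_mem).mono f4))).jn f3.1
  have d : Disjoint F C := sdiff_disjoint.mono_left f4
  have c3 := c2.reroute h.hc (c1.trans (sg_sub.trans ins_sub_A)) (j1.trans hP) j2 f3 d
  have c4 : C \ J ∪ F ⊆ G.sg p 0 W :=
    union_subset (sdiff_subset.trans c1) (f4.trans sdiff_subset)
  have c5 : P \ J ∪ F ⊆ C \ J ∪ F := union_subset_union_left (sdiff_subset_sdiff hP Subset.rfl)
  refine ⟨_, c4, c3, _, c5, c3.jn h.hc (c4.trans (sg_sub.trans ins_sub_A)) c5 (fun v => ?_) j.1,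
    ?_, vs_mono subset_union_right f5⟩
  · rw [dg_union (d.symm.mono_left (sdiff_subset.trans hP)), dg_sdiff j1, j2.2.1 v, f3.2.1 v,
      add_assoc, z2_add_self, add_zero, j.2.1 v]
  · ext e
    have k1 := @j1 e
    have k2 := @disjoint_left.1 d e
    simp only [mem_sdiff, mem_union]
    (clear * - k1 k2; tauto)

lemma four (hm : G.Mn W p) (r : G.Ear W p z a b R) (r' : G.Ear W p z' a' b' R') (hne : z ≠ z') :
    ∃ H ⊆ G.sg p 0 W, G.Cc H ∧ ∃ P ⊆ H, G.Jn P a b ∧ a' ∈ G.vs P ∧ b' ∈ G.vs (H \ P) := by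
  obtain ⟨C, c1, c2, c3, c4⟩ := h.ear_circ hm r
  have cA := c1.trans (sg_sub.trans ins_sub_A)
  have ex : ∀ x, G.deg (G.ins W) x = 3 → ∃ u ∈ G.vs C, G.Rch (G.sg p 0 W \ C) x u := fun x hx => by
    by_cases k : x ∈ G.vs C
    · exact ⟨x, k, Rch.refl _ _⟩
    · obtain ⟨u, u', F, f1, -, f3, f4, f5⟩ := h.att_fan hm hx r.da c1 c2 c3 k
      exact ⟨u, f1, (f3.2.2 x f5 u f3.left_mem).mono f4⟩
  obtain ⟨u, u1, u2⟩ := ex a' r'.da
  obtain ⟨u', u3, u4⟩ := ex b' r'.db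
  obtain ⟨P, p1, p2, p3⟩ := c2.arc_mem h.hc cA c3 c4 r.jn.1 u1
  have u5 := ((vs_split p1).1 u3).resolve_left (h.att_both hm r r' hne c1 c2 p1 p2 u2 u4 p3)
  obtain ⟨C1, d1, d2, P1, d3, d4, -, d5⟩ := h.step hm r'.da r.da c1 c2 p1 p2 fun v v1 v2 =>
    ((vs_split p1).1 v1).resolve_right fun k =>
      h.att_both hm r r' hne c1 c2 sdiff_subset (c2.compl h.hc cA p1 p2) v2 u4 k u5
  obtain ⟨C2, e1, e2, P2, e3, e4, e5, e6⟩ := h.step hm r'.db r.da d1 d2 sdiff_subset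
    (d2.compl h.hc (d1.trans (sg_sub.trans ins_sub_A)) d3 d4) fun v v1 v2 =>
    ((vs_split d3).1 v1).resolve_left
      (h.att_both hm r r' hne d1 d2 d3 d4 (Rch.refl _ _) v2 d5)
  refine ⟨C2, e1, e2, C2 \ P2, sdiff_subset,
    e2.compl h.hc (e1.trans (sg_sub.trans ins_sub_A)) e3 e4, ?_, ?_⟩
  · rwa [e5, Finset.sdiff_sdiff_eq_self d3]
  · rwa [Finset.sdiff_sdiff_eq_self e3]

/-- the ring through the ends of two ears -/
theorem four4 (hm : G.Mn W p) (r : G.Ear W p z a b R) (r' : G.Ear W p z' a' b' R') (hne : z ≠ z') :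
    ∃ H A1 A2 A3 A4, H ⊆ G.sg p 0 W ∧ G.K4 W H a a' b b' A1 A2 A3 A4 R R' := by
  obtain ⟨H, c1, c2, P, p1, p2, p3, p4⟩ := h.four hm r r' hne
  have cA := c1.trans (sg_sub.trans ins_sub_A)
  have d := h.ear_disj hm r r' hne
  have n : ∀ u ∈ G.vs R', ∀ v ∈ G.vs R, u ≠ v := fun u hu v hv k =>
    disjoint_left.1 d hv (k ▸ hu)
  obtain ⟨B, b1, b3, b2, -⟩ := c2.split h.hc cA p1 p2 p3 (n _ r'.jn.left_mem _ r.jn.left_mem)
    (n _ r'.jn.left_mem _ r.jn.right_mem)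
  obtain ⟨D, d1, d2, d3, -⟩ := c2.split h.hc cA sdiff_subset (c2.compl h.hc cA p1 p2) p4
    (n _ r'.jn.right_mem _ r.jn.left_mem) (n _ r'.jn.right_mem _ r.jn.right_mem)
  have e1 := (h.ear_avoid r c1 fun y _ => c2.2.1 y).1
  have e2 := (h.ear_avoid r' c1 fun y _ => c2.2.1 y).1
  have s0 : B ⊆ H := b1.trans p1
  have s1 : P \ B ⊆ H := sdiff_subset.trans p1
  have s2 : D ⊆ H := d1.trans sdiff_subset
  have s3 : (H \ P) \ D ⊆ H := sdiff_subset.trans sdiff_subset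
  have q : ∀ {J : Finset E} {c d : V}, G.Od J c d → ∑ e ∈ J, G.sw p e = G.par J + (p c + p d) :=
    fun {J c d} k => by
      have k1 := k.par_eq p
      revert k1
      generalize G.par J = c1
      generalize ∑ e ∈ J, G.sw p e = c2
      generalize p c = c3
      generalize p d = c4
      revert c1 c2 c3 c4
      decide
  have q1 := q b3.2.1
  have q2 := q b2.2.1
  have q3 := q d3.2.1
  have q4 := q d2.2.1
  have q5 := q r.jn.2.1
  have q6 := q r'.jn.2.1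
  rw [sum_sg (s0.trans c1)] at q1
  rw [sum_sg (s1.trans c1)] at q2
  rw [sum_sg (s3.trans c1)] at q3
  rw [sum_sg (s2.trans c1)] at q4
  rw [r.sum] at q5
  rw [r'.sum] at q6
  have m1 := @b1
  have m2 := @d1
  have m3 := @p1
  refine ⟨H, B, P \ B, (H \ P) \ D, D, c1, ?_, c1.trans sg_sub, b3, b2, d3.symm, d2.symm,
    disjoint_sdiff, ?_, ?_, ?_, ?_, sdiff_disjoint, r.sub, r'.sub, r.jn, r'.jn, e1, e2, d, ?_, ?_,
    ?_⟩
  · rw [union_sdiff_of_subset b1, sdiff_union_of_subset d1, union_sdiff_of_subset p1]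
  · exact disjoint_sdiff.mono b1 sdiff_subset
  · exact disjoint_sdiff.mono b1 d1
  · exact disjoint_sdiff.mono sdiff_subset sdiff_subset
  · exact disjoint_sdiff.mono sdiff_subset d1
  · exact z2_tri q1 q2 q5
  · exact z2_tri q2 ((add_comm (p b) (p b')).symm ▸ q3) q6
  · rw [add_comm (G.par _) (G.par D)]
    exact z2_tri q4 q3 q5

end NCx

end SG

end Pool.Agent.Work.MP_8c679b_co
end

-- merged part: Pool.Agent.Work.MP_8c679b_co.ND.M
section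
/-!
Rerouting an arc through a component with two edges to it.
-/

set_option autoImplicit false

namespace Pool.Agent.Work.MP_8c679b_co

open Finset

namespace SG

variable {V E : Type} [Fintype V] [DecidableEq V] [DecidableEq E] {G : SG V E}

variable {T Y : Finset V} {ρ A1 A2 A3 A4 : Finset E} {a a' b b' : V} {z z' : E}

/-- two inner vertices of an arc are joined by a part of the arc that avoids the ends -/
theorem nd_inner (hc : G.Cub) {C B : Finset E} (hA : C ⊆ G.A) (cC : G.Cc C) (hB : B ⊆ C)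
    {x y p q : V} (jB : G.Jn B x y) (hp : p ∈ G.vs B) (hq : q ∈ G.vs B) (hpq : p ≠ q)
    (h1 : p ≠ x ∧ p ≠ y) (h2 : q ≠ x ∧ q ≠ y) :
    ∃ J ⊆ B, G.Jn J p q ∧ ∀ u ∈ G.vs J, u ≠ x ∧ u ≠ y := by
  obtain ⟨J, j1, j2⟩ := (jB.2.2 p hp q hq).jn hpq
  have k : ∀ {x y : V}, G.Jn B x y → p ≠ x → q ≠ x → x ∉ G.vs J := by
    intro x y k1 k2 k3 k4
    have k5 := deg_mono (G := G) (v := x) j1
    rw [cC.deg_end hc hA hB k1,
      deg2_of_dg hc (j1.trans (hB.trans hA)) k4 (j2.2.1.other k2.symm k3.symm)] at k5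
    omega
  exact ⟨J, j1, j2, fun u hu => ⟨fun e => k jB h1.1 h2.1 (e ▸ hu),
    fun e => k jB.symm h1.2 h2.2 (e ▸ hu)⟩⟩

theorem main_move (h : G.NCx T) (k : G.K4 T ρ a a' b b' A1 A2 A3 A4 {z} {z'})
    (hY : G.Cls (T \ G.vs ρ) Y) (kc : G.Cn Y (G.ins Y)) (h1 : ¬ G.One Y A1) :
    ∃ ρ', G.Kch T ρ' ∧ Y \ G.vs ρ' ⊂ Y ∧ G.Cls (T \ G.vs ρ') (Y \ G.vs ρ') := by
  classical
  have hc := h.hc
  have hA := k.subA
  have cC := k.cc.1
  have hK := hY.1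
  have s1 := k.s1.1
  have nv : ∀ u ∈ Y, u ∉ G.vs ρ := fun u hu => (mem_sdiff.1 (hK hu)).2
  have nC : ∀ e, ∀ u ∈ Y, G.At e u → e ∉ ρ := fun e u hu h1 h2 => nv u hu (mem_vs.2 ⟨e, h2, h1⟩)
  have ma : a ∈ G.vs ρ := vs_mono s1 k.j1.left_mem
  have ma' : a' ∈ G.vs ρ := vs_mono s1 k.j1.right_mem
  have mb : b ∈ G.vs ρ := vs_mono k.s1.2.2.1 k.j3.left_mem
  have mb' : b' ∈ G.vs ρ := vs_mono k.s1.2.2.1 k.j3.right_mem
  have nz : ∀ e, ∀ u ∈ Y, G.At e u → e ∉ ({z} : Finset E) ∧ e ∉ ({z'} : Finset E) :=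
    fun e u hu h1 => ⟨fun h2 => by
      rcases k.jz.2.1.end_of_le (v := u) (by
        rw [mem_singleton.1 h2] at h1
        have k1 := h.no_loop (k.sz (mem_singleton_self z))
        rcases h1 with rfl | rfl <;> simp [deg, inc, iv, k1, k1.symm]) (mem_vs.2 ⟨e, h2, h1⟩)
        with rfl | rfl
      exacts [nv _ hu ma, nv _ hu mb], fun h2 => by
      rcases k.jz'.2.1.end_of_le (v := u) (by
        rw [mem_singleton.1 h2] at h1
        have k1 := h.no_loop (k.sz' (mem_singleton_self z'))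
        rcases h1 with rfl | rfl <;> simp [deg, inc, iv, k1, k1.symm]) (mem_vs.2 ⟨e, h2, h1⟩)
        with rfl | rfl
      exacts [nv _ hu ma', nv _ hu mb']⟩
  let M : V → Prop := fun w => w ∈ G.vs ρ ∧ ∃ e ∈ G.A, ∃ u ∈ Y, G.Je e u w
  have mx : ∀ w, M w → w ≠ a ∧ w ≠ a' := by
    rintro w ⟨-, e, h2, u, h3, h4⟩
    have h5 := h4.at_iff.2 (Or.inl rfl)
    have h6 := k.free hc h2 (h4.at_iff.2 (Or.inr rfl)) (nC e u h3 h5) (nz e u h3 h5).1
      (nz e u h3 h5).2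
    exact ⟨h6.1, h6.2.1⟩
  simp only [One, not_forall] at h1
  obtain ⟨e, he, f, hf, u, hu, u', hu', h2, h3, hef⟩ := h1
  have mM : ∀ e ∈ G.cut Y, ∀ u ∈ G.vs A1, G.At e u → M u := fun e he u hu h2 => by
    refine ⟨vs_mono s1 hu, e, (mem_cut.1 he).1, _, Spl_ie he, ?_⟩
    rcases (je_ie_oe (G := G) (X := Y) (e := e)).at_iff.1 h2 with k1 | k1
    · exact absurd (vs_mono s1 hu) (nv u (k1 ▸ Spl_ie he))
    · exact k1 ▸ je_ie_oe
  have hne : u ≠ u' := fun k1 => hef (third_unique hc hA (vs_mono s1 hu') (cC.2.1 _)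
    (mem_cut.1 hf).1 (mem_cut.1 he).1 (nC f _ (Spl_ie hf) ie_at) (nC e _ (Spl_ie he) ie_at) h3
    (k1 ▸ h2))
  obtain ⟨p, q, J, ⟨mp, e1, p1, u1, p2, p3⟩, ⟨mq, e2, q1, u2, q2, q3⟩, j1, j2, j3, j4⟩ :=
    GMin_arc hc hA cC M (fun u => u ∈ G.vs A1 ∧ u ≠ a ∧ u ≠ a') (by
      obtain ⟨J, j1, j2, j3⟩ := nd_inner hc hA cC s1 k.j1 hu hu' hne (mx _ (mM e he u hu h2))
        (mx _ (mM f hf u' hu' h3))
      exact ⟨_, _, J, mM e he u hu h2, mM f hf u' hu' h3, j1.trans s1, j2,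
        fun v hv => ⟨vs_mono j1 hv, j3 v hv⟩⟩)
  have jA : J ⊆ A1 := fun g hg => by
    by_contra k1
    have k2 := j3 _ (s_mem_vs hg)
    exact (cC.ends hc hA s1 k.j1.2.1 k2.1 (s_mem_vs (mem_sdiff.2 ⟨j1 hg, k1⟩))).elim k2.2.1 k2.2.2
  have yT : Y ⊆ T := hK.trans sdiff_subset
  have hr : G.Rch (G.ins T ∩ G.tch Y) p q := by
    have r1 : G.Rch (G.ins T ∩ G.tch Y) p u1 := rch_at (mem_inter.2
      ⟨Cut_je_ins p1 p3 (yT p2) (k.vs_sub mp), Cut_tch p1 (p3.at_iff.2 (Or.inl rfl)) p2⟩)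
      (p3.at_iff.2 (Or.inr rfl)) (p3.at_iff.2 (Or.inl rfl))
    have r2 : G.Rch (G.ins T ∩ G.tch Y) u2 q := rch_at (mem_inter.2
      ⟨Cut_je_ins q1 q3 (yT q2) (k.vs_sub mq), Cut_tch q1 (q3.at_iff.2 (Or.inl rfl)) q2⟩)
      (q3.at_iff.2 (Or.inl rfl)) (q3.at_iff.2 (Or.inr rfl))
    exact (r1.trans ((kc u1 p2 u2 q2).mono (subset_inter (ins_mono yT) ins_sub_tch))).trans r2
  obtain ⟨F, f1, f2⟩ := hr.jn j2.1
  have tF : ∀ g ∈ F, ∃ u ∈ Y, G.At g u := fun g hg =>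
    ⟨_, ie_mem (mem_inter.1 (f1 hg)).2, ie_at⟩
  have dF : Disjoint F ρ := disjoint_left.2 fun g hg => by
    obtain ⟨u, h1, h2⟩ := tF g hg
    exact nC g u h1 h2
  have c3 := cC.reroute hc hA j1 j2 f2 dF
  have c4 : ρ \ J ∪ F ⊆ G.ins T :=
    union_subset (sdiff_subset.trans k.sub) (f1.trans inter_subset_left)
  have c5 : A1 \ J ∪ F ⊆ ρ \ J ∪ F := union_subset_union_left (sdiff_subset_sdiff s1 Subset.rfl)
  have c6 : G.Jn (A1 \ J ∪ F) a a' := c3.jn hc (c4.trans ins_sub_A) c5 (fun v => by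
    rw [dg_union (dF.symm.mono_left (sdiff_subset.trans s1)), dg_sdiff jA, j2.2.1 v, f2.2.1 v,
      add_assoc, z2_add_self, add_zero, k.j1.2.1 v]) k.j1.1
  have c7 : ρ \ A1 ∪ (A1 \ J ∪ F) = ρ \ J ∪ F := by
    ext g
    have k1 := @jA g
    have k2 := @s1 g
    simp only [mem_sdiff, mem_union]
    (clear * - k1 k2; grind)
  have k' := k.ear h c6 (c5.trans c4) (disjoint_union_left.2
      ⟨disjoint_sdiff.mono_left sdiff_subset, dF.mono_right sdiff_subset⟩)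
    (disjoint_union_left.2 ⟨(k.dz.symm.mono_left (sdiff_subset.trans s1)),
      disjoint_left.2 fun g hg => by
        obtain ⟨u, h1, h2⟩ := tF g hg
        exact (nz g u h1 h2).1⟩)
    (disjoint_union_left.2 ⟨(k.dz'.symm.mono_left (sdiff_subset.trans s1)),
      disjoint_left.2 fun g hg => by
        obtain ⟨u, h1, h2⟩ := tF g hg
        exact (nz g u h1 h2).2⟩)
  rw [c7] at k'
  have sJ : ∀ u ∈ G.vs ρ, u ∉ G.vs J → u ∈ G.vs ((ρ \ J) ∪ F) := fun u h1 h2 =>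
    vs_mono subset_union_left (((vs_split j1).1 h1).resolve_left h2)
  refine ⟨_, ⟨_, _, _, _, _, _, _, _, _, _, k'⟩, ?_, cls_of_mem
    (sdiff_subset_sdiff yT Subset.rfl) fun g hg v w h1 h2 hv hw => ?_⟩
  · obtain ⟨g, hg⟩ := f2.nonempty
    obtain ⟨u, h1, h2⟩ := tF g hg
    exact (ssubset_iff_of_subset sdiff_subset).2 ⟨u, h1, fun k =>
      (mem_sdiff.1 k).2 (mem_vs.2 ⟨g, mem_union_right _ hg, h2⟩)⟩
  · obtain ⟨v1, v2⟩ := mem_sdiff.1 hv
    obtain ⟨w1, w2⟩ := mem_sdiff.1 hw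
    refine mem_sdiff.2 ⟨?_, w2⟩
    by_cases k1 : w ∈ G.vs ρ
    swap
    · exact hY.mem hg h1 h2 v1 (mem_sdiff.2 ⟨w1, k1⟩)
    have k2 : w ∈ G.vs J := by
      by_contra k2
      exact w2 (sJ _ k1 k2)
    have k3 : G.Je g v w := by
      have k4 : v ≠ w := fun k4 => nv v v1 (k4 ▸ k1)
      rcases h1 with h1 | h1 <;> rcases h2 with h2 | h2
      exacts [absurd (h1.symm.trans h2) k4, Or.inl ⟨h1, h2⟩, Or.inr ⟨h2, h1⟩,
        absurd (h1.symm.trans h2) k4]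
    rcases j4 _ k2 ⟨k1, g, hg, v, v1, k3⟩ with k4 | k4
    · exact absurd (k4 ▸ vs_mono subset_union_right f2.left_mem) w2
    · exact absurd (k4 ▸ vs_mono subset_union_right f2.right_mem) w2

end SG

end Pool.Agent.Work.MP_8c679b_co
end

-- merged part: Pool.Agent.Work.MP_8c679b_co.ND.P3A
section
/-!
Opposite arcs, crossing ears, and two positive links between two positive paths.
-/

set_option autoImplicit false

namespace Pool.Agent.Work.MP_8c679b_co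

open Finset

namespace SG

variable {V E : Type} [Fintype V] [DecidableEq V] [DecidableEq E] {G : SG V E}

variable (G) in
/-- a connected positive set without terminals that meets `P` and `P'` -/
structure Lnk (T : Finset V) (p : V → ZMod 2) (M : Finset V) (P P' : Finset E) : Prop where
  sub : M ⊆ T
  tf : ∀ v ∈ M, ¬ G.Ex T v
  cn : G.Cn M (G.sg p 0 M)
  m1 : ∃ v ∈ M, v ∈ G.vs P
  m2 : ∃ v ∈ M, v ∈ G.vs P'

variable {T M M' : Finset V} {ρ A1 A2 A3 A4 Z Z' F F' P P' R R' H B : Finset E}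
  {a a' b b' u u' w w' x y : V} {p q : V → ZMod 2} {z z' : E}

/-- another ring of the same configuration.  HINT: `o4`, `k.rot.opp`, `disjoint_of_vs`, `s1`. -/
theorem K4.twist (hc : G.Cub) (k : G.K4 T ρ a a' b b' A1 A2 A3 A4 Z Z') :
    G.K4 T (A1 ∪ Z' ∪ (A3 ∪ Z)) a a' b' b A1 Z' A3 Z A4 A2 := by
  obtain ⟨s1, s2, s3, s4⟩ := k.s1
  refine ⟨rfl, union_subset (union_subset (s1.trans k.sub) k.sz')
      (union_subset (s3.trans k.sub) k.sz), k.j1, k.jz', k.j3.symm, k.jz.symm,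
    (k.dz'.mono_right s1).symm, k.d13, (k.dz.mono_right s1).symm, k.dz'.mono_right s3,
    (disjoint_of_vs k.dzz).symm, (k.dz.mono_right s3).symm, s4.trans k.sub, s2.trans k.sub,
    k.j4.symm, k.j2, ?_, ?_, (k.rot.opp hc).symm, ?_, ?_, ?_⟩
  · exact disjoint_union_right.2 ⟨disjoint_union_right.2 ⟨k.d14.symm, (k.dz'.mono_right s4).symm⟩,
      disjoint_union_right.2 ⟨k.d34.symm, (k.dz.mono_right s4).symm⟩⟩
  · exact disjoint_union_right.2 ⟨disjoint_union_right.2 ⟨k.d12.symm, (k.dz'.mono_right s2).symm⟩,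
      disjoint_union_right.2 ⟨k.d23, (k.dz.mono_right s2).symm⟩⟩
  · linear_combination k.o4
  · linear_combination k.o2
  · linear_combination k.o3

theorem K4.kpa24 (hc : G.Cub) (k : G.K4 T ρ a a' b b' A1 A2 A3 A4 Z Z') (h2 : G.Tf T A2)
    (h4 : G.Tf T A4) : G.Kpa T :=
  ⟨_, _, _, _, _, _, _, _, _, _, _, k.twist hc, h4, h2⟩

theorem K4.kpa13 (hc : G.Cub) (k : G.K4 T ρ a a' b b' A1 A2 A3 A4 Z Z') (h1 : G.Tf T A1)
    (h3 : G.Tf T A3) : G.Kpa T := k.rot.kpa24 hc h3 h1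

/-- the vertices of a connected positive edge set -/
theorem cn_vs (hB : B ⊆ G.sg p 0 T) (c : G.Cn (G.vs B) B) : G.Cn (G.vs B) (G.sg p 0 (G.vs B)) := by
  intro v hv v' hv'
  refine (c v hv v' hv').mono fun e he => ?_
  obtain ⟨h1, h2⟩ := mem_sg.1 (hB he)
  exact mem_sg.2 ⟨mem_ins.2 ⟨(mem_ins.1 h1).1, s_mem_vs he, t_mem_vs he⟩, h2⟩

/-- the inner vertices of an arc.  HINT: `nd_inner`. -/
theorem inner_cn (hc : G.Cub) (hH : H ⊆ G.sg p 0 T) (cH : G.Cc H) (hB : B ⊆ H) (j : G.Jn B x y) :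
    G.Cn (G.vs B \ {x, y}) (G.sg p 0 (G.vs B \ {x, y})) := by
  intro v hv v' hv'
  by_cases hvv : v = v'
  · rw [hvv]
    exact Rch.refl _ _
  have k : ∀ {t : V}, t ∈ G.vs B \ {x, y} ↔ t ∈ G.vs B ∧ t ≠ x ∧ t ≠ y := by
    intro t
    simp only [mem_sdiff, mem_insert, mem_singleton, not_or, ne_eq]
  obtain ⟨J, j1, j2, j3⟩ := nd_inner hc (hH.trans (sg_sub.trans ins_sub_A)) cH hB j (k.1 hv).1
    (k.1 hv').1 hvv (k.1 hv).2 (k.1 hv').2
  refine (j2.2.2 v j2.left_mem v' j2.right_mem).mono fun e he => ?_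
  obtain ⟨h1, h2⟩ := mem_sg.1 (hH (hB (j1 he)))
  exact mem_sg.2 ⟨mem_ins.2 ⟨(mem_ins.1 h1).1, k.2 ⟨s_mem_vs (j1 he), j3 _ (s_mem_vs he)⟩,
    k.2 ⟨t_mem_vs (j1 he), j3 _ (t_mem_vs he)⟩⟩, h2⟩

/-- Two disjoint negative ears cross.
HINT: an ear meets the ring only in its ends (`deg_third`, `Od.end_of_le`).  Take an arc `B` from
`u` to `w` through `u'` (`Cc.arc_mem`).  If `w'` lies on `B`, `nd_inner` gives `J ⊆ B` from `u'` to
`w'` that misses `ρ \ B` (`Cc.ends`), and `F ∪ (ρ \ B)`, `F' ∪ J` are disjoint odd circuits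
(`Jn.cc`, `Ev.par_eq q`), against `hK`.  Otherwise split both arcs as in `NCx.four4`. -/
theorem xing (h : G.NCx T) (hρ : ρ ⊆ G.ins T) (cρ : G.Cc ρ) (hq : ∀ e ∈ ρ, G.sw q e = 0)
    (hF : F ⊆ G.ins T) (hF' : F' ⊆ G.ins T) (j : G.Jn F u w) (j' : G.Jn F' u' w')
    (mu : u ∈ G.vs ρ) (mw : w ∈ G.vs ρ) (mu' : u' ∈ G.vs ρ) (mw' : w' ∈ G.vs ρ)
    (d : Disjoint F ρ) (d' : Disjoint F' ρ) (dv : Disjoint (G.vs F) (G.vs F'))
    (n : ∑ e ∈ F, G.sw q e = 1) (n' : ∑ e ∈ F', G.sw q e = 1) :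
    ∃ A1 A2 A3 A4, G.K4 T ρ u u' w w' A1 A2 A3 A4 F F' := by
  have hc := h.hc
  have cA : ρ ⊆ G.A := hρ.trans ins_sub_A
  have meet : ∀ {X : Finset E} {s t v : V}, X ⊆ G.ins T → G.Jn X s t → Disjoint X ρ →
      v ∈ G.vs X → v ∈ G.vs ρ → v = s ∨ v = t := by
    intro X s t v hX jX dX h1 h2
    refine jX.2.1.end_of_le ?_ h1
    rw [← deg_third hc cA h2 (cρ.2.1 v)]
    exact deg_mono (subset_sdiff.2 ⟨hX.trans ins_sub_A, dX⟩)
  have nn : ∀ s ∈ G.vs F', ∀ v ∈ G.vs F, s ≠ v := fun s hs v hv k =>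
    disjoint_left.1 dv hv (k ▸ hs)
  have zs : ∀ {X : Finset E}, X ⊆ ρ → ∑ e ∈ X, G.sw q e = 0 := fun hX =>
    sum_eq_zero fun e he => hq e (hX he)
  obtain ⟨P, p1, p2, p3⟩ := cρ.arc_mem hc cA mu mw j.1 mu'
  have nu1 := nn _ j'.left_mem _ j.left_mem
  have nu2 := nn _ j'.left_mem _ j.right_mem
  have nw1 := nn _ j'.right_mem _ j.left_mem
  have nw2 := nn _ j'.right_mem _ j.right_mem
  have pc := cρ.compl hc cA p1 p2
  have p4 : w' ∈ G.vs (ρ \ P) := by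
    rcases (vs_split p1).1 mw' with k | k
    · exfalso
      obtain ⟨J, j1, j2, j3⟩ := nd_inner hc cA cρ p1 p2 p3 k j'.1 ⟨nu1, nu2⟩ ⟨nw1, nw2⟩
      have d1 : Disjoint F (ρ \ P) := d.mono_right sdiff_subset
      have d2 : Disjoint F' J := d'.mono_right (j1.trans p1)
      have c1 := j.cc pc d1
      have c2 := j'.cc j2 d2
      refine h.hK _ (union_subset hF (sdiff_subset.trans hρ)) _
        (union_subset hF' ((j1.trans p1).trans hρ)) c1 ?_ c2 ?_ ?_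
      · rw [c1.2.1.par_eq q, sum_union d1, n, zs sdiff_subset, add_zero]
      · rw [c2.2.1.par_eq q, sum_union d2, n', zs (j1.trans p1), add_zero]
      · rw [vs_union, vs_union, disjoint_union_left, disjoint_union_right, disjoint_union_right]
        refine ⟨⟨dv, disjoint_left.2 fun v h1 h2 => ?_⟩, disjoint_left.2 fun v h1 h2 => ?_,
          disjoint_left.2 fun v h1 h2 => ?_⟩
        · exact (meet hF j d h1 (vs_mono (j1.trans p1) h2)).elim (j3 v h2).1 (j3 v h2).2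
        · rcases meet hF' j' d' h2 (vs_mono sdiff_subset h1) with rfl | rfl
          · exact (cρ.ends hc cA p1 p2.2.1 p3 h1).elim nu1 nu2
          · exact (cρ.ends hc cA p1 p2.2.1 k h1).elim nw1 nw2
        · exact (cρ.ends hc cA p1 p2.2.1 (vs_mono j1 h2) h1).elim (j3 v h2).1 (j3 v h2).2
    · exact k
  obtain ⟨B, b1, b3, b2, -⟩ := cρ.split hc cA p1 p2 p3 nu1 nu2
  obtain ⟨D, d1, d2, d3, -⟩ := cρ.split hc cA sdiff_subset pc p4 nw1 nw2
  have s0 : B ⊆ ρ := b1.trans p1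
  have s1 : P \ B ⊆ ρ := sdiff_subset.trans p1
  have s2 : D ⊆ ρ := d1.trans sdiff_subset
  have s3 : (ρ \ P) \ D ⊆ ρ := sdiff_subset.trans sdiff_subset
  have qq : ∀ {J : Finset E} {c t : V}, G.Od J c t →
      ∑ e ∈ J, G.sw q e = G.par J + (q c + q t) := fun {J c t} k => by
    rw [k.par_eq q, add_assoc]
  have q1 := qq b3.2.1
  have q2 := qq b2.2.1
  have q3 := qq d3.2.1
  have q4 := qq d2.2.1
  have q5 := qq j.2.1
  have q6 := qq j'.2.1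
  rw [zs s0] at q1
  rw [zs s1] at q2
  rw [zs s3] at q3
  rw [zs s2] at q4
  rw [n] at q5
  rw [n'] at q6
  refine ⟨B, P \ B, (ρ \ P) \ D, D, ?_, hρ, b3, b2, d3.symm, d2.symm,
    disjoint_sdiff, ?_, ?_, ?_, ?_, sdiff_disjoint, hF, hF', j, j', d, d', dv, ?_, ?_, ?_⟩
  · rw [union_sdiff_of_subset b1, sdiff_union_of_subset d1, union_sdiff_of_subset p1]
  · exact disjoint_sdiff.mono b1 sdiff_subset
  · exact disjoint_sdiff.mono b1 d1
  · exact disjoint_sdiff.mono sdiff_subset sdiff_subset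
  · exact disjoint_sdiff.mono sdiff_subset d1
  · exact z2_tri q1 q2 q5
  · exact z2_tri q2 ((add_comm (q w) (q w')).symm ▸ q3) q6
  · rw [add_comm (G.par _) (G.par D)]
    exact z2_tri q4 q3 q5

end SG

end Pool.Agent.Work.MP_8c679b_co
end

-- merged part: Pool.Agent.Work.MP_8c679b_co.ND.P3
section
/-!
Opposite arcs, crossing ears, and two positive links between two positive paths.
-/

set_option autoImplicit false

namespace Pool.Agent.Work.MP_8c679b_co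

open Finset

namespace SG

variable {V E : Type} [Fintype V] [DecidableEq V] [DecidableEq E] {G : SG V E}

variable {T M M' : Finset V} {ρ A1 A2 A3 A4 Z Z' F F' P P' R R' H B : Finset E}
  {a a' b b' u u' w w' x y : V} {p q : V → ZMod 2} {z z' : E}

/-- HINT: the vertices reached from `vs P` through `sg p 0 M \ (P ∪ P')`; if they miss `vs P'`
they form a set that is closed along `sg p 0 M` (`Rch.closed`). -/
theorem Lnk.ear (l : G.Lnk T p M P P') (d : Disjoint (G.vs P) (G.vs P')) :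
    ∃ F u u', F ⊆ G.sg p 0 M ∧ G.Jn F u u' ∧ u ∈ G.vs P ∧ u' ∈ G.vs P' ∧ Disjoint F P ∧
      Disjoint F P' := by
  by_cases k : ∃ u' ∈ G.vs P', ∃ u ∈ G.vs P, G.Rch (G.sg p 0 M \ (P ∪ P')) u u'
  · obtain ⟨u', h1, u, h2, h3⟩ := k
    obtain ⟨F, h4, h5⟩ := h3.jn fun k => disjoint_left.1 d h2 (k ▸ h1)
    exact ⟨F, u, u', h4.trans sdiff_subset, h5, h2, h1,
      disjoint_left.2 fun e he k => (mem_sdiff.1 (h4 he)).2 (mem_union_left _ k),
      disjoint_left.2 fun e he k => (mem_sdiff.1 (h4 he)).2 (mem_union_right _ k)⟩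
  · obtain ⟨v, h1, h2⟩ := l.m1
    obtain ⟨v', h3, h4⟩ := l.m2
    refine absurd ⟨v', h4, (l.cn v h1 v' h3).closed
      (P := fun v => ∃ u ∈ G.vs P, G.Rch (G.sg p 0 M \ (P ∪ P')) u v) (fun e he => ?_)
      ⟨v, h2, Rch.refl _ _⟩⟩ k
    by_cases k1 : e ∈ P
    · exact iff_of_true ⟨_, s_mem_vs k1, Rch.refl _ _⟩ ⟨_, t_mem_vs k1, Rch.refl _ _⟩
    by_cases k2 : e ∈ P'
    · exact iff_of_false (fun k3 => k ⟨_, s_mem_vs k2, k3⟩) fun k3 => k ⟨_, t_mem_vs k2, k3⟩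
    have k3 : G.Adj (G.sg p 0 M \ (P ∪ P')) (G.s e) (G.t e) :=
      ⟨e, mem_sdiff.2 ⟨he, fun k4 => (mem_union.1 k4).elim k1 k2⟩, Or.inl ⟨rfl, rfl⟩⟩
    exact ⟨fun ⟨u, k4, k5⟩ => ⟨u, k4, Relation.ReflTransGen.tail k5 k3⟩,
      fun ⟨u, k4, k5⟩ => ⟨u, k4, Relation.ReflTransGen.tail k5 k3.symm⟩⟩

omit [Fintype V] in
private lemma ndP3_const (j : G.Jn P a b) (hp : ∀ e ∈ P, G.sw p e = 0)
    (hq : ∀ e ∈ P, G.sw q e = 0) (hu : u ∈ G.vs P) : p u + q u = p a + q a := by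
  refine (j.2.2 a j.left_mem u hu).closed (P := fun v => p v + q v = p a + q a) (fun e he => ?_) rfl
  have h1 := hp e he
  have h2 := hq e he
  simp only [sw] at h1 h2
  have h3 : p (G.s e) + q (G.s e) = p (G.t e) + q (G.t e) :=
    z2_eq_of_add (by linear_combination h1 + h2 - z2_add_self (G.n e))
  rw [h3]

private lemma ndP3_vs (hF : F ⊆ G.sg p 0 M) : G.vs F ⊆ M := (sub_ins_iff.1 (hF.trans sg_sub)).2

private lemma ndP3_ear (r : G.Ear T p z a b R) (l : G.Lnk T p M P P') (hF : F ⊆ G.sg p 0 M) :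
    Disjoint F R := by
  refine disjoint_left.2 fun e he k => ?_
  rcases r.edge e k with rfl | ⟨-, y, k1, -, k2⟩
  · exact zero_ne_one ((mem_sg.1 (hF he)).2.symm.trans r.neg)
  · exact l.tf y (ndP3_vs hF (mem_vs.2 ⟨e, he, k2⟩)) k1

/-- Two links.  HINT: the ring is `P ∪ R' ∪ (P' ∪ R)` (`ear_avoid`, `ne_d3`, `ear_disj`; `a ≠ x`),
it is even (`Ev.par_eq p`, `Ear.sum`, `sum_sg`); `q` from `Cc.bal`.  `p + q` is constant on
`vs P` and on `vs P'` (`Rch.closed`), and the two constants differ (`Od.par_eq` for `R`).  So the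
ears of `Lnk.ear` are negative for `q`.  They miss `R`, `R'` because an edge of an ear `R` is
negative or at a terminal (`Ear.edge`).  `xing`. -/
theorem cp3 (h : G.NCx T) (hm : G.Mn T p) (r : G.Ear T p z a b R) (r' : G.Ear T p z' x y R')
    (hne : z ≠ z') (hP : P ⊆ G.sg p 0 T) (hP' : P' ⊆ G.sg p 0 T) (j : G.Jn P a y)
    (j' : G.Jn P' b x) (d : Disjoint (G.vs P) (G.vs P')) (l : G.Lnk T p M P P')
    (l' : G.Lnk T p M' P P') (dM : Disjoint M M') : G.Kpa T := by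
  have ax : a ≠ x := fun k => disjoint_left.1 d j.left_mem (k ▸ j'.right_mem)
  have k1 : ∀ v, G.Ex T v → G.dg P v = 0 := fun v hv =>
    j.2.1.other (h.ne_d3 hv r.da) (h.ne_d3 hv r'.db)
  have k2 : ∀ v, G.Ex T v → G.dg P' v = 0 := fun v hv =>
    j'.2.1.other (h.ne_d3 hv r.db) (h.ne_d3 hv r'.da)
  have d1 : Disjoint P R' := (h.ear_avoid r' hP k1).1.symm
  have d2 : Disjoint R P' := (h.ear_avoid r hP' k2).1
  have d3 : Disjoint (P ∪ R') (R ∪ P') := by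
    simp only [disjoint_union_left, disjoint_union_right]
    exact ⟨⟨(h.ear_avoid r hP k1).1.symm, disjoint_of_vs (h.ear_disj hm r r' hne).symm⟩,
      disjoint_of_vs d, (h.ear_avoid r' hP' k2).1⟩
  have c : G.Cc (P ∪ R' ∪ (R ∪ P')) := (j.union r'.jn.symm d1 ax).cc (r.jn.union j' d2 ax) d3
  have hρ : P ∪ R' ∪ (R ∪ P') ⊆ G.ins T :=
    union_subset (union_subset (hP.trans sg_sub) r'.sub) (union_subset r.sub (hP'.trans sg_sub))
  obtain ⟨q, hq⟩ := c.bal h.hc (hρ.trans ins_sub_A) (by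
    rw [c.2.1.par_eq p, sum_union d3, sum_union d1, sum_union d2, r.sum, r'.sum, sum_sg hP,
      sum_sg hP']
    decide)
  have sP : P ⊆ P ∪ R' ∪ (R ∪ P') := subset_union_left.trans subset_union_left
  have sP' : P' ⊆ P ∪ R' ∪ (R ∪ P') := subset_union_right.trans subset_union_right
  have sR : R ⊆ P ∪ R' ∪ (R ∪ P') := subset_union_left.trans subset_union_right
  have e1 := r.jn.2.1.par_eq p
  have e2 := r.jn.2.1.par_eq q
  rw [r.sum] at e1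
  rw [sum_eq_zero fun e he => hq e (sR he)] at e2
  have key : ∀ {M : Finset V}, G.Lnk T p M P P' → ∃ F u u', F ⊆ G.ins T ∧ G.Jn F u u' ∧
      u ∈ G.vs (P ∪ R' ∪ (R ∪ P')) ∧ u' ∈ G.vs (P ∪ R' ∪ (R ∪ P')) ∧
      Disjoint F (P ∪ R' ∪ (R ∪ P')) ∧ G.vs F ⊆ M ∧ ∑ e ∈ F, G.sw q e = 1 ∧ G.Tf T F := by
    intro M l
    obtain ⟨F, u, u', f1, f2, f3, f4, f5, f6⟩ := l.ear d
    refine ⟨F, u, u', (f1.trans sg_sub).trans (ins_mono l.sub), f2, vs_mono sP f3, vs_mono sP' f4,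
      ?_, ndP3_vs f1, ?_, fun v hv => l.tf v (ndP3_vs f1 hv)⟩
    · simp only [disjoint_union_right]
      exact ⟨⟨f5, ndP3_ear r' l f1⟩, ndP3_ear r l f1, f6⟩
    · have e3 := f2.2.1.par_eq p
      rw [sum_sg f1] at e3
      have e4 := ndP3_const j (fun e he => (mem_sg.1 (hP he)).2) (fun e he => hq e (sP he)) f3
      have e5 := ndP3_const j' (fun e he => (mem_sg.1 (hP' he)).2) (fun e he => hq e (sP' he)) f4
      rw [f2.2.1.par_eq q]
      linear_combination e3 + e4 + e5 - e1 - e2 + z2_add_self (G.par F) -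
        z2_add_self (G.par R)
  obtain ⟨F, u, w, f1, f2, f3, f4, f5, f6, f7, f8⟩ := key l
  obtain ⟨F', u', w', g1, g2, g3, g4, g5, g6, g7, g8⟩ := key l'
  obtain ⟨A1, A2, A3, A4, k⟩ := xing h hρ c hq f1 g1 f2 g2 f3 f4 g3 g4 f5 g5
    (dM.mono f6 g6) f7 g7
  exact ⟨_, _, _, _, _, _, _, _, _, _, _, k, f8, g8⟩

end SG

end Pool.Agent.Work.MP_8c679b_co
end

-- merged part: Pool.Agent.Work.MP_8c679b_co.ND.CoA
section
/-!
A corner of the ring with a terminal on both arcs.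
-/

set_option autoImplicit false

namespace Pool.Agent.Work.MP_8c679b_co

open Finset

namespace SG

variable {V E : Type} [Fintype V] [DecidableEq V] [DecidableEq E] {G : SG V E}

variable (G) in
/-- only `z`, `z'` are negative, the arcs at the corner `c` carry the terminals `s1`, `s2` -/
structure Cor (T : Finset V) (p : V → ZMod 2) (H : Finset E) (c c1 c' c2 : V)
    (B1 B2 B3 B4 : Finset E) (z z' : E) (R R' : Finset E) (s1 s2 : V) : Prop where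
  hm : G.Mn T p
  k4 : G.K4 T H c c1 c' c2 B1 B2 B3 B4 R R'
  hp : H ⊆ G.sg p 0 T
  r : G.Ear T p z c c' R
  r' : G.Ear T p z' c1 c2 R'
  neg : ∀ e ∈ G.sg p 1 T, e = z ∨ e = z'
  e1 : G.Ex T s1
  m1 : s1 ∈ G.vs B1
  e2 : G.Ex T s2
  m2 : s2 ∈ G.vs B4
  e3 : ∀ v, G.Ex T v → v = s1 ∨ v = s2 ∨ v ∈ G.vs R ∨ v ∈ G.vs R'

variable {T Z : Finset V} {p : V → ZMod 2} {H B1 B2 B3 B4 R R' B : Finset E}
  {c c1 c' c2 s1 s2 v w : V} {z z' e : E}

namespace Cor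

variable (k : G.Cor T p H c c1 c' c2 B1 B2 B3 B4 z z' R R' s1 s2)
include k

theorem flip : G.Cor T p H c c2 c' c1 B4 B3 B2 B1 z z' R R' s2 s1 :=
  ⟨k.hm, k.k4.flip, k.hp, k.r, k.r'.symm, k.neg, k.e2, k.m2, k.e1, k.m1,
    fun v hv => by have := k.e3 v hv; tauto⟩

theorem ne : z ≠ z' := fun h => disjoint_left.1 k.k4.dzz (s_mem_vs k.r.mem)
  (s_mem_vs (h ▸ k.r'.mem))

/-- the terminals on the ring.  HINT: `K4.zr`, `K4.not_ex` with rotations. -/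
theorem on (hc : G.Cub) (hv : G.Ex T v) (m : v ∈ G.vs H) : v = s1 ∨ v = s2 := by
  rcases k.e3 v hv with h | h | h | h
  · exact Or.inl h
  · exact Or.inr h
  · rcases k.k4.zr hc h m with rfl | rfl
    exacts [absurd hv (k.k4.not_ex hc), absurd hv (k.k4.rot.rot.not_ex hc)]
  · rcases k.k4.rot.zr hc h m with rfl | rfl
    exacts [absurd hv (k.k4.rot.not_ex hc), absurd hv (k.k4.rot.rot.rot.not_ex hc)]

/-- HINT: `K4.adj`, `K4.opp`, `K4.not_ex`. -/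
theorem t1 (hc : G.Cub) (hv : G.Ex T v) (m : v ∈ G.vs B1) : v = s1 := by
  refine (k.on hc hv (vs_mono k.k4.s1.1 m)).resolve_right fun h => ?_
  have h1 := k.k4.rot.rot.rot.adj hc (h ▸ k.m2) m
  exact k.k4.not_ex hc (h1 ▸ hv)

theorem tf2 (hc : G.Cub) : G.Tf T B2 := by
  intro u m hu
  rcases k.on hc hu (vs_mono k.k4.s1.2.1 m) with h | h
  · have h1 := k.k4.adj hc (h ▸ k.m1) m
    exact k.k4.rot.not_ex hc (h1 ▸ hu)
  · exact disjoint_left.1 (k.k4.rot.opp hc) m (h ▸ k.m2)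

theorem sne (hc : G.Cub) : s1 ≠ s2 ∧ s1 ≠ c ∧ s1 ≠ c1 ∧ s1 ≠ c' ∧ s1 ≠ c2 := by
  refine ⟨fun h => ?_, fun h => k.k4.not_ex hc (h ▸ k.e1), fun h => k.k4.rot.not_ex hc (h ▸ k.e1),
    fun h => k.k4.rot.rot.not_ex hc (h ▸ k.e1), fun h => k.k4.rot.rot.rot.not_ex hc (h ▸ k.e1)⟩
  have h1 := k.k4.rot.rot.rot.adj hc (h ▸ k.m2) k.m1
  exact k.k4.not_ex hc (h1 ▸ k.e1)

/-- HINT: `cp3` with `P = B4`, `P' = B2`, the links `vs B3` (`cn_vs`, `k.flip.tf2`) and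
`Z ∪ (vs (B ∪ B2) \ {s1, c'})` (`inner_cn`; it contains `c` and `c1`). -/
theorem cp (h : G.NCx T) (hB : B ⊆ B1) (j : G.Jn B s1 c1) (hZ : Z ⊆ T)
    (tf : ∀ v ∈ Z, ¬ G.Ex T v) (cn : G.Cn Z (G.sg p 0 Z)) (mc : c ∈ Z)
    (d : Disjoint Z (G.vs B3)) (he : e ∈ G.A) (hs : G.sw p e = 0) (je : G.Je e v w) (hv : v ∈ Z)
    (hw : w ∈ G.vs (B ∪ B2)) (h1 : w ≠ s1) (h2 : w ≠ c') : G.Kpa T := by
  have hc := h.hc
  obtain ⟨q1, q2, q3, q4⟩ := k.k4.s1
  obtain ⟨-, -, n1, n2, -⟩ := k.sne hc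
  have hU : B ∪ B2 ⊆ H := union_subset (hB.trans q1) q2
  have jU : G.Jn (B ∪ B2) s1 c' := j.union k.k4.j2 (k.k4.d12.mono_left hB) n2
  have cI := inner_cn hc k.hp k.k4.cc.1 hU jU
  set I := G.vs (B ∪ B2) \ {s1, c'} with hI
  have mI : ∀ u, u ∈ I ↔ (u ∈ G.vs B ∨ u ∈ G.vs B2) ∧ u ≠ s1 ∧ u ≠ c' := fun u => by
    rw [hI, mem_sdiff, vs_union, mem_union, mem_insert, mem_singleton, not_or]
  have mono : ∀ X Y : Finset V, X ⊆ Y → G.sg p 0 X ⊆ G.sg p 0 Y := fun X Y hXY g hg =>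
    mem_sg.2 ⟨ins_mono hXY (mem_sg.1 hg).1, (mem_sg.1 hg).2⟩
  have wI : w ∈ I := by
    rw [mI, ← mem_union, ← vs_union]
    exact ⟨hw, h1, h2⟩
  have eM : e ∈ G.sg p 0 (Z ∪ I) := by
    refine mem_sg.2 ⟨mem_ins.2 ⟨he, ?_⟩, hs⟩
    rcases je with ⟨a1, a2⟩ | ⟨a1, a2⟩ <;> rw [a1, a2]
    exacts [⟨mem_union_left _ hv, mem_union_right _ wI⟩, ⟨mem_union_right _ wI, mem_union_left _ hv⟩]
  have l : G.Lnk T p (G.vs B3) B4 B2 :=
    ⟨(vs_mono q3).trans k.k4.vs_sub, k.flip.tf2 hc, cn_vs (q3.trans k.hp) k.k4.j3.2.2,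
      ⟨c2, k.k4.j3.right_mem, k.k4.j4.left_mem⟩, ⟨c', k.k4.j3.left_mem, k.k4.j2.right_mem⟩⟩
  have l' : G.Lnk T p (Z ∪ I) B4 B2 := by
    refine ⟨union_subset hZ (sdiff_subset.trans ((vs_mono hU).trans k.k4.vs_sub)),
      fun u hu hx => ?_, cn_of_base (a := v) fun u hu => ?_,
      ⟨c, mem_union_left _ mc, k.k4.j4.right_mem⟩,
      ⟨c1, mem_union_right _ ((mI c1).2 ⟨Or.inr k.k4.j2.left_mem, n1.symm, k.k4.j2.1⟩),
        k.k4.j2.left_mem⟩⟩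
    · rcases mem_union.1 hu with hu | hu
      · exact tf u hu hx
      · obtain ⟨a1 | a1, a2, -⟩ := (mI u).1 hu
        exacts [a2 (k.t1 hc hx (vs_mono hB a1)), k.tf2 hc u a1 hx]
    · rcases mem_union.1 hu with hu | hu
      · exact (cn v hv u hu).mono (mono _ _ subset_union_left)
      · exact (rch_at eM (je.at_iff.2 (Or.inl rfl)) (je.at_iff.2 (Or.inr rfl))).trans
          ((cI w wI u hu).mono (mono _ _ subset_union_right))
  refine cp3 h k.hm k.r k.r' k.ne (q4.trans k.hp) (q2.trans k.hp) k.k4.j4.symm k.k4.j2.symm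
    (k.k4.rot.opp hc).symm l l' (disjoint_left.2 fun u a1 hu => ?_)
  rcases mem_union.1 hu with hu | hu
  · exact disjoint_left.1 d hu a1
  · obtain ⟨a2 | a2, -, a3⟩ := (mI u).1 hu
    exacts [disjoint_left.1 (k.k4.opp hc) (vs_mono hB a2) a1, a3 (k.k4.rot.adj hc a2 a1)]

end Cor

end SG

end Pool.Agent.Work.MP_8c679b_co
end

-- merged part: Pool.Agent.Work.MP_8c679b_co.ND.Co
section
/-!
A corner of the ring with a terminal on both arcs.
-/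

set_option autoImplicit false

namespace Pool.Agent.Work.MP_8c679b_co

open Finset

namespace SG

variable {V E : Type} [Fintype V] [DecidableEq V] [DecidableEq E] {G : SG V E}

variable {T Z : Finset V} {p : V → ZMod 2} {H B1 B2 B3 B4 R R' B : Finset E}
  {c c1 c' c2 s1 s2 v w : V} {z z' e : E}

namespace Cor

variable (k : G.Cor T p H c c1 c' c2 B1 B2 B3 B4 z z' R R' s1 s2)
include k

/-- HINT: split `B1 = D1 + (B1 \ D1)` at `s1` (from `c`) and `B4 = (B4 \ D4) + D4` at `s2`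
(`Cc.split`; use `k.flip` for the second).  `D = D1 ∪ D4` is an arc from `s1` to `s2` through `c`,
`U = vs (H \ D)`, `W` = vertices of `T` outside `U` that are no terminals, `Z` = vertices reached
from `c` through `sg p 0 W`.  Let `e ∈ ins T` lead from `v ∈ Z` to `w ∉ Z`.  If `e ∈ R'` then `v` is
`c1`, `c2` or a terminal (`Ear.vert`), impossible.  If `e ∈ R` then `v = c`.  Otherwise `e` is
positive (`neg`), so `w ∉ W`.  If `w` is a terminal it is `s1` or `s2` (`e3`, `Ear.vert`) and `e`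
is the edge of `D` at it (`at_pair`, or degrees: `deg_ex`).  If not, `w ∈ U`, `e ∉ H`
(`Cc.ends` for `D`), `w` is no branch vertex (`K4.free`), and `cp` for `k` or `k.flip` gives the
first alternative.  Otherwise at most three edges leave `Z` (one of `R` at `c`, one of `D` at
`s1`, one at `s2`; `Cc.deg_end`), so `Z = {c}` (`c3`), and the edge of `D1` at `c` leaves `Z`. -/
theorem corner (h : G.NCx T) :
    G.Kpa T ∨ (∃ e ∈ B1, G.Je e c s1) ∧ ∃ e ∈ B4, G.Je e c s2 := by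
  classical
  by_cases hK : G.Kpa T
  · exact Or.inl hK
  right
  have hc := h.hc
  have K := k.k4
  obtain ⟨n12, n1c, n1c1, n1c', n1c2⟩ := k.sne hc
  obtain ⟨-, n2c, n2c2, n2c', n2c1⟩ := k.flip.sne hc
  obtain ⟨s1H, s2H, s3H, s4H⟩ := K.s1
  obtain ⟨D1, hD1, j1, j1', -, -⟩ := K.cc.1.split hc K.subA s1H K.j1 k.m1 n1c n1c1
  obtain ⟨D4, hD4, j4, j4', -, -⟩ := K.cc.1.split hc K.subA s4H K.j4.symm k.m2 n2c n2c2
  have dD : Disjoint D1 D4 := K.d14.mono hD1 hD4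
  have jD : G.Jn (D1 ∪ D4) s1 s2 := j1.symm.union j4 dD n12
  have hDH : D1 ∪ D4 ⊆ H := union_subset (hD1.trans s1H) (hD4.trans s4H)
  have hB2 : B2 ⊆ H \ (D1 ∪ D4) := fun x hx => mem_sdiff.2 ⟨s2H hx, fun h1 =>
    (mem_union.1 h1).elim (fun h2 => disjoint_left.1 K.d12 (hD1 h2) hx)
      fun h2 => disjoint_left.1 K.d24 hx (hD4 h2)⟩
  have hB3 : B3 ⊆ H \ (D1 ∪ D4) := fun x hx => mem_sdiff.2 ⟨s3H hx, fun h1 =>
    (mem_union.1 h1).elim (fun h2 => disjoint_left.1 K.d13 (hD1 h2) hx)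
      fun h2 => disjoint_left.1 K.d34 hx (hD4 h2)⟩
  have hU : H \ (D1 ∪ D4) ⊆ (B1 \ D1 ∪ B2) ∪ (B4 \ D4 ∪ B3) := fun x hx => by
    obtain ⟨h1, h2⟩ := mem_sdiff.1 hx
    rw [K.eq] at h1
    simp only [mem_union, mem_sdiff, not_or] at h1 h2 ⊢
    (clear * - h1 h2; tauto)
  have hends : ∀ x ∈ G.vs (D1 ∪ D4), x ∈ G.vs (H \ (D1 ∪ D4)) → x = s1 ∨ x = s2 :=
    fun x h1 h2 => K.cc.1.ends hc K.subA hDH jD.2.1 h1 h2
  obtain ⟨W, hW⟩ : ∃ W : Finset V, ∀ x, x ∈ W ↔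
      x ∈ T ∧ x ∉ G.vs (H \ (D1 ∪ D4)) ∧ ¬ G.Ex T x :=
    ⟨T.filter fun x => x ∉ G.vs (H \ (D1 ∪ D4)) ∧ ¬ G.Ex T x, fun x => mem_filter⟩
  have cW : c ∈ W := (hW c).2 ⟨K.vs_sub (vs_mono s1H K.j1.left_mem), fun h1 =>
    (hends c (vs_mono subset_union_left j1.left_mem) h1).elim (fun h2 => n1c h2.symm)
      fun h2 => n2c h2.symm, K.not_ex hc⟩
  obtain ⟨Z, hZ⟩ : ∃ Z : Finset V, ∀ x, x ∈ Z ↔ G.Rch (G.sg p 0 W) c x :=
    ⟨univ.filter fun x => G.Rch (G.sg p 0 W) c x, fun x => by simp⟩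
  have cZ : c ∈ Z := (hZ c).2 (Rch.refl _ _)
  have ZW : ∀ x ∈ Z, x ∈ W := fun x hx =>
    ((hZ x).1 hx).closed (P := fun y => y ∈ W) (fun g hg => by
      have := mem_ins.1 (sg_sub hg)
      exact iff_of_true this.2.1 this.2.2) cW
  have ZT : Z ⊆ T := fun x hx => ((hW x).1 (ZW x hx)).1
  have tf : ∀ x ∈ Z, ¬ G.Ex T x := fun x hx => ((hW x).1 (ZW x hx)).2.2
  have ZU : ∀ x ∈ Z, x ∉ G.vs (H \ (D1 ∪ D4)) := fun x hx => ((hW x).1 (ZW x hx)).2.1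
  have cn : G.Cn Z (G.sg p 0 Z) := by
    refine cn_of_base (a := c) fun x hx => ?_
    have r := (hZ x).1 hx
    clear hx
    induction r with
    | refl => exact Rch.refl _ _
    | @tail y y' r1 r2 ih =>
      obtain ⟨g, hg, jg⟩ := r2
      have m1 : y ∈ Z := (hZ y).2 r1
      have m2 : y' ∈ Z := (hZ y').2 (Relation.ReflTransGen.tail r1 ⟨g, hg, jg⟩)
      have hg' := mem_sg.1 hg
      refine Relation.ReflTransGen.tail ih ⟨g, mem_sg.2 ⟨mem_ins.2 ⟨ins_sub_A hg'.1, ?_⟩, hg'.2⟩, jg⟩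
      rcases jg with ⟨rfl, rfl⟩ | ⟨rfl, rfl⟩
      exacts [⟨m1, m2⟩, ⟨m2, m1⟩]
  have d3 : Disjoint Z (G.vs B3) := disjoint_left.2 fun x hx h1 => ZU x hx (vs_mono hB3 h1)
  have d2 : Disjoint Z (G.vs B2) := disjoint_left.2 fun x hx h1 => ZU x hx (vs_mono hB2 h1)
  have key : ∀ g ∈ G.ins T, ∀ x y, G.Je g x y → x ∈ Z → y ∉ Z →
      (g ∈ R ∧ x = c) ∨ (g ∈ D1 ∪ D4 ∧ (y = s1 ∨ y = s2)) := fun g hg x y jg hx hy => by
    have ax : G.At g x := jg.imp And.left And.right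
    have ay : G.At g y := jg.symm.imp And.left And.right
    have hg' := mem_ins.1 hg
    have yT : y ∈ T := by
      rcases ay with rfl | rfl
      exacts [hg'.2.1, hg'.2.2]
    by_cases h1 : g ∈ R
    · rcases k.r.vert x (mem_vs.2 ⟨g, h1, ax⟩) with h2 | h2 | h2
      · exact Or.inl ⟨h1, h2⟩
      · exact absurd (h2 ▸ K.j2.right_mem) (disjoint_left.1 d2 hx)
      · exact absurd h2.1 (tf x hx)
    right
    have h2 : g ∉ R' := fun h2 => by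
      rcases k.r'.vert x (mem_vs.2 ⟨g, h2, ax⟩) with h3 | h3 | h3
      · exact disjoint_left.1 d2 hx (h3 ▸ K.j2.left_mem)
      · exact disjoint_left.1 d3 hx (h3 ▸ K.j3.right_mem)
      · exact tf x hx h3.1
    have hs : G.sw p g = 0 := by
      rcases z2 (G.sw p g) with h3 | h3
      · exact h3
      · rcases k.neg g (mem_sg.2 ⟨hg, h3⟩) with rfl | rfl
        exacts [absurd k.r.mem h1, absurd k.r'.mem h2]
    have yW : y ∉ W := fun h3 => by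
      refine hy ((hZ y).2 (Relation.ReflTransGen.tail ((hZ x).1 hx)
        ⟨g, mem_sg.2 ⟨mem_ins.2 ⟨hg'.1, ?_⟩, hs⟩, jg⟩))
      rcases jg with ⟨rfl, rfl⟩ | ⟨rfl, rfl⟩
      exacts [⟨ZW _ hx, h3⟩, ⟨h3, ZW _ hx⟩]
    have gD : g ∈ H → g ∈ D1 ∪ D4 := fun h3 => by
      by_contra h4
      exact ZU x hx (mem_vs.2 ⟨g, mem_sdiff.2 ⟨h3, h4⟩, ax⟩)
    by_cases ey : G.Ex T y
    · have h3 : y = s1 ∨ y = s2 := by
        rcases k.e3 y ey with h3 | h3 | h3 | h3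
        · exact Or.inl h3
        · exact Or.inr h3
        · rcases k.r.vert y h3 with h4 | h4 | h4
          · exact absurd h4 (h.ne_d3 ey k.r.da)
          · exact absurd h4 (h.ne_d3 ey k.r.db)
          · exact absurd (h4.2.2 g hg ay) h1
        · rcases k.r'.vert y h3 with h4 | h4 | h4
          · exact absurd h4 (h.ne_d3 ey k.r'.da)
          · exact absurd h4 (h.ne_d3 ey k.r'.db)
          · exact absurd (h4.2.2 g hg ay) h2
      have yH : y ∈ G.vs H := by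
        rcases h3 with rfl | rfl
        exacts [vs_mono s1H k.m1, vs_mono s4H k.m2]
      refine ⟨gD (mem_of_deg_le K.sub ?_ hg ay), h3⟩
      rw [h.deg_ex ey, deg2_of_dg hc K.subA yH (K.cc.1.2.1 y)]
    exfalso
    have yU : y ∈ G.vs (H \ (D1 ∪ D4)) := by
      by_contra h3
      exact yW ((hW y).2 ⟨yT, h3, ey⟩)
    have gH : g ∉ H := fun h3 => by
      rcases hends y (mem_vs.2 ⟨g, gD h3, ay⟩) yU with rfl | rfl
      exacts [ey k.e1, ey k.e2]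
    obtain ⟨-, -, f3, -⟩ := K.free hc hg'.1 ay gH h1 h2
    have h3 := vs_mono hU yU
    rw [vs_union, mem_union] at h3
    rcases h3 with h3 | h3
    · exact hK (k.cp h sdiff_subset j1' ZT tf cn cZ d3 hg'.1 hs jg hx h3
        (fun h4 => ey (h4 ▸ k.e1)) f3)
    · exact hK (k.flip.cp h sdiff_subset j4' ZT tf cn cZ d2 hg'.1 hs jg hx h3
        (fun h4 => ey (h4 ▸ k.e2)) f3)
  have hsub : G.crs (G.ins T) Z ⊆ (R.filter fun g => G.At g c) ∪
      (((D1 ∪ D4).filter fun g => G.At g s1) ∪ (D1 ∪ D4).filter fun g => G.At g s2) := by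
    intro g hg
    obtain ⟨h1, h3⟩ := mem_crs.1 hg
    have h4 : ∃ x y, G.Je g x y ∧ x ∈ Z ∧ y ∉ Z := by
      by_cases h5 : G.s g ∈ Z
      · exact ⟨_, _, Or.inl ⟨rfl, rfl⟩, h5, fun h6 => h3 (iff_of_true h5 h6)⟩
      · refine ⟨_, _, Or.inr ⟨rfl, rfl⟩, ?_, h5⟩
        by_contra h6
        exact h3 (iff_of_false h5 h6)
    obtain ⟨x, y, jg, hx, hy⟩ := h4
    have ax : G.At g x := jg.imp And.left And.right
    have ay : G.At g y := jg.symm.imp And.left And.right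
    rw [mem_union, mem_union, mem_filter, mem_filter, mem_filter]
    rcases key g h1 x y jg hx hy with ⟨h5, rfl⟩ | ⟨h5, rfl | rfl⟩
    exacts [Or.inl ⟨h5, ax⟩, Or.inr (Or.inl ⟨h5, ay⟩), Or.inr (Or.inr ⟨h5, ay⟩)]
  have one : ∀ (S : Finset E) (x : V), G.deg S x = 1 → (S.filter fun g => G.At g x).card ≤ 1 :=
    fun S x hd => card_le_one.2 fun _ he _ hf => eq_of_deg_le_one hd.le (mem_filter.1 hf).1
      (mem_filter.1 he).1 (mem_filter.1 hf).2 (mem_filter.1 he).2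
  have c1' := one R c (K.odd.1.deg_end hc (K.odd.2.2.trans ins_sub_A) subset_union_right K.jz)
  have c2' := one _ s1 (K.cc.1.deg_end hc K.subA hDH jD)
  have c3' := one _ s2 (K.cc.1.deg_end hc K.subA hDH jD.symm)
  have h3 : (G.crs (G.ins T) Z).card ≤ 3 := by
    have a1 := card_le_card hsub
    have a2 := card_union_le (R.filter fun g => G.At g c)
      (((D1 ∪ D4).filter fun g => G.At g s1) ∪ (D1 ∪ D4).filter fun g => G.At g s2)
    have a3 := card_union_le ((D1 ∪ D4).filter fun g => G.At g s1)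
      ((D1 ∪ D4).filter fun g => G.At g s2)
    omega
  have hone := h.c3 ZT ⟨c, cZ⟩ tf h3
  have last : ∀ S ⊆ H, c ∈ G.vs S → ∃ g ∈ S, G.Je g c s1 ∨ G.Je g c s2 := fun S hS m => by
    obtain ⟨g, hg, ag⟩ := mem_vs.1 m
    have gT := K.sub (hS hg)
    have nl := h.no_loop gT
    obtain ⟨y, jg, ny⟩ : ∃ y, G.Je g c y ∧ y ≠ c := by
      rcases ag with h1 | h1
      · exact ⟨_, Or.inl ⟨h1, rfl⟩, fun h2 => nl (h1.trans h2.symm)⟩
      · exact ⟨_, Or.inr ⟨rfl, h1⟩, fun h2 => nl (h2.trans h1.symm)⟩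
    have yZ : y ∉ Z := fun h1 => ny (card_le_one.1 hone.le y h1 c cZ)
    rcases key g gT c y jg cZ yZ with ⟨h1, -⟩ | ⟨-, rfl | rfl⟩
    · exact absurd (hS hg) (disjoint_left.1 K.dz h1)
    · exact ⟨g, hg, Or.inl jg⟩
    · exact ⟨g, hg, Or.inr jg⟩
  constructor
  · obtain ⟨g, hg, jg | jg⟩ := last B1 s1H K.j1.left_mem
    · exact ⟨g, hg, jg⟩
    · exact absurd (k.t1 hc k.e2 (mem_vs.2 ⟨g, hg, jg.symm.imp And.left And.right⟩)).symm n12
  · obtain ⟨g, hg, jg | jg⟩ := last B4 s4H K.j4.right_mem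
    · exact absurd (k.flip.t1 hc k.e1 (mem_vs.2 ⟨g, hg, jg.symm.imp And.left And.right⟩)) n12
    · exact ⟨g, hg, jg⟩

end Cor

end SG

end Pool.Agent.Work.MP_8c679b_co
end

-- merged part: Pool.Agent.Work.MP_8c679b_co.ND.TwD
section
/-!
Twisted rings: definitions.  The ring is `a A1 a' A2 b A3 b' A4 a` with the chords `z = a b` and
`z' = a' b'`; `Y` is a component of the rest with two terminals and at most one edge to each arc.
An ear `R` through `Y` between two arcs, both chords and parts of the arcs form a new ring (`Tw3`);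
the edge from a third arc into `Y` starts a negative ear `F` (the anchor), which keeps its end `w`
and `R` on the ring while the two crossing paths are shortened to chords (`Tw1`, `Tw2`).
-/

set_option autoImplicit false

namespace Pool.Agent.Work.MP_8c679b_co

open Finset

namespace SG

variable {V E : Type} [Fintype V] [DecidableEq V] [DecidableEq E] (G : SG V E)

/-- some edge leads from `Y` to a vertex of `B` -/
def Tc (Y : Finset V) (B : Finset E) : Prop := ∃ e ∈ G.cut Y, ∃ u ∈ G.vs B, G.At e u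

/-- the edge `g` leads from the inner vertex `x` of the arc `A` from `c` to `c'` to `y ∈ Y`, and
`B` is the first part of the arc -/
structure HitY (Y : Finset V) (A B : Finset E) (c c' x y : V) (g : E) : Prop where
  ga : g ∈ G.A
  je : G.Je g x y
  my : y ∈ Y
  sub : B ⊆ A
  j1 : G.Jn B c x
  j2 : G.Jn (A \ B) x c'
  n1 : c' ∉ G.vs B
  n2 : c ∉ G.vs (A \ B)

/-- the potential is positive on the ring and at `Y` -/
def PotY (T Y : Finset V) (ρ : Finset E) (p : V → ZMod 2) : Prop :=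
  (∀ e ∈ ρ, G.sw p e = 0) ∧ ∀ e ∈ G.ins T, e ∈ G.tch Y → G.sw p e = 0

/-- the ear `R` through `Y` and the anchor `F` from `w` to a vertex `k` of `R` -/
structure BaseY (T Y : Finset V) (R F : Finset E) (w k : V) : Prop where
  tc : R ⊆ G.tch Y
  cn : G.Cn (G.vs R ∩ Y) (R ∩ G.ins Y)
  kr : k ∈ G.vs R
  ky : k ∈ Y
  wy : w ∉ Y
  jf : G.Jn F w k
  sf : F ⊆ G.ins T
  tf : F ⊆ G.tch Y
  vf : ∀ v ∈ G.vs F, v ∈ Y ∨ v = w
  df : Disjoint F R

/-- an anchored ring -/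
structure An (T Y : Finset V) (R F : Finset E) (w k : V) (ρ : Finset E)
    (a a' b b' : V) (A1 A2 A3 A4 Z Z' : Finset E) : Prop where
  k4 : G.K4 T ρ a a' b b' A1 A2 A3 A4 Z Z'
  tf : G.Tf T Z
  tf' : G.Tf T Z'
  dy : Disjoint (G.vs Z) Y
  dy' : Disjoint (G.vs Z') Y
  mw : w ∈ G.vs A1
  sr : R ⊆ A3
  ry : ∀ e ∈ ρ, e ∈ G.tch Y → e ∈ R
  ng : G.Ng ρ F w k
  ex : ∀ e ∈ G.cut Y, e ∈ G.ins T → ∀ n, G.At e n → n ∉ Y →
    ∃ x, (x ∈ G.vs R ∨ x = w) ∧ G.Rch (G.ins (T \ Y) \ (Z ∪ Z')) n x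

/-- an anchored ring whose paths have `m` edges -/
def AnS (T Y : Finset V) (R F : Finset E) (w k : V) (m : ℕ) : Prop :=
  ∃ ρ a a' b b' A1 A2 A3 A4 Z Z',
    G.An T Y R F w k ρ a a' b b' A1 A2 A3 A4 Z Z' ∧ Z.card + Z'.card = m

/-- the edges of `ins T` that leave `Y` are `g = x s`, `g' = x' t`, `f = w y` and `f'` at `y'`;
there are no two disjoint connections `s t` and `y y'` that cover `Y` -/
structure Exi (T Y : Finset V) (g g' f f' : E) (x x' w s t y y' : V) : Prop where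
  sub : Y ⊆ T
  two : 2 ≤ (T \ Y).card
  cn : G.Cn Y (G.ins Y)
  mg : g ∈ G.ins T
  mg' : g' ∈ G.ins T
  mf : f ∈ G.ins T
  jg : G.Je g x s
  jg' : G.Je g' x' t
  jf : G.Je f w y
  af : G.At f' y'
  nx : x ∉ Y
  nx' : x' ∉ Y
  nw : w ∉ Y
  ms : s ∈ Y
  mt : t ∈ Y
  my : y ∈ Y
  my' : y' ∈ Y
  xx : x ≠ x'
  wx : w ≠ x
  wx' : w ≠ x'
  ex : ∀ e ∈ G.cut Y, e ∈ G.ins T → e = g ∨ e = g' ∨ e = f ∨ e = f'
  nox : ∀ K ⊆ Y, y ∈ K → y' ∈ K → s ∉ K → t ∉ K → G.Cn K (G.ins K) →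
    G.Cn (Y \ K) (G.ins (Y \ K)) → False

/-- the three terminals, two of them in `Y` -/
structure Trm (T Y : Finset V) (t1 t2 t3 : V) : Prop where
  e1 : G.Ex T t1
  e2 : G.Ex T t2
  e3 : G.Ex T t3
  n12 : t1 ≠ t2
  n13 : t1 ≠ t3
  n23 : t2 ≠ t3
  m1 : t1 ∈ Y
  m2 : t2 ∈ Y
  all : ∀ v, G.Ex T v → v = t1 ∨ v = t2 ∨ v = t3

/-- every ring through `R` and `w` has a good rest -/
def Rdy2 (T : Finset V) (R : Finset E) (w : V) : Prop :=
  ∀ ρ, R ⊆ ρ → w ∈ G.vs ρ → G.Gd2 T (T \ G.vs ρ)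

end SG

end Pool.Agent.Work.MP_8c679b_co
end

-- merged part: Pool.Agent.Work.MP_8c679b_co.ND.Tw5
section
/-!
The ear through `Y`.
-/

set_option autoImplicit false

namespace Pool.Agent.Work.MP_8c679b_co

open Finset

namespace SG

variable {V E : Type} [Fintype V] [DecidableEq V] [DecidableEq E] {G : SG V E}

variable {T Y K : Finset V} {ρ R : Finset E} {g g' f f' : E}
  {x x' w s t y y' t1 t2 t3 d1 d2 d3 u v : V}

theorem tw5_jn {e : E} {a b : V} (h : G.Je e a b) (n : a ≠ b) : G.Jn {e} a b := by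
  rcases h with ⟨rfl, rfl⟩ | ⟨rfl, rfl⟩
  exacts [jn_edge n, (jn_edge n.symm).symm]

theorem tw5_in {e : E} {a b : V} (hK : K ⊆ Y) (h : G.Je e a b) (ha : a ∉ Y)
    (hc : ¬ (G.s e ∈ K ↔ G.t e ∈ K)) : b ∈ K := by
  by_contra hb
  have k : a ∉ K := fun k => ha (hK k)
  rcases h with ⟨rfl, rfl⟩ | ⟨rfl, rfl⟩
  · exact hc (iff_of_false k hb)
  · exact hc (iff_of_false hb k)

theorem tw5_out {e : E} {a b : V} (h : G.Je e a b) (ha : a ∉ Y) : e ∉ G.ins Y := fun k => by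
  rcases h with ⟨rfl, -⟩ | ⟨-, rfl⟩
  exacts [ha (mem_ins.1 k).2.1, ha (mem_ins.1 k).2.2]

theorem tw5_inc {e : E} {a b : V} (h : G.Je e a b) (z : V) : iv (z = b) ≤ G.inc e z := by
  by_cases k : z = b
  · have := inc_pos.2 (h.at_iff.2 (Or.inr k))
    simp only [iv, k, if_true] at this ⊢
    omega
  · simp [iv, k]

namespace Exi

variable (i : G.Exi T Y g g' f f' x x' w s t y y')
include i

theorem tw5_crs (hK : K ⊆ Y) {e : E} (he : e ∈ G.crs (G.ins T) K) :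
    e ∈ G.crs (G.ins Y) K ∨ (e = g ∧ s ∈ K) ∨ (e = g' ∧ t ∈ K) ∨ (e = f ∧ y ∈ K) ∨
      (e = f' ∧ y' ∈ K) := by
  obtain ⟨h1, h2⟩ := mem_crs.1 he
  have hA := (mem_ins.1 h1).1
  by_cases k : e ∈ G.ins Y
  · exact Or.inl (mem_crs.2 ⟨k, h2⟩)
  have k1 : ¬ (G.s e ∈ Y ∧ G.t e ∈ Y) := fun k1 => k (mem_ins.2 ⟨hA, k1⟩)
  have k2 := @hK (G.s e)
  have k3 := @hK (G.t e)
  have hc : e ∈ G.cut Y := mem_cut.2 ⟨hA, by (clear * - h2 k1 k2 k3; tauto)⟩
  refine Or.inr ?_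
  rcases i.ex e hc h1 with rfl | rfl | rfl | rfl
  · exact Or.inl ⟨rfl, tw5_in hK i.jg i.nx h2⟩
  · exact Or.inr (Or.inl ⟨rfl, tw5_in hK i.jg' i.nx' h2⟩)
  · exact Or.inr (Or.inr (Or.inl ⟨rfl, tw5_in hK i.jf i.nw h2⟩))
  · refine Or.inr (Or.inr (Or.inr ⟨rfl, ?_⟩))
    have k4 := i.my'
    rcases i.af with k5 | k5 <;> rw [← k5] at k4 ⊢ <;> (clear * - h2 k1 k2 k3 k4; tauto)

theorem tw5_gg : g ≠ g' := fun k => by
  have k1 : G.At g x := i.jg.at_iff.2 (Or.inl rfl)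
  rw [k, i.jg'.at_iff] at k1
  exact k1.elim i.xx fun k2 => i.nx (k2 ▸ i.mt)

theorem tw5_deg (h : G.NCx T) (z : V) : G.deg (G.ins Y) z + iv (z = s) + iv (z = t) ≤ 3 := by
  have n1 := tw5_out i.jg i.nx
  have n2 := tw5_out i.jg' i.nx'
  have k1 := h.hc.le3 (insert_subset (ins_sub_A i.mg) (insert_subset (ins_sub_A i.mg')
    (ins_sub_A (W := Y)))) z
  have n3 : g ∉ insert g' (G.ins Y) := fun k => (mem_insert.1 k).elim i.tw5_gg n1
  rw [deg, sum_insert n3, sum_insert n2] at k1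
  have k2 := tw5_inc i.jg z
  have k3 := tw5_inc i.jg' z
  rw [deg]
  omega

/-- A set with one crossing edge is a terminal.  HINT: an edge of `crs (ins T) K` is in
`crs (ins Y) K` or in `cut Y` with its inner end in `K`; then it is `f` (and `y ∈ K`) or `f'` (and
`y' ∈ K`).  If `y ∉ K` or `y' ∉ K`: `NCx.c2` (`T \ K` contains `T \ Y`).  Otherwise `NCx.cn3` for
`K` and for `Y \ K` (its crossing edges are in `crs (ins Y) K` or are `g`, `g'`), against `nox`. -/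
theorem one (h : G.NCx T) (hK : K ⊆ Y) (hn : K.Nonempty) (hs : s ∉ K) (ht : t ∉ K)
    (h1 : (G.crs (G.ins Y) K).card ≤ 1) : ∃ r, G.Ex T r ∧ K = {r} := by
  have hne : ∀ X ⊆ Y, X ≠ T := fun X hX k => by
    have k1 := i.two
    rw [sdiff_eq_empty_iff_subset.2 (k ▸ hX), card_empty] at k1
    omega
  have fin : (G.crs (G.ins T) K).card ≤ 2 → ∃ r, G.Ex T r ∧ K = {r} := fun k => by
    rcases h.c2 (hK.trans i.sub) hn (hne K hK) k with k1 | ⟨r, -, k1⟩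
    · exact k1
    · have k2 := card_le_card (sdiff_subset_sdiff (Subset.refl T) hK)
      have k3 := i.two
      rw [k1, card_singleton] at k2
      omega
  by_cases hy : y ∈ K
  swap
  · refine fin ((card_le_card (t := insert f' (G.crs (G.ins Y) K)) fun e he => ?_).trans
      ((card_insert_le _ _).trans (by omega)))
    rcases i.tw5_crs hK he with k | ⟨-, k⟩ | ⟨-, k⟩ | ⟨-, k⟩ | ⟨k, -⟩
    exacts [mem_insert_of_mem k, absurd k hs, absurd k ht, absurd k hy, mem_insert.2 (Or.inl k)]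
  by_cases hy' : y' ∈ K
  swap
  · refine fin ((card_le_card (t := insert f (G.crs (G.ins Y) K)) fun e he => ?_).trans
      ((card_insert_le _ _).trans (by omega)))
    rcases i.tw5_crs hK he with k | ⟨-, k⟩ | ⟨-, k⟩ | ⟨k, -⟩ | ⟨-, k⟩
    exacts [mem_insert_of_mem k, absurd k hs, absurd k ht, mem_insert.2 (Or.inl k), absurd k hy']
  have c3 : ∀ a b : E, (insert a (insert b (G.crs (G.ins Y) K))).card ≤ 3 := fun a b => by
    have k1 := card_insert_le a (insert b (G.crs (G.ins Y) K))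
    have k2 := card_insert_le b (G.crs (G.ins Y) K)
    omega
  refine (i.nox K hK hy hy' hs ht
    (h.cn3 (hK.trans i.sub) (hne K hK) ((card_le_card fun e he => ?_).trans (c3 f f')))
    (h.cn3 (sdiff_subset.trans i.sub) (hne (Y \ K) sdiff_subset)
      ((card_le_card fun e he => ?_).trans (c3 g g')))).elim
  · rcases i.tw5_crs hK he with k | ⟨-, k⟩ | ⟨-, k⟩ | ⟨k, -⟩ | ⟨k, -⟩
    exacts [mem_insert_of_mem (mem_insert_of_mem k), absurd k hs, absurd k ht,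
      mem_insert.2 (Or.inl k), mem_insert_of_mem (mem_insert.2 (Or.inl k))]
  · rcases i.tw5_crs sdiff_subset he with k | ⟨k, -⟩ | ⟨k, -⟩ | ⟨-, k⟩ | ⟨-, k⟩
    exacts [mem_insert_of_mem (mem_insert_of_mem (by rwa [crs_sdiff hK] at k)), mem_insert.2 (Or.inl k),
      mem_insert_of_mem (mem_insert.2 (Or.inl k)), absurd hy (mem_sdiff.1 k).2,
      absurd hy' (mem_sdiff.1 k).2]

/-- HINT: if `s = t`, then `K = Y \ {s}` has at most one crossing edge in `ins Y` (`g ≠ g'` are at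
`s` and not in `ins Y`), so `K = {r}`, `Y = {s, r}` consists of the terminals `t1`, `t2`, which are
adjacent by `cn`: `NCx.indep`. -/
theorem ne (h : G.NCx T) (m : G.Trm T Y t1 t2 t3) : s ≠ t := by
  intro hst
  have k1 := i.tw5_deg h s
  have k2 : G.deg (G.ins Y) s ≤ 1 := by
    simp only [iv, hst, if_true] at k1 ⊢
    omega
  have k3 : ∀ e ∈ G.crs (G.ins Y) (Y.erase s), e ∈ G.ins Y ∧ G.At e s := fun e he => by
    obtain ⟨p1, p2⟩ := mem_crs.1 he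
    obtain ⟨-, p3, p4⟩ := mem_ins.1 p1
    refine ⟨p1, by_contra fun p5 => p2 (iff_of_true (mem_erase.2 ⟨fun p6 => p5 (Or.inl p6), p3⟩)
      (mem_erase.2 ⟨fun p6 => p5 (Or.inr p6), p4⟩))⟩
  have k4 : (Y.erase s).Nonempty := by
    by_cases p : t1 = s
    · exact ⟨t2, mem_erase.2 ⟨fun q => m.n12 (p.trans q.symm), m.m2⟩⟩
    · exact ⟨t1, mem_erase.2 ⟨p, m.m1⟩⟩
  obtain ⟨r, -, k5⟩ := i.one h (erase_subset s Y) k4 (notMem_erase s Y) (hst ▸ notMem_erase s Y)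
    (card_le_one.2 fun e he e' he' =>
      (eq_of_deg_le_one k2 (k3 e he).1 (k3 e' he').1 (k3 e he).2 (k3 e' he').2).symm)
  have k6 : ∀ z ∈ Y, z = s ∨ z = r := fun z hz => by
    by_cases p : z = s
    · exact Or.inl p
    · exact Or.inr (mem_singleton.1 (k5 ▸ mem_erase.2 ⟨p, hz⟩))
  have k7 : ∀ z ∈ Y, G.Ex T z := fun z hz => by
    have n := m.n12
    rcases k6 z hz with p | p <;> rcases k6 t1 m.m1 with p1 | p1 <;>
      rcases k6 t2 m.m2 with p2 | p2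
    all_goals first
      | exact (p.trans p1.symm) ▸ m.e1
      | exact (p.trans p2.symm) ▸ m.e2
      | exact absurd (p1.trans p2.symm) n
  obtain ⟨e, he, -⟩ := mem_vs.1 ((i.cn t1 m.m1 t2 m.m2).mem_vs m.n12)
  exact h.indep (ins_mono i.sub he) (k7 _ (mem_ins.1 he).2.1) (k7 _ (mem_ins.1 he).2.2)

/-- The separating ear.  HINT: `K1GX_core` with `U = Y`, `d = ![d1, d2, d3]` (its last hypothesis
by `one`: a singleton does not contain two marks); `R = insert g (insert g' (pe n e))`,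
`vs R ∩ Y = pv n v` (`Pth.pp`, `n ≠ 0`), `R ∩ ins Y = pe n e`, `mem_cmp`. -/
theorem ear (h : G.NCx T) (hst : s ≠ t) (m1 : d1 ∈ Y) (m2 : d2 ∈ Y) (m3 : d3 ∈ Y) (n12 : d1 ≠ d2)
    (n13 : d1 ≠ d3 ∨ d3 = s) (n23 : d2 ≠ d3 ∨ d3 = s) :
    ∃ R, G.EarY T Y R x x' ∧ g ∈ R ∧ g' ∈ R ∧ G.Sep Y R d1 d2 ∧ G.Sep Y R d1 d3 ∧
      G.Sep Y R d2 d3 := by
  obtain ⟨n, p, q, hp, h0, hn, hs⟩ := K1GX_core (G := G) (U := Y) (d := ![d1, d2, d3]) g hst
    (i.cn s i.ms t i.mt) (fun z _ => i.tw5_deg h z)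
    (fun j => by fin_cases j; exacts [m1, m2, m3]) fun K hK ks kt j l jl hj hl => by
      by_contra k
      obtain ⟨r, -, k1⟩ := i.one h hK ⟨_, hj⟩ ks kt (by omega)
      have k2 : ![d1, d2, d3] j = ![d1, d2, d3] l := by
        rw [k1, mem_singleton] at hj hl
        exact hj.trans hl.symm
      have k3 : d3 ∈ K → d3 ≠ s := fun a b => ks (b ▸ a)
      fin_cases j <;> fin_cases l
      · exact jl rfl
      · exact n12 k2
      · exact n13.elim (fun a => a k2) (k3 hl)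
      · exact n12 k2.symm
      · exact jl rfl
      · exact n23.elim (fun a => a k2) (k3 hl)
      · exact n13.elim (fun a => a k2.symm) (k3 hj)
      · exact n23.elim (fun a => a k2.symm) (k3 hj)
      · exact jl rfl
  have hU : pv n p ⊆ Y := hp.sub_of_ins (h0 ▸ i.ms)
  obtain ⟨p1, p2, p3, p4, p5⟩ := hp.pp ins_sub_A
  rw [h0] at p3 p4
  rw [hn] at p3 p5
  have pY : pe n q ⊆ G.ins Y := p1.trans (ins_mono hU)
  have v1 : G.vs (pe n q) ⊆ pv n p := (sub_ins_iff.1 p1).2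
  have v2 : pv n p ⊆ G.vs (pe n q) := fun z hz => by
    by_cases k : z = s
    · exact (p2 z hz t p5).mem_vs (k ▸ hst)
    · exact (p2 z hz s p4).mem_vs k
  have jP : G.Jn (pe n q) s t := ⟨hst, p3, fun a ha b hb => p2 a (v1 ha) b (v1 hb)⟩
  have n1 := tw5_out i.jg i.nx
  have n2 := tw5_out i.jg' i.nx'
  have xs : x ≠ s := fun k => i.nx (k ▸ i.ms)
  have xt : x ≠ t := fun k => i.nx (k ▸ i.mt)
  have xt' : x' ≠ t := fun k => i.nx' (k ▸ i.mt)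
  have jR : G.Jn ({g} ∪ pe n q ∪ {g'}) x x' :=
    ((tw5_jn i.jg xs).union jP (disjoint_singleton_left.2 fun k => n1 (pY k)) xt).union
      (tw5_jn i.jg' xt').symm (disjoint_singleton_right.2 fun k => (mem_union.1 k).elim
        (fun a => i.tw5_gg (mem_singleton.1 a).symm) fun a => n2 (pY a)) i.xx
  have sP : pe n q ⊆ {g} ∪ pe n q ∪ {g'} := subset_union_right.trans subset_union_left
  have mR : ∀ e ∈ {g} ∪ pe n q ∪ {g'}, e = g ∨ e ∈ pe n q ∨ e = g' := fun e he => by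
    simpa only [mem_union, mem_singleton, or_assoc] using he
  have vR : ∀ z ∈ G.vs ({g} ∪ pe n q ∪ {g'}), z ∈ pv n p ∨ z = x ∨ z = x' := fun z hz => by
    obtain ⟨e, he, ha⟩ := mem_vs.1 hz
    rcases mR e he with rfl | k | rfl
    · exact (i.jg.at_iff.1 ha).elim (fun a => Or.inr (Or.inl a)) fun a => Or.inl (a ▸ p4)
    · exact Or.inl (v1 (mem_vs.2 ⟨e, k, ha⟩))
    · exact (i.jg'.at_iff.1 ha).elim (fun a => Or.inr (Or.inr a)) fun a => Or.inl (a ▸ p5)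
  have vY : ∀ z ∈ G.vs ({g} ∪ pe n q ∪ {g'}), z ∈ Y → z ∈ pv n p := fun z hz hY =>
    (vR z hz).elim id fun a => a.elim (fun b => absurd (b ▸ hY) i.nx) fun b =>
      absurd (b ▸ hY) i.nx'
  have eq : Y \ G.vs ({g} ∪ pe n q ∪ {g'}) = Y \ pv n p := by
    ext z
    simp only [mem_sdiff]
    exact ⟨fun a => ⟨a.1, fun b => a.2 (vs_mono sP (v2 b))⟩, fun a => ⟨a.1, fun b =>
      a.2 (vY z b a.1)⟩⟩
  have sep : ∀ j l : Fin 3, j ≠ l → ![d1, d2, d3] l ∈ Y →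
      G.Sep Y ({g} ∪ pe n q ∪ {g'}) (![d1, d2, d3] j) (![d1, d2, d3] l) := fun j l jl hl => by
    by_cases a : ![d1, d2, d3] j ∈ pv n p
    · exact Or.inl (vs_mono sP (v2 a))
    by_cases b : ![d1, d2, d3] l ∈ pv n p
    · exact Or.inr (Or.inl (vs_mono sP (v2 b)))
    refine Or.inr (Or.inr fun k => hs j l jl a (mem_cmp.2 ⟨mem_sdiff.2 ⟨hl, b⟩, ?_⟩))
    rwa [eq] at k
  have tj : ∀ {e a b}, e ∈ G.ins T → G.Je e a b → b ∈ Y → e ∈ G.tch Y := fun he hj hb => by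
    refine mem_tch.2 ⟨ins_sub_A he, ?_⟩
    rcases hj with ⟨-, rfl⟩ | ⟨rfl, -⟩
    exacts [Or.inr hb, Or.inl hb]
  refine ⟨{g} ∪ pe n q ∪ {g'}, ⟨jR, fun e he => ?_, fun e he => ?_, i.nx, i.nx',
    fun z hz => (vR z hz).imp_left fun a => hU a, fun a ha b hb => ?_⟩, by simp, by simp,
    sep 0 1 (by decide) m2, sep 0 2 (by decide) m3, sep 1 2 (by decide) m3⟩
  · rcases mR e he with rfl | k | rfl
    exacts [i.mg, ins_mono i.sub (pY k), i.mg']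
  · rcases mR e he with rfl | k | rfl
    exacts [tj i.mg i.jg i.ms, mem_tch.2 ⟨ins_sub_A (pY k), Or.inl (mem_ins.1 (pY k)).2.1⟩,
      tj i.mg' i.jg' i.mt]
  · exact (p2 a (vY a (mem_inter.1 ha).1 (mem_inter.1 ha).2) b
      (vY b (mem_inter.1 hb).1 (mem_inter.1 hb).2)).mono (subset_inter sP pY)

end Exi

end SG

end Pool.Agent.Work.MP_8c679b_co
end

-- merged part: Pool.Agent.Work.MP_8c679b_co.ND.Tw5b
section
/-!
The anchor and the rest of the final ring.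
-/

set_option autoImplicit false

namespace Pool.Agent.Work.MP_8c679b_co

open Finset

namespace SG

variable {V E : Type} [Fintype V] [DecidableEq V] [DecidableEq E] {G : SG V E}

variable {T Y K : Finset V} {ρ R : Finset E} {g g' f f' : E}
  {x x' w s t y y' t1 t2 t3 d1 d2 d3 u v : V}

omit [Fintype V] in
theorem tw5b_first (hs : s ∈ Y) (hs' : s ∈ G.vs R) (r : G.Rch (G.ins Y) u s) :
    ∃ k ∈ G.vs R, k ∈ Y ∧ G.Rch (G.ins Y \ R) u k := by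
  induction r using Relation.ReflTransGen.head_induction_on with
  | refl => exact ⟨s, hs', hs, Rch.refl _ _⟩
  | head h1 _ ih =>
    obtain ⟨e, he, hj⟩ := h1
    by_cases q : e ∈ R
    · refine ⟨_, mem_vs.2 ⟨e, q, hj.imp And.left And.right⟩, ?_, Rch.refl _ _⟩
      exact hj.elim (fun k => k.1 ▸ (mem_ins.1 he).2.1) fun k => k.2 ▸ (mem_ins.1 he).2.2
    · obtain ⟨k, a1, a2, a3⟩ := ih
      exact ⟨k, a1, a2, .head ⟨e, mem_sdiff.2 ⟨he, q⟩, hj⟩ a3⟩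

omit [Fintype V] [DecidableEq E] in
theorem tw5b_sep (h : G.Sep Y R u v) (hu : u ∉ G.vs R) (hv : v ∉ G.vs R)
    (r : G.Rch (G.ins (Y \ G.vs R)) u v) : False :=
  (h.resolve_left hu).resolve_left hv r

namespace Exi

variable (i : G.Exi T Y g g' f f' x x' w s t y y')
include i

/-- The anchor.  HINT: `y` reaches `s ∈ vs R` in `ins Y`, so it reaches some `k ∈ vs R ∩ Y` in
`ins Y \ R` (induction on the walk from its head, or `Rch.pth_first`); `F` is `{f}` or `{f} ∪ P`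
(`Rch.jn`, `Jn.union`); `f ∉ R` because `w ∉ vs R`. -/
theorem base (h : G.NCx T) (r : G.EarY T Y R x x') (hg : g ∈ R) :
    ∃ F k, G.BaseY T Y R F w k := by
  have af : G.At f w ∧ G.At f y := ⟨i.jf.imp And.left And.right, i.jf.symm.imp And.left And.right⟩
  obtain ⟨k, a1, a2, a3⟩ := tw5b_first i.ms
    (mem_vs.2 ⟨g, hg, i.jg.symm.imp And.left And.right⟩) (i.cn y i.my s i.ms)
  obtain ⟨F, b1, b2⟩ := ((rch_at (mem_insert_self f _) af.1 af.2).trans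
    (a3.mono (subset_insert f _))).jn fun e => i.nw (e ▸ a2)
  refine ⟨F, k, r.tc, r.cn, a1, a2, i.nw, b2, b1.trans (insert_subset i.mf
    (sdiff_subset.trans (ins_mono i.sub))), b1.trans (insert_subset
      (Cut_tch (ins_sub_A i.mf) af.2 i.my) (sdiff_subset.trans ins_sub_tch)), fun v hv => ?_,
    disjoint_left.2 fun e he q => ?_⟩
  · obtain ⟨e, c1, c2⟩ := mem_vs.1 hv
    rcases mem_insert.1 (b1 c1) with rfl | c3
    · rcases i.jf with ⟨j1, j2⟩ | ⟨j1, j2⟩ <;> rcases c2 with rfl | rfl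
      exacts [.inr j1, .inl (j2 ▸ i.my), .inl (j1 ▸ i.my), .inr j2]
    · have c4 := (mem_ins.1 (mem_sdiff.1 c3).1).2
      exact .inl (c2.elim (· ▸ c4.1) (· ▸ c4.2))
  · rcases mem_insert.1 (b1 he) with rfl | c3
    · exact (r.vf w (mem_vs.2 ⟨e, q, af.1⟩)).elim i.nw fun c => c.elim i.wx i.wx'
    · exact (mem_sdiff.1 c3).2 q

/-- Walks off the final ring leave `Y \ vs R` only at `y'`.  HINT: induction on the walk. -/
theorem leak (hg : g ∈ R) (hg' : g' ∈ R) (hR : R ⊆ ρ) (hw : w ∈ G.vs ρ) (hu : u ∈ Y)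
    (hu' : u ∉ G.vs ρ) (r : G.Rch (G.ins (T \ G.vs ρ)) u v) :
    (y' ∉ G.vs R ∧ G.Rch (G.ins (Y \ G.vs R)) u y') ∨
      (v ∈ Y ∧ v ∉ G.vs R ∧ G.Rch (G.ins (Y \ G.vs R)) u v) := by
  induction r with
  | refl => exact .inr ⟨hu, fun q => hu' (vs_mono hR q), Rch.refl _ _⟩
  | @tail b c _ h2 ih =>
    refine ih.elim .inl fun ⟨a1, a2, a3⟩ => ?_
    obtain ⟨e, he, hj⟩ := h2
    obtain ⟨e1, e2, e3⟩ := mem_ins.1 he
    have nv : ∀ z, G.At e z → z ∉ G.vs ρ := fun z hz =>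
      hz.elim (· ▸ (mem_sdiff.1 e2).2) (· ▸ (mem_sdiff.1 e3).2)
    have ab : G.At e b := hj.imp And.left And.right
    have a4 : c ∉ G.vs R := fun q => nv c (hj.symm.imp And.left And.right) (vs_mono hR q)
    by_cases q : c ∈ Y
    · exact .inr ⟨q, a4, a3.tail
        ⟨e, Cut_je_ins e1 hj (mem_sdiff.2 ⟨a1, a2⟩) (mem_sdiff.2 ⟨q, a4⟩), hj⟩⟩
    · have hc : e ∈ G.cut Y := mem_cut.2 ⟨e1, by
        rcases hj with ⟨rfl, rfl⟩ | ⟨rfl, rfl⟩
        exacts [fun k => q (k.1 a1), fun k => q (k.2 a1)]⟩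
      rcases i.ex e hc (ins_mono sdiff_subset he) with rfl | rfl | rfl | rfl
      · exact absurd (mem_vs.2 ⟨e, hg, ab⟩) a2
      · exact absurd (mem_vs.2 ⟨e, hg', ab⟩) a2
      · exact absurd hw (nv w (i.jf.imp And.left And.right))
      · obtain rfl : y' = b := (eq_ie hc i.my' i.af).trans (eq_ie hc a1 ab).symm
        exact .inl ⟨a2, a3⟩

/-- all terminals in `Y`.  HINT: `leak` from both terminals. -/
theorem good3 (m : G.Trm T Y t1 t2 t3) (m3 : t3 ∈ Y) (hg : g ∈ R) (hg' : g' ∈ R)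
    (s12 : G.Sep Y R t1 t2) (s13 : G.Sep Y R t1 t3) (s23 : G.Sep Y R t2 t3) : G.Rdy2 T R w := by
  intro ρ hR hw a b ha hb ma mb r
  have my : ∀ v, G.Ex T v → v ∈ Y := fun v hv => by
    rcases m.all v hv with rfl | rfl | rfl
    exacts [m.m1, m.m2, m3]
  have na := (mem_sdiff.1 ma).2
  have nb := (mem_sdiff.1 mb).2
  have q : G.Rch (G.ins (Y \ G.vs R)) a b :=
    (i.leak hg hg' hR hw (my a ha) na r).elim (fun c =>
      (i.leak hg hg' hR hw (my b hb) nb r.symm).elim (fun d => c.2.trans d.2.symm)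
        fun d => d.2.2.symm) fun c => c.2.2
  replace na := fun k => na (vs_mono hR k)
  replace nb := fun k => nb (vs_mono hR k)
  rcases m.all a ha with rfl | rfl | rfl <;> rcases m.all b hb with rfl | rfl | rfl
  exacts [rfl, (tw5b_sep s12 na nb q).elim, (tw5b_sep s13 na nb q).elim,
    (tw5b_sep s12 nb na q.symm).elim, rfl, (tw5b_sep s23 na nb q).elim,
    (tw5b_sep s13 nb na q.symm).elim, (tw5b_sep s23 nb na q.symm).elim, rfl]

/-- two terminals in `Y`.  HINT: one of the two connected terminals is `t1` or `t2`; `leak`. -/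
theorem good2 (m : G.Trm T Y t1 t2 t3) (m3 : t3 ∉ Y) (hg : g ∈ R) (hg' : g' ∈ R)
    (s12 : G.Sep Y R t1 t2) (s13 : G.Sep Y R t1 y') (s23 : G.Sep Y R t2 y') : G.Rdy2 T R w := by
  intro ρ hR hw a b ha hb ma mb r
  have key : ∀ u v, u ∈ Y → G.Sep Y R u y' → u ∈ T \ G.vs ρ → G.Rch (G.ins (T \ G.vs ρ)) u v →
      v ∈ Y ∧ v ∉ G.vs R ∧ G.Rch (G.ins (Y \ G.vs R)) u v := fun u v a1 a2 a3 a4 =>
    (i.leak hg hg' hR hw a1 (mem_sdiff.1 a3).2 a4).resolve_left fun c =>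
      tw5b_sep a2 (fun k => (mem_sdiff.1 a3).2 (vs_mono hR k)) c.1 c.2
  have k12 : t1 ∈ T \ G.vs ρ → ¬ G.Rch (G.ins (T \ G.vs ρ)) t1 t2 := fun a3 a4 =>
    tw5b_sep s12 (fun k => (mem_sdiff.1 a3).2 (vs_mono hR k)) (key _ _ m.m1 s13 a3 a4).2.1
      (key _ _ m.m1 s13 a3 a4).2.2
  rcases m.all a ha with rfl | rfl | rfl <;> rcases m.all b hb with rfl | rfl | rfl
  exacts [rfl, absurd r (k12 ma), absurd (key _ _ m.m1 s13 ma r).1 m3, absurd r.symm (k12 mb), rfl,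
    absurd (key _ _ m.m2 s23 ma r).1 m3, absurd (key _ _ m.m1 s13 mb r.symm).1 m3,
    absurd (key _ _ m.m2 s23 mb r.symm).1 m3, rfl]

theorem good (h : G.NCx T) (m : G.Trm T Y t1 t2 t3) (h3 : t3 ∈ Y ∨ y' = s ∨ ¬ G.Ex T y') :
    ∃ R F k, G.EarY T Y R x x' ∧ G.BaseY T Y R F w k ∧ G.Rdy2 T R w := by
  by_cases m3 : t3 ∈ Y
  · obtain ⟨R, r, hg, hg', s12, s13, s23⟩ :=
      i.ear h (i.ne h m) m.m1 m.m2 m3 m.n12 (Or.inl m.n13) (Or.inl m.n23)
    obtain ⟨F, k, bs⟩ := i.base h r hg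
    exact ⟨R, F, k, r, bs, i.good3 m m3 hg hg' s12 s13 s23⟩
  · have h4 := h3.resolve_left m3
    obtain ⟨R, r, hg, hg', s12, s13, s23⟩ := i.ear h (i.ne h m) m.m1 m.m2 i.my' m.n12
      (h4.symm.imp_left fun q e => q (e ▸ m.e1)) (h4.symm.imp_left fun q e => q (e ▸ m.e2))
    obtain ⟨F, k, bs⟩ := i.base h r hg
    exact ⟨R, F, k, r, bs, i.good2 m m3 hg hg' s12 s13 s23⟩

end Exi

end SG

end Pool.Agent.Work.MP_8c679b_co
end
end

-- merged part: Pool.Agent.Work.MP_8c679b_co.ND.Main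
section
-- merged part: Pool.Agent.Work.MP_8c679b_co.ND.Fa
section
/-!
The shape of ears, parts of paths, and a fan of two paths.
-/

set_option autoImplicit false

namespace Pool.Agent.Work.MP_8c679b_co

open Finset

namespace SG

variable {V E : Type} [Fintype V] [DecidableEq V] [DecidableEq E] {G : SG V E}

variable {T M : Finset V} {p : V → ZMod 2} {R Q C S B : Finset E} {a b t u w x x1 x2 : V} {z : E}

omit [Fintype V] [DecidableEq V] [DecidableEq E] in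
theorem ndFa_je {e : E} (ha : G.At e a) (hb : G.At e b) (hab : a ≠ b) : G.Je e a b := by
  rcases ha with rfl | rfl <;> rcases hb with h | h
  exacts [absurd h hab, Or.inl ⟨rfl, h⟩, Or.inr ⟨h, rfl⟩, absurd h hab]

theorem ndFa_vs {n : ℕ} {v : ℕ → V} {g : ℕ → E} (hp : G.Pth S n v g) (h : x ∈ G.vs (pe n g)) :
    ∃ i ≤ n, v i = x := by
  obtain ⟨e, he, k⟩ := mem_vs.1 h
  obtain ⟨i, hi, rfl⟩ := mem_pe.1 he
  rcases (hp.jn i hi).at_iff.1 k with rfl | rfl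
  exacts [⟨i, hi.le, rfl⟩, ⟨i + 1, hi, rfl⟩]

theorem ndFa_jn {n : ℕ} {v : ℕ → V} {g : ℕ → E} (hp : G.Pth S n v g) (hn : 1 ≤ n) :
    G.Jn (pe n g) (v 0) (v n) := by
  refine ⟨fun q => absurd (hp.inj 0 (Nat.zero_le _) n le_rfl q) (by omega), hp.od,
    fun a ha b hb => ?_⟩
  obtain ⟨i, hi, rfl⟩ := ndFa_vs hp ha
  obtain ⟨j, hj, rfl⟩ := ndFa_vs hp hb
  exact hp.rch hi hj

theorem ndFa_last {n : ℕ} {v : ℕ → V} {g : ℕ → E} (hp : G.Pth S n v g) (h : ∀ i < n, v i ∉ M) :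
    ∀ y ∈ G.vs (pe n g), y ∈ M → y = v n := fun y hy k => by
  obtain ⟨i, hi, rfl⟩ := ndFa_vs hp hy
  rcases hi.lt_or_eq with q | rfl
  exacts [absurd k (h i q), rfl]

theorem ndFa_dis {n : ℕ} {v : ℕ → V} {g : ℕ → E} (hp : G.Pth S n v g)
    (h : ∀ i < n, v i ∉ G.vs C) : Disjoint (pe n g) C := disjoint_left.2 fun e he k => by
  obtain ⟨i, hi, rfl⟩ := mem_pe.1 he
  exact h i hi (mem_vs.2 ⟨_, k, (hp.jn i hi).at_iff.2 (Or.inl rfl)⟩)

theorem NCx.ear_one (h : G.NCx T) (r : G.Ear T p z a b R) (ht : ∀ v ∈ G.vs R, ¬ G.Ex T v) :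
    R = {z} ∧ G.Je z a b := by
  have _ := h
  have e : R = {z} := eq_singleton_iff_unique_mem.2 ⟨r.mem, fun e he =>
    (r.edge e he).resolve_right fun ⟨_, y, k1, _, k3⟩ => ht y (mem_vs.2 ⟨e, he, k3⟩) k1⟩
  have j := r.jn
  rw [e] at j
  exact ⟨e, ndFa_je (mem_vs_single.1 j.left_mem) (mem_vs_single.1 j.right_mem) j.1⟩

/-- HINT: `t ≠ a, b` (`ne_d3`).  Every edge of `R` is at `t` (`Ear.edge`; a terminal at `z` is `t`
by `indep'`).  Take the edges of `R` at `a` and at `b`; `at_pair`. -/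
theorem NCx.ear_two (h : G.NCx T) (r : G.Ear T p z a b R) (ht : G.Ex T t) (m : t ∈ G.vs R) :
    ∃ g g', g ≠ g' ∧ R = {g, g'} ∧ G.Je g t a ∧ G.Je g' t b ∧
      ∀ e ∈ G.ins T, G.At e t → e = g ∨ e = g' := by
  have ta := h.ne_d3 ht r.da
  have tb := h.ne_d3 ht r.db
  obtain ⟨-, tz, tR⟩ := ((r.vert t m).resolve_left ta).resolve_left tb
  have all : ∀ e ∈ R, G.At e t := fun e he => by
    rcases r.edge e he with rfl | ⟨-, y, k1, k2, k3⟩
    · exact tz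
    · by_cases q : y = t
      · exact q ▸ k3
      · exact (h.indep' (r.sub r.mem) (ndFa_je k2 tz q) k1 ht).elim
  obtain ⟨g, g1, g2⟩ := mem_vs.1 r.jn.left_mem
  obtain ⟨g', g1', g2'⟩ := mem_vs.1 r.jn.right_mem
  have j := ndFa_je (all g g1) g2 ta
  have ne : g ≠ g' := by
    rintro rfl
    exact (j.at_iff.1 g2').elim tb.symm r.jn.1.symm
  have pr : ∀ e ∈ G.ins T, G.At e t → e = g ∨ e = g' := fun e he k =>
    h.at_pair ht (r.sub g1) (r.sub g1') ne (all g g1) (all g' g1') he k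
  refine ⟨g, g', ne, Subset.antisymm (fun e he => ?_) (insert_subset g1 (singleton_subset_iff.2 g1')),
    j, ndFa_je (all g' g1') g2' tb, pr⟩
  simpa using pr e (r.sub he) (all e he)

/-- a part of a path avoids the other ends.  HINT: `Rch.jn`, `Od.end_of_le`. -/
theorem rch_part (hr : G.Rch Q u w) : ∃ J ⊆ Q, G.Rch J u w ∧
    ∀ m ∈ G.vs J, G.deg Q m ≤ 1 → m = u ∨ m = w := by
  by_cases q : u = w
  · subst q
    exact ⟨∅, empty_subset _, Rch.refl _ _, fun m hm => by simp [vs] at hm⟩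
  · obtain ⟨J, h1, h2⟩ := hr.jn q
    exact ⟨J, h1, h2.2.1.rch, fun m hm k => h2.2.1.end_of_le ((deg_mono h1).trans k) hm⟩

/-- the first vertex in `M`.  HINT: `Rch.pth_first`, `Pth.pp`-like facts, or induction. -/
theorem first_on (e0 : E) (hr : G.Rch B b x) (hx : x ∈ M) :
    ∃ m ∈ M, ∃ J ⊆ B, G.Rch J b m ∧ ∀ v ∈ G.vs J, v ∈ M → v = m := by
  obtain ⟨n, v, g, hp, rfl, h1, h2⟩ := hr.pth_first hx e0
  exact ⟨v n, h1, pe n g, hp.pe_sub, hp.rch (Nat.zero_le _) le_rfl, ndFa_last hp h2⟩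

/-- Two disjoint paths to a circuit.  HINT: `fan_cub` with `k = 2`, `Z = {x1, x2}`,
`B = vs C`; the two paths start at different vertices, since otherwise their first edges agree. -/
theorem fan2 (hc : G.Cub) (hC : C ⊆ G.A) (cC : G.Cc C) (hS : S ⊆ G.A) (hne : x1 ≠ x2)
    (h1 : x1 ∉ G.vs C) (h2 : x2 ∉ G.vs C) (d1 : G.deg S x1 ≤ 1) (d2 : G.deg S x2 ≤ 1)
    (hcut : ∀ X : Finset V, x1 ∈ X → x2 ∈ X → Disjoint X (G.vs C) → 2 ≤ (G.crs S X).card) :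
    ∃ m1 m2 Q1 Q2, Q1 ⊆ S ∧ Q2 ⊆ S ∧ G.Jn Q1 x1 m1 ∧ G.Jn Q2 x2 m2 ∧ m1 ∈ G.vs C ∧ m2 ∈ G.vs C ∧
      Disjoint (G.vs Q1) (G.vs Q2) ∧ (∀ v ∈ G.vs Q1, v ∈ G.vs C → v = m1) ∧
      (∀ v ∈ G.vs Q2, v ∈ G.vs C → v = m2) ∧ Disjoint Q1 C ∧ Disjoint Q2 C := by
  obtain ⟨e0, -⟩ := cC.1
  have nC : ∀ e ∈ G.crs S (G.vs C), e ∉ C := fun e he k =>
    (mem_crs.1 he).2 (iff_of_true (s_mem_vs k) (t_mem_vs k))
  have atx : ∀ y, ∀ e ∈ G.crs S {y}, G.At e y := fun y e he => by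
    by_contra k
    exact (mem_crs.1 he).2 (iff_of_false (fun q => k (Or.inl (mem_singleton.1 q)))
      fun q => k (Or.inr (mem_singleton.1 q)))
  obtain ⟨n, v, g, k1, k2⟩ := fan_cub (G := G) S {x1, x2} (G.vs C) 2 e0 (hc.le3 hS)
    (disjoint_insert_left.2 ⟨h1, disjoint_singleton_left.2 h2⟩)
    (fun y hy => card_le_one.2 fun e he e' he' => third_unique hc hC hy (cC.2.1 y)
      (hS (mem_crs.1 (mem_inter.1 he').1).1) (hS (mem_crs.1 (mem_inter.1 he).1).1)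
      (nC _ (mem_inter.1 he').1) (nC _ (mem_inter.1 he).1) (atx y _ (mem_inter.1 he').2)
      (atx y _ (mem_inter.1 he).2))
    fun X hX hd _ => hcut X (hX (by simp)) (hX (by simp)) hd
  have ne : v 0 0 ≠ v 1 0 := fun q => by
    obtain ⟨p0, n0, s0, -⟩ := k1 0
    obtain ⟨p1, n1, -⟩ := k1 1
    have d : G.deg S (v 0 0) ≤ 1 := by
      rcases mem_insert.1 s0 with s | s
      · rwa [s]
      · rwa [mem_singleton.1 s]
    have j0 := p0.jn 0 n0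
    have j1 := p1.jn 0 n1
    have e := eq_of_deg_le_one d (p0.mem 0 n0) (p1.mem 0 n1) (j0.at_iff.2 (Or.inl rfl))
      (j1.at_iff.2 (Or.inl q))
    rw [e] at j1
    rcases j1.at_iff.1 (j0.at_iff.2 (Or.inr rfl)) with s | s
    · exact absurd (p0.inj _ n0 0 (Nat.zero_le _) (s.trans q.symm)) (by omega)
    · exact k2 0 1 (by decide) 1 one_pos n0 1 one_pos n1 s
  have key : ∀ i j, i ≠ j → v i 0 = x1 → v j 0 = x2 → ∃ m1 m2 Q1 Q2, Q1 ⊆ S ∧ Q2 ⊆ S ∧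
      G.Jn Q1 x1 m1 ∧ G.Jn Q2 x2 m2 ∧ m1 ∈ G.vs C ∧ m2 ∈ G.vs C ∧
      Disjoint (G.vs Q1) (G.vs Q2) ∧ (∀ v ∈ G.vs Q1, v ∈ G.vs C → v = m1) ∧
      (∀ v ∈ G.vs Q2, v ∈ G.vs C → v = m2) ∧ Disjoint Q1 C ∧ Disjoint Q2 C := by
    intro i j hij e1 e2
    obtain ⟨p0, n0, s0, t0, a0, b0⟩ := k1 i
    obtain ⟨p1, n1, s1, t1, a1, b1⟩ := k1 j
    refine ⟨_, _, _, _, p0.pe_sub, p1.pe_sub, e1 ▸ ndFa_jn p0 n0, e2 ▸ ndFa_jn p1 n1, t0, t1,
      disjoint_left.2 fun y y0 y1 => ?_, ndFa_last p0 b0, ndFa_last p1 b1, ndFa_dis p0 b0,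
      ndFa_dis p1 b1⟩
    obtain ⟨l, hl, rfl⟩ := ndFa_vs p0 y0
    obtain ⟨l', hl', q⟩ := ndFa_vs p1 y1
    rcases Nat.eq_zero_or_pos l with rfl | c <;> rcases Nat.eq_zero_or_pos l' with rfl | c'
    · exact hne (e1.symm.trans (q.symm.trans e2))
    · exact a1 l' c' hl' (q ▸ s0)
    · exact a0 l c hl (q ▸ s1)
    · exact k2 i j hij l c hl l' c' hl' q.symm
  have s0 := (k1 0).2.2.1
  have s1 := (k1 1).2.2.1
  simp only [mem_insert, mem_singleton] at s0 s1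
  rcases s0 with s0 | s0 <;> rcases s1 with s1 | s1
  · exact absurd (s0.trans s1.symm) ne
  · exact key 0 1 (by decide) s0 s1
  · exact key 1 0 (by decide) s1 s0
  · exact absurd (s0.trans s1.symm) ne

end SG

end Pool.Agent.Work.MP_8c679b_co
end

-- merged part: Pool.Agent.Work.MP_8c679b_co.ND.TrA
section
/-!
The triangle case.  The ring is `a A1 x A2 b A3 y A4 a`, the ear `R = {z}` joins `a` and `b`, the
ear `R' = {g, g'}` is `x t y`, and `a` is adjacent to the terminals `s1` on `A1`, `s2` on `A4`.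
-/

set_option autoImplicit false

namespace Pool.Agent.Work.MP_8c679b_co

open Finset

namespace SG

variable {V E : Type} [Fintype V] [DecidableEq V] [DecidableEq E] {G : SG V E}

variable {T : Finset V} {p : V → ZMod 2} {H A1 A2 A3 A4 R R' Q1 Q2 : Finset E}
  {a x b y s1 s2 t x2 m1 m2 : V} {z z' e1 e1' g g' : E}

omit [Fintype V] [DecidableEq V] [DecidableEq E] in
private theorem ndTrA_at {e : E} {u v w : V} (j : G.Je e u v) (hw : G.At e w) : w = u ∨ w = v := by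
  rcases j with ⟨h1, h2⟩ | ⟨h1, h2⟩ <;> rcases hw with h | h
  exacts [Or.inl (h.symm.trans h1), Or.inr (h.symm.trans h2), Or.inr (h.symm.trans h1),
    Or.inl (h.symm.trans h2)]

omit [Fintype V] [DecidableEq V] [DecidableEq E] in
private theorem ndTrA_l {e : E} {u v : V} (j : G.Je e u v) : G.At e u :=
  j.elim (fun h => Or.inl h.1) fun h => Or.inr h.2

omit [Fintype V] [DecidableEq V] [DecidableEq E] in
private theorem ndTrA_r {e : E} {u v : V} (j : G.Je e u v) : G.At e v :=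
  j.elim (fun h => Or.inr h.2) fun h => Or.inl h.1

omit [Fintype V] in
private theorem ndTrA_crs {S : Finset E} {X : Finset V} {e : E} {u v : V} (he : e ∈ S)
    (j : G.Je e u v) (hu : u ∈ X) (hv : v ∉ X) : e ∈ G.crs S X := by
  refine mem_crs.2 ⟨he, ?_⟩
  rcases j with ⟨h1, h2⟩ | ⟨h1, h2⟩ <;> rw [h1, h2] <;> tauto

omit [Fintype V] in
private theorem ndTrA_ends {S : Finset E} {X : Finset V} {e : E} (he : e ∈ G.crs S X) :
    ∃ u v, G.Je e u v ∧ u ∈ X ∧ v ∉ X := by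
  have h := (mem_crs.1 he).2
  by_cases h1 : G.s e ∈ X
  · exact ⟨G.s e, G.t e, Or.inl ⟨rfl, rfl⟩, h1, fun h2 => h (iff_of_true h1 h2)⟩
  · exact ⟨G.t e, G.s e, Or.inr ⟨rfl, rfl⟩, by tauto, h1⟩

omit [Fintype V] in
private theorem ndTrA_T {e : E} {u : V} (he : e ∈ G.ins T) (hu : G.At e u) : u ∈ T := by
  rcases hu with rfl | rfl
  exacts [(mem_ins.1 he).2.1, (mem_ins.1 he).2.2]

namespace Cor

variable (k : G.Cor T p H a x b y A1 A2 A3 A4 z z' R R' s1 s2)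
include k

private theorem ndTrA_terms (h : G.NCx T) (ht : G.Ex T t) (mt : t ∈ G.vs R') :
    t ≠ s1 ∧ t ≠ s2 ∧ ∀ v, G.Ex T v → v = s1 ∨ v = s2 ∨ v = t := by
  have q : t ∉ G.vs H := fun m => by
    rcases k.k4.rot.zr h.hc mt m with rfl | rfl
    exacts [k.k4.rot.not_ex h.hc ht, k.k4.rot.rot.rot.not_ex h.hc ht]
  have q1 : t ≠ s1 := fun e => q (e ▸ vs_mono k.k4.s1.1 k.m1)
  have q2 : t ≠ s2 := fun e => q (e ▸ vs_mono k.k4.s1.2.2.2 k.m2)
  obtain ⟨t0, -, -, -, h0⟩ := h.third k.e1 k.e2 (k.sne h.hc).1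
  have q3 : t = t0 := ((h0 t ht).resolve_left q1).resolve_left q2
  exact ⟨q1, q2, q3 ▸ h0⟩

/-- the second edge at `s1`.  HINT: `s1` has degree two in `A1` (`deg2_of_dg`, `sne`). -/
theorem next (h : G.NCx T) (m1 : e1 ∈ A1) (j1 : G.Je e1 a s1) :
    ∃ e1' ∈ A1, ∃ x2, e1' ≠ e1 ∧ G.Je e1' s1 x2 ∧ ∀ e ∈ G.ins T, G.At e s1 → e = e1 ∨ e = e1' := by
  obtain ⟨-, n1, n2, -, -⟩ := k.sne h.hc
  have sA : A1 ⊆ G.ins T := k.k4.s1.1.trans k.k4.sub
  have d2 := deg2_of_dg h.hc (sA.trans ins_sub_A) k.m1 (k.k4.j1.2.1.other n1 n2)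
  have d3 := deg_sdiff (G := G) (v := s1) (singleton_subset_iff.2 m1)
  have d4 : G.deg {e1} s1 ≤ 1 := by
    rw [deg, sum_singleton, inc]
    rcases j1 with ⟨h1, h2⟩ | ⟨h1, h2⟩ <;> simp [iv, h1, h2, n1.symm]
  obtain ⟨e, he, ha⟩ := mem_vs.1 (deg_pos.1 (show 0 < G.deg (A1 \ {e1}) s1 by omega))
  obtain ⟨he1, he2⟩ := mem_sdiff.1 he
  have he3 : e ≠ e1 := fun q => he2 (mem_singleton.2 q)
  have q : ∀ f ∈ G.ins T, G.At f s1 → f = e1 ∨ f = e := fun f hf hf' =>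
    h.at_pair k.e1 (sA m1) (sA he1) he3.symm (ndTrA_r j1) ha hf hf'
  rcases ha with ha | ha
  exacts [⟨e, he1, G.t e, he3, Or.inl ⟨ha, rfl⟩, q⟩, ⟨e, he1, G.s e, he3, Or.inr ⟨rfl, ha⟩, q⟩]

/-- The cut condition.  HINT: replace `X` by `X ∩ T` (`crs_inter`).  Suppose at most one edge of
`S` leaves `X`.  `X' = X \ {t, s1}` has no terminal (`NCx.third`-like: the terminals are `s1`,
`s2`, `t`, and `s2 ∈ vs A4`).  An edge of `ins T` that leaves `X'` is `g`, `e1'` or an edge of `S`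
that leaves `X` (`g'` ends in `t`, `y` and `e1` in `a`, `s1`).  If `X' = ∅` then `g` and `e1'` leave
`X` (`indep'`).  Otherwise `X' = {v}` (`c3`), three edges leave it (`HT.vtx` or `c2`), so `g` and
`e1'` are at `v`, and `x = v = x2`. -/
theorem tri_cut (h : G.NCx T) (ht : G.Ex T t) (mt : t ∈ G.vs R') (hg : g ∈ G.ins T)
    (hg' : g' ∈ G.ins T) (jg : G.Je g t x) (jg' : G.Je g' t y)
    (at' : ∀ e ∈ G.ins T, G.At e t → e = g ∨ e = g') (m1 : e1 ∈ A1) (j1 : G.Je e1 a s1)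
    (m1' : e1' ∈ A1) (ne1 : e1' ≠ e1) (j1' : G.Je e1' s1 x2)
    (as1 : ∀ e ∈ G.ins T, G.At e s1 → e = e1 ∨ e = e1') (hx : x2 ≠ x) (X : Finset V) (h1 : t ∈ X)
    (h2 : s1 ∈ X) (d : Disjoint X (G.vs (A3 ∪ A4 ∪ R))) :
    2 ≤ (G.crs (G.ins T \ {g', e1}) X).card := by
  obtain ⟨ts1, ts2, tm⟩ := k.ndTrA_terms h ht mt
  obtain ⟨-, n1, n2, -, n4⟩ := k.sne h.hc
  have sA : A1 ⊆ G.ins T := k.k4.s1.1.trans k.k4.sub
  have ta : t ≠ a := fun q => k.k4.not_ex h.hc (q ▸ ht)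
  have tx : t ≠ x := fun q => k.k4.rot.not_ex h.hc (q ▸ ht)
  have nX : ∀ v, v ∈ G.vs A3 ∨ v ∈ G.vs A4 → v ∉ X := fun v hv m =>
    disjoint_left.1 d m (by
      rw [vs_union, vs_union]
      exact mem_union_left _ (mem_union.2 hv))
  have ya : y ∉ X := nX y (Or.inl k.k4.j3.right_mem)
  have aa : a ∉ X := nX a (Or.inr k.k4.j4.right_mem)
  have s2X : s2 ∉ X := nX s2 (Or.inr k.m2)
  by_contra hc
  have hc1 : (G.crs (G.ins T \ {g', e1}) X).card ≤ 1 := by omega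
  have mem' : ∀ v, v ∈ (X ∩ T) \ {t, s1} ↔ v ∈ X ∧ v ∈ T ∧ v ≠ t ∧ v ≠ s1 := fun v => by
    simp only [mem_sdiff, mem_inter, mem_insert, mem_singleton, not_or, and_assoc]
  have sub : G.crs (G.ins T) ((X ∩ T) \ {t, s1}) ⊆
      insert g (insert e1' (G.crs (G.ins T \ {g', e1}) X)) := by
    intro e he
    obtain ⟨u, w, j, hu, hw⟩ := ndTrA_ends he
    have heT := (mem_crs.1 he).1
    obtain ⟨u1, -, u3, u4⟩ := (mem' u).1 hu
    have q1 : e ≠ g' := by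
      rintro rfl
      rcases ndTrA_at jg' (ndTrA_l j) with q | q
      exacts [u3 q, ya (q ▸ u1)]
    have q2 : e ≠ e1 := by
      rintro rfl
      rcases ndTrA_at j1 (ndTrA_l j) with q | q
      exacts [aa (q ▸ u1), u4 q]
    by_cases w1 : w = t
    · exact mem_insert.2 (Or.inl ((at' e heT (w1 ▸ ndTrA_r j)).resolve_right q1))
    by_cases w2 : w = s1
    · exact mem_insert_of_mem
        (mem_insert.2 (Or.inl ((as1 e heT (w2 ▸ ndTrA_r j)).resolve_left q2)))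
    refine mem_insert_of_mem (mem_insert_of_mem (ndTrA_crs (mem_sdiff.2 ⟨heT, ?_⟩) j u1
      fun m => hw ((mem' w).2 ⟨m, ndTrA_T heT (ndTrA_r j), w1, w2⟩)))
    simp only [mem_insert, mem_singleton, not_or]
    exact ⟨q1, q2⟩
  rcases ((X ∩ T) \ {t, s1}).eq_empty_or_nonempty with h0 | h0
  · have out : ∀ v ∈ T, v ≠ t → v ≠ s1 → v ∉ X := fun v v1 v2 v3 m =>
      notMem_empty v (h0 ▸ (mem' v).2 ⟨m, v1, v2, v3⟩)
    have c1 : g ∈ G.crs (G.ins T \ {g', e1}) X := by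
      refine ndTrA_crs (mem_sdiff.2 ⟨hg, ?_⟩) jg h1
        (out x (ndTrA_T hg (ndTrA_r jg)) tx.symm n2.symm)
      simp only [mem_insert, mem_singleton, not_or]
      constructor
      · rintro rfl
        rcases ndTrA_at jg' (ndTrA_r jg) with q | q
        exacts [tx q.symm, k.k4.ne.2.2.2.2.1 q]
      · rintro rfl
        rcases ndTrA_at j1 (ndTrA_l jg) with q | q
        exacts [ta q, ts1 q]
    have c2 : e1' ∈ G.crs (G.ins T \ {g', e1}) X := by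
      refine ndTrA_crs (mem_sdiff.2 ⟨sA m1', ?_⟩) j1' h2
        (out x2 (ndTrA_T (sA m1') (ndTrA_r j1')) ?_ ?_)
      · simp only [mem_insert, mem_singleton, not_or]
        refine ⟨?_, ne1⟩
        rintro rfl
        rcases ndTrA_at jg' (ndTrA_l j1') with q | q
        exacts [ts1 q.symm, n4 q]
      · rintro rfl
        exact h.indep' (sA m1') j1' k.e1 ht
      · rintro rfl
        refine h.no_loop (sA m1') ?_
        rcases j1' with ⟨q1, q2⟩ | ⟨q1, q2⟩ <;> rw [q1, q2]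
    have c3 : g = e1' := card_le_one.1 hc1 _ c1 _ c2
    subst c3
    rcases ndTrA_at jg (ndTrA_l j1') with q | q
    exacts [ts1 q.symm, n2 q]
  · have nt : ∀ v ∈ (X ∩ T) \ {t, s1}, ¬ G.Ex T v := fun v hv ex => by
      obtain ⟨v1, -, v3, v4⟩ := (mem' v).1 hv
      rcases tm v ex with q | q | q
      exacts [v4 q, s2X (q ▸ v1), v3 q]
    have sT : (X ∩ T) \ {t, s1} ⊆ T := sdiff_subset.trans inter_subset_right
    have b3 := (card_le_card sub).trans ((card_insert_le _ _).trans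
      (Nat.succ_le_succ (card_insert_le _ _)))
    obtain ⟨v, hv⟩ := card_eq_one.1 (h.c3 sT h0 nt (by omega))
    have hv0 := (mem' v).1 (hv ▸ mem_singleton_self v)
    have big : ¬ (G.crs (G.ins T) ((X ∩ T) \ {t, s1})).card ≤ 2 := fun b => by
      have tn : t ∉ (X ∩ T) \ {t, s1} := fun m => ((mem' t).1 m).2.2.1 rfl
      have sn : s1 ∉ (X ∩ T) \ {t, s1} := fun m => ((mem' s1).1 m).2.2.2 rfl
      rcases h.c2 sT h0 (fun q => tn (q.symm ▸ ht.1)) b with ⟨u, u1, u2⟩ | ⟨u, -, u2⟩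
      · exact nt u (u2 ▸ mem_singleton_self u) u1
      · have q1 := mem_singleton.1 (u2 ▸ mem_sdiff.2 ⟨ht.1, tn⟩ : t ∈ ({u} : Finset V))
        have q2 := mem_singleton.1 (u2 ▸ mem_sdiff.2 ⟨k.e1.1, sn⟩ : s1 ∈ ({u} : Finset V))
        exact ts1 (q1.trans q2.symm)
    have c1 : g ∈ G.crs (G.ins T) ((X ∩ T) \ {t, s1}) := by
      by_contra q
      have := (card_le_card ((subset_insert_iff_of_notMem q).1 sub)).trans (card_insert_le _ _)
      exact big (by omega)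
    have c2 : e1' ∈ G.crs (G.ins T) ((X ∩ T) \ {t, s1}) := by
      by_contra q
      rw [Finset.insert_comm] at sub
      have := (card_le_card ((subset_insert_iff_of_notMem q).1 sub)).trans (card_insert_le _ _)
      exact big (by omega)
    rw [hv] at c1 c2
    obtain ⟨u, w, j, hu, -⟩ := ndTrA_ends c1
    obtain ⟨u', w', j', hu', -⟩ := ndTrA_ends c2
    rw [mem_singleton] at hu hu'
    subst hu
    subst hu'
    exact hx (((ndTrA_at j1' (ndTrA_l j')).resolve_left hv0.2.2.2).symm.trans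
      ((ndTrA_at jg (ndTrA_l j)).resolve_left hv0.2.2.1))

/-- the way from a vertex of the odd circuit to `y`.  HINT: `nd_inner` for the arc `A3 ∪ A4`. -/
theorem seg (h : G.NCx T) (hR : G.Tf T R) {m : V} (hm : m ∈ G.vs (A3 ∪ A4 ∪ R)) (h1 : m ≠ a)
    (h2 : m ≠ b) : ∃ J ⊆ A3 ∪ A4, G.Rch J m y ∧ a ∉ G.vs J ∧ b ∉ G.vs J := by
  obtain ⟨r1, r2⟩ := h.ear_one k.r hR
  rw [vs_union, mem_union] at hm
  have hm' : m ∈ G.vs (A3 ∪ A4) := hm.resolve_right fun q => by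
    obtain ⟨e, he, ha⟩ := mem_vs.1 q
    rw [r1, mem_singleton] at he
    subst he
    exact (ndTrA_at r2 ha).elim h1 h2
  by_cases hy : m = y
  · subst hy
    exact ⟨∅, empty_subset _, Rch.refl _ _, by simp [vs], by simp [vs]⟩
  obtain ⟨-, n2, n3, -, -, n6⟩ := k.k4.ne
  obtain ⟨J, s, j, q⟩ := nd_inner h.hc k.k4.subA k.k4.cc.1
    (union_subset k.k4.s1.2.2.1 k.k4.s1.2.2.2) (k.k4.j3.union k.k4.j4 k.k4.d34 n2.symm) hm'
    (vs_mono subset_union_left k.k4.j3.right_mem) hy ⟨h2, h1⟩ ⟨n6.symm, n3.symm⟩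
  exact ⟨J, s, j.2.2 _ j.left_mem _ j.right_mem, fun m => (q a m).2 rfl, fun m => (q b m).1 rfl⟩

/-- the first ear has no terminal if the third terminal lies on the second one -/
theorem tfR (h : G.NCx T) (ht : G.Ex T t) (mt : t ∈ G.vs R') : G.Tf T R := by
  intro v hv ex
  obtain ⟨-, n1, -, n3, -⟩ := k.sne h.hc
  obtain ⟨-, n1', -, n3', -⟩ := k.flip.sne h.hc
  rcases (k.ndTrA_terms h ht mt).2.2 v ex with rfl | rfl | rfl
  · exact (k.k4.zr h.hc hv (vs_mono k.k4.s1.1 k.m1)).elim n1 n3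
  · exact (k.k4.zr h.hc hv (vs_mono k.k4.s1.2.2.2 k.m2)).elim n1' n3'
  · exact disjoint_left.1 k.k4.dzz hv mt

end Cor

end SG

end Pool.Agent.Work.MP_8c679b_co
end

-- merged part: Pool.Agent.Work.MP_8c679b_co.ND.Tr
section
/-!
The triangle case.  The ring is `a A1 x A2 b A3 y A4 a`, the ear `R = {z}` joins `a` and `b`, the
ear `R' = {g, g'}` is `x t y`, and `a` is adjacent to the terminals `s1` on `A1`, `s2` on `A4`.
-/

set_option autoImplicit false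

namespace Pool.Agent.Work.MP_8c679b_co

open Finset

namespace SG

variable {V E : Type} [Fintype V] [DecidableEq V] [DecidableEq E] {G : SG V E}

variable {T : Finset V} {p : V → ZMod 2} {H A1 A2 A3 A4 R R' Q1 Q2 : Finset E}
  {a x b y s1 s2 t x2 m1 m2 : V} {z z' e1 e1' g g' : E}

theorem ndTr_edge {e : E} {u v w : V} (j : G.Je e u v) (h : w ∈ G.vs {e}) : w = u ∨ w = v := by
  obtain ⟨e', h1, h2⟩ := mem_vs.1 h
  rw [mem_singleton.1 h1] at h2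
  exact j.at_iff.1 h2

theorem ndTr_rch {e : E} {u v : V} (j : G.Je e u v) : G.Rch {e} u v :=
  rch_at (mem_singleton_self e) (j.at_iff.2 (Or.inl rfl)) (j.at_iff.2 (Or.inr rfl))

theorem ndTr_deg (h : G.NCx T) {v : V} {e : E} {D : Finset E} (hv : G.Ex T v) (he : e ∈ G.ins T)
    (ha : G.At e v) (hD : e ∈ D) : G.deg (G.ins T \ D) v ≤ 1 := by
  have h1 := deg_sdiff (G := G) (v := v) (singleton_subset_iff.2 he)
  have h2 : 0 < G.deg {e} v := deg_pos.2 (mem_vs.2 ⟨e, mem_singleton_self e, ha⟩)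
  have h3 : G.deg (G.ins T \ D) v ≤ G.deg (G.ins T \ {e}) v :=
    deg_mono (sdiff_subset_sdiff Subset.rfl (singleton_subset_iff.2 hD))
  have h4 := h.deg_ex hv
  omega

namespace Cor

variable (k : G.Cor T p H a x b y A1 A2 A3 A4 z z' R R' s1 s2)
include k

theorem ndTr_t (h : G.NCx T) (ht : G.Ex T t) (mt : t ∈ G.vs R') : t ∉ G.vs H := fun m =>
  (k.k4.rot.zr h.hc mt m).elim (h.ne_d3 ht k.r'.da) (h.ne_d3 ht k.r'.db)

theorem ndTr_s (h : G.NCx T) : s1 ∉ G.vs (A3 ∪ A4 ∪ R) := fun m =>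
  (k.sne h.hc).2.1 (ndK2_A1 h.hc k.k4.mir k.m1 (by rwa [union_comm A4 A3]))

/-- The two paths.  HINT: `C0 = A3 ∪ A4 ∪ R` (`k.k4.rot.rot.odd`).  `m1, m2 ≠ a`: the edges at `a`
are `e1` and two edges of `C0` (`K4.full`; `A1` has one edge at `a`).  Edges of `Q1`, `Q2` that are
not at `t` are positive (`neg`; `z ∈ R`, `z' ∈ R'` is at `t`).  `x ∈ vs Q1` (the edge of `Q1` at
`t` is `g`), `x ≠ t`, and `t`, `m1` have degree at most one in `Q1`, `m2` in `Q2` (`deg_third`).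
`vs A2` meets `vs C0` only in `b`.  `first_on` along `A2` from `b` to `vs Q1 ∪ vs Q2` gives `m`, `Jb`.
Case `m ∈ vs Q2`: `m1 ≠ b`.  `J ⊆ {e1} ∪ J2 ∪ Jb` from `a` to `b` with `J2 = rch_part` from `s1` to
`m` (it meets `vs C0` only in `m`), `J' ⊆ J1 ∪ seg m1` from `x` to `y` with `J1 = rch_part` from `x`
to `m1`; `nolink`.
Case `m ∈ vs Q1`: `m2 ≠ b`, `m ≠ t`.  `P ⊆ {e1} ∪ Q2 ∪ seg m2` from `a` to `y`, `P' ⊆ J1 ∪ Jb` from `b`
to `x` with `J1 = rch_part` from `x` to `m`.  `P` contains `e1` (the only edge at `a`), then `e1'`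
(`s1` has even degree), so `x2 ∈ vs P`.  `cp3` with the links `vs A3` and `vs (A1 \ {e1, e1'})`
(`Cc.jn`, `Od.sdiff`: it joins `x2` and `x`; `cn_vs`, `t1`, `K4.opp`). -/
theorem tri_link (h : G.NCx T) (hR : G.Tf T R) (ht : G.Ex T t) (mt : t ∈ G.vs R')
    (jg : G.Je g t x) (jg' : G.Je g' t y) (at' : ∀ e ∈ G.ins T, G.At e t → e = g ∨ e = g')
    (n1 : e1 ∈ A1) (j1 : G.Je e1 a s1) (n1' : e1' ∈ A1) (ne1 : e1' ≠ e1) (j1' : G.Je e1' s1 x2)
    (as1 : ∀ e ∈ G.ins T, G.At e s1 → e = e1 ∨ e = e1') (hx : x2 ≠ x)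
    (q1 : Q1 ⊆ G.ins T \ {g', e1}) (q2 : Q2 ⊆ G.ins T \ {g', e1}) (l1 : G.Jn Q1 t m1)
    (l2 : G.Jn Q2 s1 m2) (c1 : m1 ∈ G.vs (A3 ∪ A4 ∪ R)) (c2 : m2 ∈ G.vs (A3 ∪ A4 ∪ R))
    (d : Disjoint (G.vs Q1) (G.vs Q2)) (v1 : ∀ v ∈ G.vs Q1, v ∈ G.vs (A3 ∪ A4 ∪ R) → v = m1)
    (v2 : ∀ v ∈ G.vs Q2, v ∈ G.vs (A3 ∪ A4 ∪ R) → v = m2) (d1 : Disjoint Q1 (A3 ∪ A4 ∪ R))
    (d2 : Disjoint Q2 (A3 ∪ A4 ∪ R)) : G.Kpa T := by
  have hc := h.hc
  have k4 := k.k4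
  obtain ⟨cC, -, sC⟩ := k4.rot.rot.odd
  have sCA := sC.trans ins_sub_A
  obtain ⟨s1H, s2H, s3H, s4H⟩ := k4.s1
  obtain ⟨nax, nab, nay, nxb, nxy, nby⟩ := k4.ne
  obtain ⟨-, nsa, -, -, nsy⟩ := k.sne hc
  have hI : H ⊆ G.ins T := k4.sub
  have aQ : ∀ Q ⊆ G.ins T \ {g', e1}, Disjoint Q (A3 ∪ A4 ∪ R) → a ∉ G.vs Q := by
    intro Q q dq ha
    obtain ⟨e, he, hea⟩ := mem_vs.1 ha
    have h1 := mem_sdiff.1 (q he)
    rcases k4.full hc (ins_sub_A h1.1) hea with h2 | h2 | h2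
    · have h3 := eq_of_deg_le_one (k4.cc.1.deg_end hc k4.subA s1H k4.j1).le n1 h2
        (j1.at_iff.2 (Or.inl rfl)) hea
      exact h1.2 (by simp [h3])
    · exact disjoint_left.1 dq he (by simp [h2])
    · exact disjoint_left.1 dq he (by simp [h2])
  have aQ1 := aQ Q1 q1 d1
  have aQ2 := aQ Q2 q2 d2
  have ntx : t ≠ x := h.ne_d3 ht k.r'.da
  have zt : G.At z' t := by
    rcases k.r'.vert t mt with h1 | h1 | h1
    · exact absurd h1 ntx
    · exact absurd h1 (h.ne_d3 ht k.r'.db)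
    · exact h1.2.1
  have pos : ∀ Q ⊆ G.ins T \ {g', e1}, Disjoint Q (A3 ∪ A4 ∪ R) → t ∉ G.vs Q →
      Q ⊆ G.sg p 0 T := by
    intro Q q dq hq e he
    have h1 := (mem_sdiff.1 (q he)).1
    rcases z2 (G.sw p e) with h2 | h2
    · exact mem_sg.2 ⟨h1, h2⟩
    · rcases k.neg e (mem_sg.2 ⟨h1, h2⟩) with rfl | rfl
      · exact absurd (mem_union_right _ k.r.mem) (disjoint_left.1 dq he)
      · exact absurd (mem_vs.2 ⟨_, he, zt⟩) hq
  have dd : ∀ {v}, v ∈ G.vs Q1 → v ∈ G.vs Q2 → False := fun h1 h2 => disjoint_left.1 d h1 h2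
  have pQ2 := pos Q2 q2 d2 (dd l1.left_mem)
  have xQ : x ∈ G.vs Q1 := by
    obtain ⟨e, he, het⟩ := mem_vs.1 l1.left_mem
    have h1 := mem_sdiff.1 (q1 he)
    rcases at' e h1.1 het with rfl | rfl
    · exact mem_vs.2 ⟨e, he, jg.at_iff.2 (Or.inr rfl)⟩
    · exact absurd (mem_insert_self _ _) h1.2
  have dt : G.deg Q1 t ≤ 1 := by
    have h1 := dg_eq_one.1 (l1.2.1.left l1.1)
    have h2 : G.deg Q1 t ≤ G.deg (G.ins T) t := deg_mono (q1.trans sdiff_subset)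
    rw [h.deg_ex ht] at h2
    obtain ⟨n, hn⟩ := h1
    omega
  have dm : ∀ Q ⊆ G.ins T \ {g', e1}, Disjoint Q (A3 ∪ A4 ∪ R) → ∀ v ∈ G.vs (A3 ∪ A4 ∪ R),
      G.deg Q v ≤ 1 := fun Q q dq v hv =>
    (deg_mono (subset_sdiff.2 ⟨q.trans (sdiff_subset.trans ins_sub_A), dq⟩)).trans
      (deg_third hc sCA hv (cC.2.1 v)).le
  have hA2 : ∀ {v}, v ∈ G.vs A2 → v ∈ G.vs (A3 ∪ A4 ∪ R) → v = b := ndK2_A1 hc k4.rot
  have aC : a ∈ G.vs (A3 ∪ A4 ∪ R) := vs_mono subset_union_right k4.jz.left_mem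
  obtain ⟨m, hm, Jb, sJb, rJb, fJb⟩ := first_on (M := G.vs Q1 ∪ G.vs Q2) e1
    k4.j2.2.1.rch.symm (mem_union_left _ xQ)
  have hb : b ∈ G.vs Q1 ∪ G.vs Q2 → b = m := fun h1 => by
    by_contra h2
    exact h2 (fJb b (rJb.mem_vs h2) h1)
  have mA : m ∈ G.vs A2 := by
    by_cases h1 : m = b
    · rw [h1]
      exact k4.j2.right_mem
    · exact vs_mono sJb (rJb.symm.mem_vs h1)
  have pe : ({e1} : Finset E) ⊆ G.sg p 0 T := singleton_subset_iff.2 (k.hp (s1H n1))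
  have pJb : Jb ⊆ G.sg p 0 T := sJb.trans (s2H.trans k.hp)
  have p34 : A3 ∪ A4 ⊆ G.sg p 0 T := (union_subset s3H s4H).trans k.hp
  have part : ∀ w ∈ G.vs Q1, w ≠ t → ∃ J ⊆ Q1, J ⊆ G.sg p 0 T ∧ G.Rch J x w ∧
      ∀ v ∈ G.vs J, G.deg Q1 v ≤ 1 → v = x ∨ v = w := by
    intro w hw hwt
    obtain ⟨J, sJ, rJ, fJ⟩ := rch_part (l1.2.2 x xQ w hw)
    refine ⟨J, sJ, pos J (sJ.trans q1) (d1.mono_left sJ) fun h1 => ?_, rJ, fJ⟩
    exact (fJ t h1 dt).elim ntx hwt.symm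
  rcases mem_union.1 hm with hm | hm
  · have nb : m2 ≠ b := fun h1 =>
      dd hm (hb (mem_union_right _ (h1 ▸ l2.right_mem)) ▸ h1 ▸ l2.right_mem)
    have nmt : m ≠ t := fun h1 => k.ndTr_t h ht mt (h1 ▸ vs_mono s2H mA)
    obtain ⟨Js, sJs, rJs, aJs, bJs⟩ := k.seg h hR c2 (fun h1 => aQ2 (h1 ▸ l2.right_mem)) nb
    have sC' : G.vs Js ⊆ G.vs (A3 ∪ A4 ∪ R) := vs_mono (sJs.trans subset_union_left)
    obtain ⟨J1, sJ1, pJ1, rJ1, fJ1⟩ := part m hm nmt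
    have r1 : G.Rch ({e1} ∪ Q2 ∪ Js) a y :=
      (((ndTr_rch j1).mono subset_union_left).trans (l2.2.1.rch.mono subset_union_right)).mono
        subset_union_left |>.trans (rJs.mono subset_union_right)
    have r2 : G.Rch (Jb ∪ J1) b x :=
      (rJb.mono subset_union_left).trans (rJ1.symm.mono subset_union_right)
    obtain ⟨P, sP, jP⟩ := r1.jn nay
    obtain ⟨P', sP', jP'⟩ := r2.jn nxb.symm
    have pP : P ⊆ G.sg p 0 T := sP.trans (union_subset (union_subset pe pQ2) (sJs.trans p34))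
    have pP' : P' ⊆ G.sg p 0 T := sP'.trans (union_subset pJb pJ1)
    have dP : Disjoint (G.vs P) (G.vs P') := by
      refine disjoint_left.2 fun v h1 h2 => ?_
      have h3 := vs_mono sP h1
      have h4 := vs_mono sP' h2
      have h5 : v ∈ G.vs Q2 → False := fun h5 => by
        rw [vs_union, mem_union] at h4
        rcases h4 with h4 | h4
        · exact dd hm (fJb v h4 (mem_union_right _ h5) ▸ h5)
        · exact dd (vs_mono sJ1 h4) h5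
      rw [vs_union, vs_union, mem_union, mem_union] at h3
      rw [vs_union, mem_union] at h4
      rcases h3 with (h3 | h3) | h3
      · rcases ndTr_edge j1 h3 with rfl | rfl
        · exact h4.elim (fun h4 => nab (hA2 (vs_mono sJb h4) aC)) fun h4 => aQ1 (vs_mono sJ1 h4)
        · exact h5 l2.left_mem
      · exact h5 h3
      · rcases h4 with h4 | h4
        · exact bJs (hA2 (vs_mono sJb h4) (sC' h3) ▸ h3)
        · rcases fJ1 v h4 (dm Q1 q1 d1 v (sC' h3)) with rfl | rfl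
          · exact nxb (hA2 k4.j2.left_mem (sC' h3))
          · exact bJs (hA2 mA (sC' h3) ▸ h3)
    have eP : e1 ∈ P := by
      obtain ⟨e, he, hea⟩ := mem_vs.1 jP.left_mem
      have h3 := sP he
      rw [mem_union, mem_union, mem_singleton] at h3
      rcases h3 with (rfl | h3) | h3
      · exact he
      · exact absurd (mem_vs.2 ⟨e, h3, hea⟩) aQ2
      · exact absurd (mem_vs.2 ⟨e, h3, hea⟩) aJs
    have eP' : e1' ∈ P := by
      have h1 := deg2_of_dg hc (pP.trans (sg_sub.trans ins_sub_A))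
        (mem_vs.2 ⟨e1, eP, j1.at_iff.2 (Or.inr rfl)⟩) (jP.2.1.other nsa nsy)
      exact mem_of_deg_le (pP.trans sg_sub) (by rw [h1, h.deg_ex k.e1]) (hI (s1H n1'))
        (j1'.at_iff.2 (Or.inl rfl))
    have oD : G.Od ({e1} ∪ {e1'}) a x2 :=
      (od_edge j1).union (od_edge j1') (disjoint_singleton.2 ne1.symm)
    have jB : G.Jn (A1 \ ({e1} ∪ {e1'})) x2 x := k4.cc.1.jn hc k4.subA (sdiff_subset.trans s1H)
      (k4.j1.2.1.sdiff oD (union_subset (singleton_subset_iff.2 n1) (singleton_subset_iff.2 n1'))) hx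
    have l : G.Lnk T p (G.vs A3) P P' :=
      ⟨(vs_mono s3H).trans k4.vs_sub, k.flip.tf2 hc, cn_vs (s3H.trans k.hp) k4.j3.2.2,
        ⟨y, k4.j3.right_mem, jP.right_mem⟩, ⟨b, k4.j3.left_mem, jP'.left_mem⟩⟩
    have l' : G.Lnk T p (G.vs (A1 \ ({e1} ∪ {e1'}))) P P' := by
      refine ⟨(vs_mono (sdiff_subset.trans s1H)).trans k4.vs_sub, fun v hv he => ?_,
        cn_vs (sdiff_subset.trans (s1H.trans k.hp)) jB.2.2,
        ⟨x2, jB.left_mem, mem_vs.2 ⟨e1', eP', j1'.at_iff.2 (Or.inr rfl)⟩⟩,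
        ⟨x, jB.right_mem, jP'.right_mem⟩⟩
      obtain rfl := k.t1 hc he (vs_mono sdiff_subset hv)
      obtain ⟨e, h1, h2⟩ := mem_vs.1 hv
      have h3 := mem_sdiff.1 h1
      rcases as1 e (hI (s1H h3.1)) h2 with rfl | rfl
      · exact h3.2 (by simp)
      · exact h3.2 (by simp)
    exact cp3 h k.hm k.r k.r' k.ne pP pP' jP jP' dP l l'
      ((k4.opp hc).symm.mono_right (vs_mono sdiff_subset))
  · exfalso
    have nb : m1 ≠ b := fun h1 =>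
      dd (hb (mem_union_left _ (h1 ▸ l1.right_mem)) ▸ h1 ▸ l1.right_mem) hm
    obtain ⟨Js, sJs, rJs, aJs, bJs⟩ := k.seg h hR c1 (fun h1 => aQ1 (h1 ▸ l1.right_mem)) nb
    have sC' : G.vs Js ⊆ G.vs (A3 ∪ A4 ∪ R) := vs_mono (sJs.trans subset_union_left)
    obtain ⟨J1, sJ1, pJ1, rJ1, -⟩ := part m1 l1.right_mem l1.1.symm
    obtain ⟨J2, sJ2, rJ2, fJ2⟩ := rch_part (l2.2.2 s1 l2.left_mem m hm)
    have r1 : G.Rch ({e1} ∪ J2 ∪ Jb) a b :=
      (((ndTr_rch j1).mono subset_union_left).trans (rJ2.mono subset_union_right)).mono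
        subset_union_left |>.trans (rJb.symm.mono subset_union_right)
    have r2 : G.Rch (J1 ∪ Js) x y :=
      (rJ1.mono subset_union_left).trans (rJs.mono subset_union_right)
    obtain ⟨P, sP, jP⟩ := r1.jn nab
    obtain ⟨P', sP', jP'⟩ := r2.jn nxy
    refine h.nolink k.hm k.r k.r' k.ne
      (sP.trans (union_subset (union_subset pe (sJ2.trans pQ2)) pJb)) jP
      (sP'.trans (union_subset pJ1 (sJs.trans p34))) jP' (disjoint_left.2 fun v h1 h2 => ?_)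
    have h3 := vs_mono sP h1
    have h4 := vs_mono sP' h2
    rw [vs_union, vs_union, mem_union, mem_union] at h3
    rw [vs_union, mem_union] at h4
    rcases h4 with h4 | h4
    · have h5 := vs_mono sJ1 h4
      rcases h3 with (h3 | h3) | h3
      · rcases ndTr_edge j1 h3 with rfl | rfl
        · exact aQ1 h5
        · exact dd h5 l2.left_mem
      · exact dd h5 (vs_mono sJ2 h3)
      · exact dd h5 (fJb v h3 (mem_union_left _ h5) ▸ hm)
    · rcases h3 with (h3 | h3) | h3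
      · rcases ndTr_edge j1 h3 with rfl | rfl
        · exact aJs h4
        · exact k.ndTr_s h (sC' h4)
      · rcases fJ2 v h3 (dm Q2 q2 d2 v (sC' h4)) with rfl | rfl
        · exact k.ndTr_s h (sC' h4)
        · exact bJs (hA2 mA (sC' h4) ▸ h4)
      · exact bJs (hA2 (vs_mono sJb h3) (sC' h4) ▸ h4)

/-- HINT: `ear_two`, `next`, `fan2` with `x1 = t`, `x2 = s1`, `tri_cut`, `tri_link`. -/
theorem tri_half (h : G.NCx T) (ht : G.Ex T t) (mt : t ∈ G.vs R') (m1 : e1 ∈ A1)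
    (j1 : G.Je e1 a s1) : G.Kpa T ∨ ∃ e ∈ A1, G.Je e s1 x := by
  obtain ⟨g, g', -, eR, jg, jg', at'⟩ := h.ear_two k.r' ht mt
  obtain ⟨e1', n1', x2, ne1, j1', as1⟩ := k.next h m1 j1
  by_cases hx : x2 = x
  · exact Or.inr ⟨e1', n1', by rwa [hx] at j1'⟩
  left
  have hR := k.tfR h ht mt
  obtain ⟨cC, -, sC⟩ := k.k4.rot.rot.odd
  obtain ⟨s1H, -, s3H, s4H⟩ := k.k4.s1
  have hg : g ∈ G.ins T := k.r'.sub (by simp [eR])
  have hg' : g' ∈ G.ins T := k.r'.sub (by simp [eR])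
  have tH := k.ndTr_t h ht mt
  have tC : t ∉ G.vs (A3 ∪ A4 ∪ R) := fun m => by
    rw [vs_union, mem_union] at m
    exact m.elim (fun m => tH (vs_mono (union_subset s3H s4H) m)) fun m => hR t m ht
  obtain ⟨n1, n2, Q1, Q2, q1, q2, l1, l2, c1, c2, d, v1, v2, d1, d2⟩ :=
    fan2 (S := G.ins T \ {g', e1}) h.hc (sC.trans ins_sub_A) cC (sdiff_subset.trans ins_sub_A)
      (fun e : t = s1 => tH (e ▸ vs_mono s1H k.m1)) tC (k.ndTr_s h)
      (ndTr_deg h ht hg' (jg'.at_iff.2 (Or.inl rfl)) (by simp))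
      (ndTr_deg h k.e1 (k.k4.sub (s1H m1)) (j1.at_iff.2 (Or.inr rfl)) (by simp))
      (k.tri_cut h ht mt hg hg' jg jg' at' m1 j1 n1' ne1 j1' as1 hx)
  exact k.tri_link h hR ht mt jg jg' at' m1 j1 n1' ne1 j1' as1 hx q1 q2 l1 l2 c1 c2 d v1 v2 d1 d2

end Cor

end SG

end Pool.Agent.Work.MP_8c679b_co
end

-- merged part: Pool.Agent.Work.MP_8c679b_co.ND.Cb
section
/-!
The star and the cube.
-/

set_option autoImplicit false

namespace Pool.Agent.Work.MP_8c679b_co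

open Finset

namespace SG

variable {V E : Type} [Fintype V] [DecidableEq V] [DecidableEq E] {G : SG V E}

variable {T X : Finset V} {p : V → ZMod 2} {H A1 A2 A3 A4 R R' D : Finset E}
  {a x b y s1 s2 t v : V} {z z' e1 e2 e3 e4 : E}

/-- HINT: `deg_sum`, `cut_eq`; all edges of `cut T` are in `cut X`; `cge4`. -/
theorem NCx.cnt (h : G.NCx T) (hX : X ⊆ T) (ht : ∀ v, G.Ex T v → v ∈ X) (hD : D ⊆ G.ins X)
    (hn : 3 * X.card ≤ 2 * D.card + 6) : (T \ X).card ≤ 1 := by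
  by_contra n
  have k1 := h.cge4 hX (by omega) ht
  have k2 : G.cut T ∩ G.cut X = G.cut T := inter_eq_left.2 fun e he => by
    obtain ⟨u, p1, p2⟩ := cut_end he
    exact (cut_of_sub hX he (Cut_tch (mem_cut.1 he).1 p2 (ht u ⟨p1, e, he, p2⟩))).1
  have k3 := (h.cut_eq hX).1
  have k4 := deg_sum h.hc (hX.trans h.hT.act)
  have k5 := card_le_card hD
  rw [k2, h.h3] at k3
  omega

theorem ndCb_all (h : G.NCx T) (h1 : G.Ex T s1) (h2 : G.Ex T s2) (h3 : G.Ex T t) (n1 : s1 ≠ s2)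
    (n2 : s1 ≠ t) (n3 : s2 ≠ t) (hv : G.Ex T v) : v = s1 ∨ v = s2 ∨ v = t := by
  obtain ⟨u, -, -, -, k⟩ := h.third h1 h2 n1
  rw [((k t h3).resolve_left n2.symm).resolve_left n3.symm]
  exact k v hv

/-- a vertex adjacent to all terminals.  HINT: `cnt` with `X = {v, s1, s2, t}`; `v` is no terminal
(`indep'`). -/
theorem NCx.star (h : G.NCx T) (h1 : G.Ex T s1) (h2 : G.Ex T s2) (h3 : G.Ex T t) (n1 : s1 ≠ s2)
    (n2 : s1 ≠ t) (n3 : s2 ≠ t) (m1 : e1 ∈ G.ins T) (m2 : e2 ∈ G.ins T) (m3 : e3 ∈ G.ins T)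
    (j1 : G.Je e1 v s1) (j2 : G.Je e2 v s2) (j3 : G.Je e3 v t) : (T \ {v, s1, s2, t}).card ≤ 1 := by
  have nv : ¬ G.Ex T v := fun k => h.indep' m1 j1 k h1
  have a1 : s1 ≠ v := fun k => nv (k ▸ h1)
  have a2 : s2 ≠ v := fun k => nv (k ▸ h2)
  have hv : v ∈ T := ((Pth_ends j1).1 (mem_ins.1 m1).2).1
  refine h.cnt (D := {e1, e2, e3}) (insert_subset hv (insert_subset h1.1 (Cut_pair h2.1 h3.1)))
    (fun u hu => ?_) (insert_subset (Cut_je_ins (ins_sub_A m1) j1 (by simp) (by simp))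
      (insert_subset (Cut_je_ins (ins_sub_A m2) j2 (by simp) (by simp))
        (singleton_subset_iff.2 (Cut_je_ins (ins_sub_A m3) j3 (by simp) (by simp))))) ?_
  · rcases ndCb_all h h1 h2 h3 n1 n2 n3 hu with rfl | rfl | rfl <;> simp
  · rw [card_eq_three.2 ⟨e1, e2, e3, Cut_je_ne j1.symm j2 a1 n1, Cut_je_ne j1.symm j3 a1 n2,
      Cut_je_ne j2.symm j3 a2 n3, rfl⟩]
    have : ({v, s1, s2, t} : Finset V).card ≤ 4 := card_le_four
    omega

namespace Cor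

variable (k : G.Cor T p H a x b y A1 A2 A3 A4 z z' R R' s1 s2)
include k

theorem ndCb_edge (h : G.NCx T)
    (hT : ∀ v ∈ T, v = a ∨ v = y ∨ v = x ∨ v = b ∨ G.Ex T v) : ∃ f ∈ A2, G.Je f x b := by
  obtain ⟨f, hf, af⟩ := mem_vs.1 k.k4.j2.left_mem
  have mf := k.k4.sub (k.k4.s1.2.1 hf)
  have o := disjoint_left.1 (k.k4.rot.opp h.hc)
  have key : ∀ w ∈ G.vs A2, w ≠ x → w = b := fun w hw n => by
    rcases hT w (k.k4.vs_sub (vs_mono k.k4.s1.2.1 hw)) with q | q | q | q | q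
    · exact absurd (q ▸ k.k4.j4.right_mem) (o hw)
    · exact absurd (q ▸ k.k4.j4.left_mem) (o hw)
    · exact absurd q n
    · exact q
    · exact absurd q (k.tf2 h.hc w hw)
  refine ⟨f, hf, af.imp (fun q => ⟨q, key _ (t_mem_vs hf) fun q' => ?_⟩)
    fun q => ⟨key _ (s_mem_vs hf) fun q' => ?_, q⟩⟩
  · exact h.no_loop mf (q.trans q'.symm)
  · exact h.no_loop mf (q'.trans q.symm)

theorem ndCb_cube (h : G.NCx T) (ht : G.Ex T t) (mt : t ∈ G.vs R') (m1 : e1 ∈ A1)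
    (j1 : G.Je e1 a s1) (m2 : e2 ∈ A4) (j2 : G.Je e2 a s2) (m3 : e3 ∈ A1) (j3 : G.Je e3 s1 x)
    (m4 : e4 ∈ A4) (j4 : G.Je e4 s2 y) {g : E} (mg : g ∈ R') (ne : z' ≠ g) (jz : G.Je z' t x)
    (jg : G.Je g t y) : G.Cube T := by
  have hc := h.hc
  obtain ⟨c1, c2, c3, c4⟩ := k.k4.s1
  obtain ⟨ax, ab, ay, xb, xy, by'⟩ := k.k4.ne
  obtain ⟨s12, s1a, s1x, s1b, s1y⟩ := k.sne hc
  obtain ⟨-, s2a, s2y, s2b, s2x⟩ := k.flip.sne hc
  have ta := h.ne_d3 ht k.r.da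
  have tb := h.ne_d3 ht k.r.db
  have tx := h.ne_d3 ht k.r'.da
  have ty := h.ne_d3 ht k.r'.db
  have tH : t ∉ G.vs H := fun m => (k.k4.rot.zr hc mt m).elim tx ty
  have s1t : s1 ≠ t := fun q => tH (q ▸ vs_mono c1 k.m1)
  have s2t : s2 ≠ t := fun q => tH (q ▸ vs_mono c4 k.m2)
  have hA : ∀ {e : E}, e ∈ H → e ∈ G.A := fun m => k.k4.subA m
  have h0 : ∀ {e : E}, e ∈ H → G.sw p e = 0 := fun m => (mem_sg.1 (k.hp m)).2
  have az := ins_sub_A (k.r'.sub k.r'.mem)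
  have ag := ins_sub_A (k.r'.sub mg)
  have ma := k.k4.vs_sub (vs_mono c1 k.k4.j1.left_mem)
  have mx := k.k4.vs_sub (vs_mono c1 k.k4.j1.right_mem)
  have mb := k.k4.vs_sub (vs_mono c3 k.k4.j3.left_mem)
  have my := k.k4.vs_sub (vs_mono c3 k.k4.j3.right_mem)
  have hD : ({e1, e2, e3, e4, z', g} : Finset E).card = 6 := by
    have n12 := Cut_je_ne j1.symm j2 s1a s12
    have n13 := Cut_je_ne j1 j3 s1a.symm ax
    have n14 := Cut_je_ne j1 j4 s2a.symm ay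
    have n15 := Cut_je_ne j1 jz ta.symm ax
    have n16 := Cut_je_ne j1 jg ta.symm ay
    have n23 := Cut_je_ne j2 j3 s1a.symm ax
    have n24 := Cut_je_ne j2 j4 s2a.symm ay
    have n25 := Cut_je_ne j2 jz ta.symm ax
    have n26 := Cut_je_ne j2 jg ta.symm ay
    have n34 := Cut_je_ne j3 j4 s12 s1y
    have n35 := Cut_je_ne j3 jz s1t s1x
    have n36 := Cut_je_ne j3 jg s1t s1y
    have n45 := Cut_je_ne j4 jz s2t s2x
    have n46 := Cut_je_ne j4 jg s2t s2y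
    rw [card_insert_of_notMem (by simp [n12, n13, n14, n15, n16]),
      card_insert_of_notMem (by simp [n23, n24, n25, n26]),
      card_insert_of_notMem (by simp [n34, n35, n36]), card_insert_of_notMem (by simp [n45, n46]),
      card_pair ne]
  have h1 := h.cnt (X := {a, x, y, t, s1, s2}) (D := {e1, e2, e3, e4, z', g})
    (insert_subset ma (insert_subset mx (insert_subset my (insert_subset ht.1
      (Cut_pair k.e1.1 k.e2.1)))))
    (fun u hu => by rcases ndCb_all h k.e1 k.e2 ht s12 s1t s2t hu with rfl | rfl | rfl <;> simp)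
    (insert_subset (Cut_je_ins (hA (c1 m1)) j1 (by simp) (by simp))
      (insert_subset (Cut_je_ins (hA (c4 m2)) j2 (by simp) (by simp))
      (insert_subset (Cut_je_ins (hA (c1 m3)) j3 (by simp) (by simp))
      (insert_subset (Cut_je_ins (hA (c4 m4)) j4 (by simp) (by simp))
      (insert_subset (Cut_je_ins az jz (by simp) (by simp))
      (singleton_subset_iff.2 (Cut_je_ins ag jg (by simp) (by simp))))))))
    (by
      have : ({a, x, y, t, s1, s2} : Finset V).card ≤ 6 := card_le_six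
      omega)
  have hT : T = {a, b, x, y, t, s1, s2} := by
    refine Subset.antisymm (fun v hv => ?_) (insert_subset ma (insert_subset mb (insert_subset mx
      (insert_subset my (insert_subset ht.1 (Cut_pair k.e1.1 k.e2.1))))))
    by_cases q : v ∈ ({a, x, y, t, s1, s2} : Finset V)
    · exact insert_subset_insert a (subset_insert b _) q
    · rw [card_le_one.1 h1 v (mem_sdiff.2 ⟨hv, q⟩) b (mem_sdiff.2 ⟨mb, by
        simp [ab.symm, xb.symm, by', tb.symm, s1b.symm, s2b.symm]⟩)]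
      simp
  have hv : ∀ v ∈ T, v = a ∨ v = y ∨ v = x ∨ v = b ∨ G.Ex T v := fun v hv => by
    have q := hT ▸ hv
    simp only [mem_insert, mem_singleton] at q
    rcases q with q | q | q | q | q | q | q
    exacts [Or.inl q, Or.inr (Or.inr (Or.inr (Or.inl q))), Or.inr (Or.inr (Or.inl q)),
      Or.inr (Or.inl q), Or.inr (Or.inr (Or.inr (Or.inr (q ▸ ht)))),
      Or.inr (Or.inr (Or.inr (Or.inr (q ▸ k.e1)))), Or.inr (Or.inr (Or.inr (Or.inr (q ▸ k.e2))))]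
  obtain ⟨f, mf, jf⟩ := k.ndCb_edge h hv
  obtain ⟨f', mf', jf'⟩ := k.flip.ndCb_edge h fun v m => (hv v m).imp_right or_left_comm.1
  refine ⟨p, a, b, x, y, t, s1, s2, z, z', g, e1, e3, f, f', e4, e2, hT, ?_, ht, k.e1, k.e2,
    ⟨ins_sub_A (k.r.sub k.r.mem), az, ag, hA (c1 m1), hA (c1 m3), hA (c2 mf), hA (c3 mf'),
      hA (c4 m4), hA (c4 m2)⟩,
    ⟨(h.ear_one k.r (k.tfR h ht mt)).2, jz.symm, jg, j1, j3, jf, jf'.symm, j4.symm, j2.symm⟩,
    k.r.neg, k.r'.neg, ((k.r'.edge g mg).resolve_left ne.symm).1, h0 (c1 m1), h0 (c1 m3),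
    h0 (c2 mf), h0 (c3 mf'), h0 (c4 m4), h0 (c4 m2)⟩
  rw [hT, card_insert_of_notMem (by simp [ab, ax, ay, ta.symm, s1a.symm, s2a.symm]),
    card_insert_of_notMem (by simp [xb.symm, by', tb.symm, s1b.symm, s2b.symm]),
    card_insert_of_notMem (by simp [xy, tx.symm, s1x.symm, s2x.symm]),
    card_insert_of_notMem (by simp [ty.symm, s1y.symm, s2y.symm]),
    card_insert_of_notMem (by simp [s1t.symm, s2t.symm]), card_pair s12]

/-- HINT: `ear_two` gives `g = t x`, `g' = t y`; `ear_one`, `tfR` give `z = a b`.  `cnt` with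
`X = {a, x, y, t, s1, s2}` and the six edges shows `T \ X = {b}`.  The edge of `A2` at `x` ends in a
vertex of `A2` other than `x`, hence in `b` (`tf2`, `K4.adj`, `K4.opp`); the same for `A3` at `y`.
One of `g`, `g'` is `z'`, the other one is positive (`Ear.edge`).  If `z' = g` the labels are
`a b x y t s1 s2`, otherwise `a b y x t s2 s1`. -/
theorem cube_of (h : G.NCx T) (ht : G.Ex T t) (mt : t ∈ G.vs R') (m1 : e1 ∈ A1)
    (j1 : G.Je e1 a s1) (m2 : e2 ∈ A4) (j2 : G.Je e2 a s2) (m3 : e3 ∈ A1) (j3 : G.Je e3 s1 x)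
    (m4 : e4 ∈ A4) (j4 : G.Je e4 s2 y) : G.Cube T := by
  obtain ⟨g, g', ne, hR, jg, jg', -⟩ := h.ear_two k.r' ht mt
  have mz := k.r'.mem
  rw [hR, mem_insert, mem_singleton] at mz
  rcases mz with rfl | rfl
  · exact k.ndCb_cube h ht mt m1 j1 m2 j2 m3 j3 m4 j4 (by simp [hR]) ne jg jg'
  · exact k.flip.ndCb_cube h ht mt m2 j2 m1 j1 m4 j4 m3 j3 (by simp [hR]) ne.symm jg' jg

/-- HINT: `corner`.  The third terminal `t` (`NCx.third`, `e3`) lies on `R`: `ear_two` and `star`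
(`x`, `b` lie outside); or on `R'`: `tri_half` for `k` and `k.flip`, `cube_of`. -/
theorem fin (h : G.NCx T) : G.Kpa T ∨ G.Cube T := by
  rcases k.corner h with q | ⟨⟨e1, m1, j1⟩, e2, m2, j2⟩
  · exact Or.inl q
  obtain ⟨s12, -, s1x, s1b, -⟩ := k.sne h.hc
  obtain ⟨-, -, -, s2b, s2x⟩ := k.flip.sne h.hc
  obtain ⟨t, ht, n1, n2, -⟩ := h.third k.e1 k.e2 s12
  obtain ⟨c1, c2, -, c4⟩ := k.k4.s1
  rcases ((k.e3 t ht).resolve_left n1).resolve_left n2 with mt | mt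
  · obtain ⟨g, g', -, hR, jg, -, -⟩ := h.ear_two k.r ht mt
    obtain ⟨ax, ab, -, xb, -, -⟩ := k.k4.ne
    refine absurd (card_le_one.1 (h.star k.e1 k.e2 ht s12 n1.symm n2.symm (k.k4.sub (c1 m1))
      (k.k4.sub (c4 m2)) (k.r.sub (by simp [hR])) j1 j2 jg.symm) x ?_ b ?_) xb
    · exact mem_sdiff.2 ⟨k.k4.vs_sub (vs_mono c2 k.k4.j2.left_mem),
        by simp [ax.symm, s1x.symm, s2x.symm, (h.ne_d3 ht k.r'.da).symm]⟩
    · exact mem_sdiff.2 ⟨k.k4.vs_sub (vs_mono c2 k.k4.j2.right_mem),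
        by simp [ab.symm, s1b.symm, s2b.symm, (h.ne_d3 ht k.r.db).symm]⟩
  rcases k.tri_half h ht mt m1 j1 with q | ⟨e3, m3, j3⟩
  · exact Or.inl q
  rcases k.flip.tri_half h ht mt m2 j2 with q | ⟨e4, m4, j4⟩
  · exact Or.inl q
  exact Or.inr (k.cube_of h ht mt m1 j1 m2 j2 m3 j3 m4 j4)

end Cor

end SG

end Pool.Agent.Work.MP_8c679b_co
end

-- merged part: Pool.Agent.Work.MP_8c679b_co.ND.S1
section
/-!
Existence of a ring with two crossing negative chords.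
-/

set_option autoImplicit false

namespace Pool.Agent.Work.MP_8c679b_co

open Finset

namespace SG

variable {V E : Type} [Fintype V] [DecidableEq V] [DecidableEq E] {G : SG V E}

variable {T : Finset V} {p : V → ZMod 2} {H A1 A2 A3 A4 R R' : Finset E} {a x b y t t' : V}
  {z z' : E}

theorem K4.ndS1_off (hc : G.Cub) (k : G.K4 T H a x b y A1 A2 A3 A4 R R') (ht : G.Ex T t)
    (mt : t ∈ G.vs R) : t ∉ G.vs H := fun m => by
  rcases k.zr hc mt m with rfl | rfl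
  · exact k.not_ex hc ht
  · exact k.rot.rot.not_ex hc ht

theorem K4.ndS1_opp (hc : G.Cub) (k : G.K4 T H a x b y A1 A2 A3 A4 R R') (ht : G.Ex T t)
    (m : t ∈ G.vs A1 ∨ t ∈ G.vs A3) (m' : t ∈ G.vs A2 ∨ t ∈ G.vs A4) : False := by
  rcases m with m | m <;> rcases m' with m' | m'
  · exact k.rot.not_ex hc (k.adj hc m m' ▸ ht)
  · exact k.not_ex hc (k.rot.rot.rot.adj hc m' m ▸ ht)
  · exact k.rot.rot.not_ex hc (k.rot.adj hc m' m ▸ ht)
  · exact k.rot.rot.rot.not_ex hc (k.rot.rot.adj hc m m' ▸ ht)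

theorem K4.ndS1_two (hc : G.Cub) (k : G.K4 T H a x b y A1 A2 A3 A4 R R') :
    G.Kpa T ∨ ∃ s s', G.Ex T s ∧ G.Ex T s' ∧ s ≠ s' ∧ s ∈ G.vs H ∧ s' ∈ G.vs H ∧
      (s ∈ G.vs A1 ∨ s ∈ G.vs A3) ∧ (s' ∈ G.vs A2 ∨ s' ∈ G.vs A4) := by
  by_cases h1 : ∃ s, G.Ex T s ∧ (s ∈ G.vs A1 ∨ s ∈ G.vs A3)
  · by_cases h2 : ∃ s, G.Ex T s ∧ (s ∈ G.vs A2 ∨ s ∈ G.vs A4)
    · obtain ⟨s, hs, m⟩ := h1
      obtain ⟨s', hs', m'⟩ := h2
      refine Or.inr ⟨s, s', hs, hs', fun e => k.ndS1_opp hc hs m (e ▸ m'), k.mem_vs.2 ?_,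
        k.mem_vs.2 ?_, m, m'⟩
      · exact m.elim Or.inl fun m => Or.inr (Or.inr (Or.inl m))
      · exact m'.elim (fun m => Or.inr (Or.inl m)) fun m => Or.inr (Or.inr (Or.inr m))
    · exact Or.inl (k.kpa24 hc (fun v hv e => h2 ⟨v, e, Or.inl hv⟩)
        fun v hv e => h2 ⟨v, e, Or.inr hv⟩)
  · exact Or.inl (k.kpa13 hc (fun v hv e => h1 ⟨v, e, Or.inl hv⟩)
      fun v hv e => h1 ⟨v, e, Or.inr hv⟩)

theorem NCx.ndS1_tf (h : G.NCx T) (r : G.Ear T p z a b R) (hz : ¬ ∃ v, G.Ex T v ∧ G.At z v) :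
    G.Tf T R := fun v hv e => by
  rcases r.vert v hv with k | k | k
  · exact h.ne_d3 e r.da k
  · exact h.ne_d3 e r.db k
  · exact hz ⟨v, e, k.2.1⟩

/-- Two terminals off the ring.  HINT: the third terminal misses `A2`, `A4` (`kpa24`) or `A1`, `A3`
(`kpa13`); `K4.adj`, `K4.not_ex` with rotations. -/
theorem K4.two_off (h : G.NCx T) (k : G.K4 T H a x b y A1 A2 A3 A4 R R') (ht : G.Ex T t)
    (ht' : G.Ex T t') (hne : t ≠ t') (m : t ∉ G.vs H) (m' : t' ∉ G.vs H) : G.Kpa T := by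
  rcases k.ndS1_two h.hc with k1 | ⟨s, s', hs, hs', n, ms, ms', -, -⟩
  · exact k1
  · rcases h.pair_meet hs hs' ht ht' n hne with rfl | rfl | rfl | rfl
    exacts [absurd ms m, absurd ms' m, absurd ms m', absurd ms' m']

/-- One terminal on the second ear.  HINT: `kpa24`, `kpa13`; otherwise there is a terminal `s` on
`A1` or `A3` and a terminal `s'` on `A2` or `A4`; `s`, `s'`, `t` are different (`K4.adj`, `K4.zr`,
`K4.not_ex`), so they are all terminals.  `Cor.fin` for `k` (`A1`, `A4`), `k.rot` (`A2`, `A1`),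
`k.rot.rot` (`A3`, `A2`), `k.rot.rot.rot` (`A4`, `A3`), with `Ear.symm`. -/
theorem K4.one_off (h : G.NCx T) (hm : G.Mn T p) (k : G.K4 T H a x b y A1 A2 A3 A4 R R')
    (hp : H ⊆ G.sg p 0 T) (r : G.Ear T p z a b R) (r' : G.Ear T p z' x y R')
    (neg : ∀ e ∈ G.sg p 1 T, e = z ∨ e = z') (ht : G.Ex T t) (mt : t ∈ G.vs R') :
    G.Kpa T ∨ G.Cube T := by
  rcases k.ndS1_two h.hc with k1 | ⟨s, s', hs, hs', n, ms, ms', m, m'⟩
  · exact Or.inl k1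
  have off := k.rot.ndS1_off h.hc ht mt
  obtain ⟨t0, -, -, -, h0⟩ := h.third hs hs' n
  have e0 : t = t0 := by
    rcases h0 t ht with rfl | rfl | e
    exacts [absurd ms off, absurd ms' off, e]
  have e3 : ∀ v, G.Ex T v → v = s ∨ v = s' ∨ v ∈ G.vs R' := fun v hv => by
    rcases h0 v hv with e | e | e
    exacts [Or.inl e, Or.inr (Or.inl e), Or.inr (Or.inr (e ▸ e0 ▸ mt))]
  have neg' : ∀ e ∈ G.sg p 1 T, e = z' ∨ e = z := fun e he => (neg e he).symm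
  rcases m with m | m <;> rcases m' with m' | m'
  · exact Cor.fin ⟨hm, k.rot, hp, r', r.symm, neg', hs', m', hs, m,
      fun v hv => by have := e3 v hv; (clear * - this; tauto)⟩ h
  · exact Cor.fin ⟨hm, k, hp, r, r', neg, hs, m, hs', m',
      fun v hv => by have := e3 v hv; (clear * - this; tauto)⟩ h
  · exact Cor.fin ⟨hm, k.rot.rot, hp, r.symm, r'.symm, neg, hs, m, hs', m',
      fun v hv => by have := e3 v hv; (clear * - this; tauto)⟩ h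
  · exact Cor.fin ⟨hm, k.rot.rot.rot, hp, r'.symm, r, neg', hs', m', hs, m,
      fun v hv => by have := e3 v hv; (clear * - this; tauto)⟩ h

/-- HINT: `exists_mn`, `two_neg`, `exists_ear`, `four4`.  A negative edge is marked if it has a
terminal as an end.  Two unmarked edges: both ears have no terminal (`Ear.vert`, `ne_d3`).  Two
marked edges: `two_off` (`K4.zr`, `dzz`).  Otherwise there are exactly two negative edges, one
of them marked: `one_off`. -/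
theorem NCx.kpa (h : G.NCx T) : G.Kpa T ∨ G.Cube T := by
  obtain ⟨p, hm⟩ := exists_mn (G := G) T
  have hA : ∀ z ∈ G.sg p 1 T, ∀ z' ∈ G.sg p 1 T, z ≠ z' → (¬ ∃ v, G.Ex T v ∧ G.At z v) →
      (¬ ∃ v, G.Ex T v ∧ G.At z' v) → G.Kpa T := by
    intro z hz z' hz' n u u'
    obtain ⟨a, b, R, r⟩ := h.exists_ear hm hz
    obtain ⟨x, y, R', r'⟩ := h.exists_ear hm hz'
    obtain ⟨H, A1, A2, A3, A4, -, k⟩ := h.four4 hm r r' n
    exact ⟨H, a, x, b, y, A1, A2, A3, A4, R, R', k, h.ndS1_tf r u, h.ndS1_tf r' u'⟩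
  have hB : ∀ z ∈ G.sg p 1 T, ∀ z' ∈ G.sg p 1 T, z ≠ z' → (∃ v, G.Ex T v ∧ G.At z v) →
      (∃ v, G.Ex T v ∧ G.At z' v) → G.Kpa T := by
    rintro z hz z' hz' n ⟨t, ht, u⟩ ⟨t', ht', u'⟩
    obtain ⟨a, b, R, r⟩ := h.exists_ear hm hz
    obtain ⟨x, y, R', r'⟩ := h.exists_ear hm hz'
    obtain ⟨H, A1, A2, A3, A4, -, k⟩ := h.four4 hm r r' n
    have m : t ∈ G.vs R := mem_vs.2 ⟨z, r.mem, u⟩
    have m' : t' ∈ G.vs R' := mem_vs.2 ⟨z', r'.mem, u'⟩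
    exact k.two_off h ht ht' (fun e => disjoint_left.1 k.dzz m (e ▸ m')) (k.ndS1_off h.hc ht m)
      (k.rot.ndS1_off h.hc ht' m')
  have hC : ∀ z ∈ G.sg p 1 T, ∀ z' ∈ G.sg p 1 T, z ≠ z' → (¬ ∃ v, G.Ex T v ∧ G.At z v) →
      (∃ v, G.Ex T v ∧ G.At z' v) → G.Kpa T ∨ G.Cube T := by
    intro z hz z' hz' n u u'
    by_cases neg : ∀ e ∈ G.sg p 1 T, e = z ∨ e = z'
    · obtain ⟨t, ht, u'⟩ := u'
      obtain ⟨a, b, R, r⟩ := h.exists_ear hm hz
      obtain ⟨x, y, R', r'⟩ := h.exists_ear hm hz'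
      obtain ⟨H, A1, A2, A3, A4, hp, k⟩ := h.four4 hm r r' n
      exact k.one_off h hm hp r r' neg ht (mem_vs.2 ⟨z', r'.mem, u'⟩)
    · push Not at neg
      obtain ⟨e, he, n1, n2⟩ := neg
      by_cases ue : ∃ v, G.Ex T v ∧ G.At e v
      · exact Or.inl (hB e he z' hz' n2 ue u')
      · exact Or.inl (hA e he z hz n1 ue u)
  obtain ⟨z, hz, z', hz', n⟩ := one_lt_card.1 (h.two_neg p)
  by_cases u : ∃ v, G.Ex T v ∧ G.At z v <;> by_cases u' : ∃ v, G.Ex T v ∧ G.At z' v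
  · exact Or.inl (hB z hz z' hz' n u u')
  · exact hC z' hz' z hz n.symm u' u
  · exact hC z hz z' hz' n u u'
  · exact Or.inl (hA z hz z' hz' n u u')

theorem NCx.kch (h : G.NCx T) : G.Cube T ∨ ∃ ρ, G.Kch T ρ :=
  h.kpa.symm.imp_right (cp2 h)

end SG

end Pool.Agent.Work.MP_8c679b_co
end

-- merged part: Pool.Agent.Work.MP_8c679b_co.ND.Odd
section
/-!
Odd solutions, and the passage from `Sv` to `Rs`.
-/

set_option autoImplicit false

namespace Pool.Agent.Work.MP_8c679b_co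

open Finset

namespace SG

variable {V E : Type} [Fintype V] [DecidableEq V] [DecidableEq E] {G : SG V E}

variable {T : Finset V} {y : E → ZMod 3} {ε : ZMod 2}

/-- HINT: `Sv.out`, `rs_of_meet`; two disjoint unbalanced sides contain disjoint odd circuits
(`exists_odd_cc`), against `hK`. -/
theorem Sv.rs (h : G.NCx T) (s : G.Sv T y T ε) : G.Rs T y ε 1 := by
  obtain ⟨O, φ, hq⟩ := s.out
  refine rs_of_meet h.hc h.hT hq fun S hS S' hS' b b' d => ?_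
  obtain ⟨C, c1, c2, c3⟩ := exists_odd_cc b.1.2
  obtain ⟨D, d1, d2, d3⟩ := exists_odd_cc b'.1.2
  exact h.hK C (c1.trans (ins_mono hS)) D (d1.trans (ins_mono hS')) c2 c3 d2 d3
    (d.mono (sub_ins_iff.1 c1).2 (sub_ins_iff.1 d1).2)

/-- the two inner edges at a terminal -/
theorem ndOdd_two (h : G.NCx T) {t : V} {e : E} (ht : t ∈ T) (he : e ∈ G.cut T) (ha : G.At e t) :
    ∃ a b, a ≠ b ∧ a ∈ G.ins T ∧ b ∈ G.ins T ∧ G.At a t ∧ G.At b t ∧
      ∀ f ∈ G.A, G.At f t → f = e ∨ f = a ∨ f = b := by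
  have m : ∀ f ∈ G.A, G.At f t → f ∈ G.cut {t} := fun f h1 h2 =>
    (mem_cut_single (h.hT.noloop h.hc (Cut_tch h1 h2 ht))).2 ⟨h1, h2⟩
  have h3 := (h.hT.vtx h.hc ht).1
  have h4 : ((G.cut {t}).erase e).card = 2 := by
    rw [card_erase_of_mem (m e (mem_cut.1 he).1 ha), h3]
  obtain ⟨a, b, hab, h5⟩ := card_eq_two.1 h4
  have k : ∀ f ∈ (G.cut {t}).erase e, f ∈ G.ins T ∧ G.At f t := fun f hf => by
    have k1 := (mem_erase.1 hf).2
    have k2 : G.At f t := mem_singleton.1 (ie_mem (cut_sub_tch k1)) ▸ ie_at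
    exact ⟨(mem_tch_iff.1 (Cut_tch (mem_cut.1 k1).1 k2 ht)).resolve_right fun k3 =>
      (mem_erase.1 hf).1 (h.cut_unique ht he k3 ha k2), k2⟩
  have ka := k a (h5 ▸ mem_insert_self _ _)
  have kb := k b (h5 ▸ mem_insert_of_mem (mem_singleton_self _))
  refine ⟨a, b, hab, ka.1, kb.1, ka.2, kb.2, fun f h1 h2 => ?_⟩
  by_cases k1 : f = e
  · exact Or.inl k1
  · have k2 : f ∈ (G.cut {t}).erase e := mem_erase.2 ⟨k1, m f h1 h2⟩
    rw [h5, mem_insert, mem_singleton] at k2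
    exact Or.inr k2

/-- an inner edge at `t` leaves `T` without `t` -/
theorem ndOdd_in (h : G.NCx T) {t : V} {a : E} (ha : a ∈ G.ins T) (ha' : G.At a t) :
    a ∈ G.cut (T.erase t) := by
  have k1 := h.no_loop ha
  obtain ⟨k2, k3, k4⟩ := mem_ins.1 ha
  refine mem_cut.2 ⟨k2, ?_⟩
  rcases ha' with rfl | rfl
  · simp [k1.symm, k4]
  · simp [k1, k3]

/-- a path with different ends is a join through all its vertices -/
theorem ndOdd_jn {S : Finset E} {n : ℕ} {v : ℕ → V} {g : ℕ → E} (hp : G.Pth S n v g)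
    (hS : S ⊆ G.A) (hne : v 0 ≠ v n) : G.Jn (pe n g) (v 0) (v n) ∧ pv n v ⊆ G.vs (pe n g) := by
  obtain ⟨p1, p2, p3, p4, p5⟩ := hp.pp hS
  have k := (sub_ins_iff.1 p1).2
  refine ⟨⟨hne, p3, fun a ha b hb => p2 a (k ha) b (k hb)⟩, fun w hw => ?_⟩
  by_cases k1 : w = v 0
  · exact (p2 w hw _ p5).mem_vs (k1 ▸ hne)
  · exact (p2 w hw _ p4).mem_vs k1

/-- An odd circuit through two terminals.  HINT: let `t` be a terminal with the inner edges `a`, `b`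
(`deg_ex`) and let `c`, `d` be the leaving edges at the other terminals.  `S = T.erase t` has the
cut `{a, b, c, d}` (`Cut_vx`, `Q4`).  It is unbalanced: `hF a` gives an odd circuit without `a`,
which misses `t`.  `NC S a b`: for a split `X` the set `insert t X` has three leaving edges, at least
two vertices and misses the end of `c`, against `hT`.  `cpm` with the parity `1 + n a + n b`;
close the path with `a`, `b` (`Pth.od`, `Pth.pp`, `Jn.cc`; the ends `ie S a`, `ie S b` differ by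
`HT.simple`). -/
theorem NCx.odd_ring (h : G.NCx T) : ∃ ρ ⊆ G.ins T, G.Cc ρ ∧ G.par ρ = 1 ∧
    ∃ s ∈ G.vs ρ, ∃ s' ∈ G.vs ρ, s ≠ s' ∧ G.Ex T s ∧ G.Ex T s' := by
  obtain ⟨t, t2, t3, n2, n3, n23, k⟩ := h.terms
  have x1 : G.Ex T t := (k _).2 (Or.inl rfl)
  have x2 : G.Ex T t2 := (k _).2 (Or.inr (Or.inl rfl))
  have x3 : G.Ex T t3 := (k _).2 (Or.inr (Or.inr rfl))
  obtain ⟨m1, e, e1, e2⟩ := id x1
  obtain ⟨m2, c, c1, c2⟩ := id x2
  obtain ⟨m3, d, d1, d2⟩ := id x3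
  obtain ⟨a, b, hab, a1, b1, a2, b2, hall⟩ := ndOdd_two h m1 e1 e2
  have hS : T.erase t ⊆ T := erase_subset _ _
  have tS : t ∉ T.erase t := notMem_erase _ _
  have s2 : t2 ∈ T.erase t := mem_erase.2 ⟨n2.symm, m2⟩
  have s3 : t3 ∈ T.erase t := mem_erase.2 ⟨n3.symm, m3⟩
  have ca := ndOdd_in h a1 a2
  have cb := ndOdd_in h b1 b2
  have cc := (cut_of_sub hS c1 (Cut_tch (mem_cut.1 c1).1 c2 s2)).1
  have cd := (cut_of_sub hS d1 (Cut_tch (mem_cut.1 d1).1 d2 s3)).1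
  have nc : ∀ f ∈ G.ins T, ∀ f' ∈ G.cut T, f ≠ f' := fun f h1 f' h2 h3 =>
    not_ins_of_cut h2 (h3 ▸ h1)
  have hq : G.Q4 (T.erase t) a b c d := by
    refine ⟨?_, hab, nc a a1 c c1, nc a a1 d d1, nc b b1 c c1, nc b b1 d d1, ?_⟩
    · ext f
      simp only [mem_insert, mem_singleton]
      refine ⟨fun hf => ?_, ?_⟩
      · have f1 := ie_mem (cut_sub_tch hf)
        have f2 : G.At f (G.ie (T.erase t) f) := ie_at
        rcases mem_tch_iff.1 (tch_mono hS (cut_sub_tch hf)) with f3 | f3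
        · have f4 : G.oe (T.erase t) f ∈ T := by
            rcases (oe_at (G := G) (X := T.erase t) (e := f)) with f5 | f5
            exacts [f5 ▸ (mem_ins.1 f3).2.1, f5 ▸ (mem_ins.1 f3).2.2]
          have f5 : G.oe (T.erase t) f = t := by
            by_contra f6
            exact oe_not_mem hf (mem_erase.2 ⟨f6, f4⟩)
          rcases hall f (mem_cut.1 hf).1 (f5 ▸ oe_at) with f6 | f6 | f6
          exacts [absurd f6 (nc f f3 e e1), Or.inl f6, Or.inr (Or.inl f6)]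
        · rcases (k _).1 ⟨hS f1, f, f3, f2⟩ with f4 | f4 | f4
          · exact absurd f4 (mem_erase.1 f1).1
          · exact Or.inr (Or.inr (Or.inl (h.cut_unique m2 c1 f3 c2 (f4 ▸ f2))))
          · exact Or.inr (Or.inr (Or.inr (h.cut_unique m3 d1 f3 d2 (f4 ▸ f2))))
      · rintro (rfl | rfl | rfl | rfl)
        exacts [ca, cb, cc, cd]
    · rintro rfl
      exact n23 ((eq_ie c1 m2 c2).trans (eq_ie c1 m3 d2).symm)
  have hu : G.US (T.erase t) := by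
    refine ⟨hq.card, ?_⟩
    obtain ⟨C, k1, k2, k3⟩ := exists_odd_cc (h.hF a)
    have k4 : C ⊆ G.ins T := k1.trans (erase_subset _ _)
    have k5 : t ∉ G.vs C := fun k6 => by
      have k7 := deg2_of_dg h.hc (k4.trans ins_sub_A) k6 (k2.2.1 t)
      exact notMem_erase a _ (k1 (mem_of_deg_le k4 (by rw [h.deg_ex x1, k7]) a1 a2))
    exact k2.not_bal k3 (sub_ins_iff.2 ⟨k4.trans ins_sub_A, fun w hw =>
      mem_erase.2 ⟨fun k6 => k5 (k6 ▸ hw), (sub_ins_iff.1 k4).2 hw⟩⟩)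
  have hN : G.NC (T.erase t) a b := by
    rintro X ⟨y1, y2, y3⟩
    have tX : t ∉ X := fun k1 => tS (y1 k1)
    have hY : insert t X ⊆ T := insert_subset m1 (y1.trans hS)
    have k1 := Cut_vx h.hc h.hT hY (mem_insert_self t X)
    rw [← erase_eq, erase_insert tX, y2] at k1
    have k2 : ∀ f ∈ G.cut X, G.At f t → f ∉ G.cut (insert t X) := fun f f1 f2 f3 =>
      tX (((eq_ie f3 (mem_insert_self t X) f2).trans (eq_ie f3 (mem_insert_of_mem
        (ie_mem (cut_sub_tch f1))) ie_at).symm) ▸ ie_mem (cut_sub_tch f1))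
    have ya : a ∈ G.cut X := (mem_inter.1 (y3 ▸ mem_insert_self a {b})).1
    have yb : b ∈ G.cut X := (mem_inter.1 (y3 ▸ mem_insert_of_mem (mem_singleton_self b))).1
    have k3 : G.cut {t} ∩ G.cut (insert t X) ⊆ {e} := fun f hf => by
      obtain ⟨f1, f2⟩ := mem_inter.1 hf
      have f3 : G.At f t := mem_singleton.1 (ie_mem (cut_sub_tch f1)) ▸ ie_at
      rcases hall f (mem_cut.1 f1).1 f3 with rfl | rfl | rfl
      exacts [mem_singleton_self _, absurd f2 (k2 _ ya a2), absurd f2 (k2 _ yb b2)]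
    have k4 := card_le_card k3
    rw [card_singleton] at k4
    obtain ⟨k5, k6⟩ := h.hT _ hY (insert_nonempty t X)
    rcases k6 (by omega) with k7 | k7
    · rw [card_insert_of_notMem tX] at k7
      obtain rfl := card_eq_zero.1 (show X.card = 0 by omega)
      exact notMem_empty _ (ie_mem (cut_sub_tch ya))
    · have k8 : t2 ∈ X := (mem_insert.1 (k7 ▸ m2)).resolve_left n2.symm
      have k9 : c ∈ ({a, b} : Finset E) := y3 ▸ mem_inter.2
        ⟨(cut_of_sub (y1.trans hS) c1 (Cut_tch (mem_cut.1 c1).1 c2 k8)).1, cc⟩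
      rw [mem_insert, mem_singleton] at k9
      exact k9.elim (nc a a1 c c1).symm (nc b b1 c c1).symm
  obtain ⟨n, v, g, p1, p2, p3, p4, p5⟩ := cpm h.hc h.hT hS hu hq hN (1 + G.n a + G.n b)
  have hd : G.ie (T.erase t) a ≠ G.ie (T.erase t) b :=
    h.hT.f2 h.hc hS hq.card (lt_of_lt_of_le (by omega) (h.hT.us_card h.hc hS hu)) ca cb hab
  obtain ⟨j1, j2⟩ := ndOdd_jn p1 ins_sub_A (by rw [p2, p3]; exact hd)
  rw [p2, p3] at j1
  have je : ∀ f ∈ G.cut (T.erase t), G.At f t → G.Jn {f} (G.ie (T.erase t) f) t := fun f f1 f2 =>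
    ⟨(mem_erase.1 (ie_mem (cut_sub_tch f1))).1, od_edge (by
      have f3 := je_ie_oe (G := G) (X := T.erase t) (e := f)
      rwa [← eq_oe f1 tS f2] at f3), cn_edge⟩
  have j3 := (je a ca a2).union (je b cb b2).symm (disjoint_singleton.2 hab) hd
  have dj : Disjoint (pe n g) ({a} ∪ {b}) := disjoint_union_right.2
    ⟨disjoint_singleton_right.2 fun k1 => not_ins_of_cut ca (p1.pe_sub k1),
      disjoint_singleton_right.2 fun k1 => not_ins_of_cut cb (p1.pe_sub k1)⟩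
  have mt : t ∈ G.vs (pe n g ∪ ({a} ∪ {b})) :=
    mem_vs.2 ⟨a, mem_union_right _ (mem_union_left _ (mem_singleton_self a)), a2⟩
  refine ⟨pe n g ∪ ({a} ∪ {b}), union_subset (p1.pe_sub.trans (ins_mono hS))
    (union_subset (singleton_subset_iff.2 a1) (singleton_subset_iff.2 b1)), j1.cc j3 dj, ?_,
    t, mt, ?_⟩
  · rw [par_union dj, par_union (disjoint_singleton.2 hab), p5, par, par, sum_singleton,
      sum_singleton]
    linear_combination z2_add_self (G.n a + G.n b)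
  · rcases p4 with p4 | p4
    · exact ⟨t2, vs_mono subset_union_left (j2 ((eq_ie cc s2 c2).symm ▸ p4)), n2, x1, x2⟩
    · exact ⟨t3, vs_mono subset_union_left (j2 ((eq_ie cd s3 d2).symm ▸ p4)), n3, x1, x3⟩

/-- HINT: `odd_ring`, `rest_bal`, `sv_good` (only the third terminal can lie off the ring),
`close_odd`, `Sv.rs`, `Rs.mono`. -/
theorem nd2_odd1 (h : G.NCx T) : G.Rall T 1 1 := by
  intro η hη
  obtain ⟨ρ, h1, h2, h3, s, m, s', m', hne, x, x'⟩ := h.odd_ring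
  obtain ⟨t, -, -, -, k⟩ := h.third x x' hne
  have k1 : ∀ u, G.Ex T u → u ∈ T \ G.vs ρ → u = t := fun u u1 u2 => by
    rcases k u u1 with rfl | rfl | rfl
    exacts [absurd m (mem_sdiff.1 u2).2, absurd m' (mem_sdiff.1 u2).2, rfl]
  have k2 := close_odd h1 h2 h3 (sv_good h hη sdiff_subset (h.rest_bal h1 h2 h3)
    fun u u' u1 u2 u3 u4 _ => (k1 u u1 u3).trans (k1 u' u2 u4).symm)
  rw [zero_add] at k2
  exact k2.rs h

theorem nd2_odd (h : G.NCx T) : G.Rall T 1 2 := fun η hη =>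
  (nd2_odd1 h η hη).mono one_le_two

end SG

end Pool.Agent.Work.MP_8c679b_co
end

-- merged part: Pool.Agent.Work.MP_8c679b_co.ND.Tw1
section
/-!
Parity lemmas for anchored rings.  For the vertex sets use `K4.vpt` (for a fixed vertex `v`) with
`vs_union`, `mem_union`, `vs_mono` and `grind`.
-/

set_option autoImplicit false

namespace Pool.Agent.Work.MP_8c679b_co

open Finset

namespace SG

variable {V E : Type} [Fintype V] [DecidableEq V] [DecidableEq E] {G : SG V E}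

variable {T Y : Finset V} {ρ ρ' A1 A2 A3 A4 Z Z' F F0 R B C D D1 D3 Za Zb Aa : Finset E}
  {a a' b b' u v w k y : V}

/-- two disjoint odd even-degree sets do not exist -/
theorem NCx.two_odd (h : G.NCx T) (hC : C ⊆ G.ins T) (hD : D ⊆ G.ins T) (eC : G.Ev C)
    (eD : G.Ev D) (oC : G.par C = 1) (oD : G.par D = 1) (d : Disjoint (G.vs C) (G.vs D)) :
    False := by
  obtain ⟨C', c1, c2, c3⟩ := eC.odd_cc oC
  have := h.par_zero (c1.trans hC) c2 c3 hD eD (d.symm.mono_right (vs_mono c1))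
  rw [oD] at this
  exact one_ne_zero this

omit [Fintype V] [DecidableEq V] [DecidableEq E] in
theorem Ng.symm (n : G.Ng ρ F w k) : G.Ng ρ F k w := by
  obtain ⟨q, h1, h2⟩ := n
  exact ⟨q, h1, by rw [← h2]; ring⟩

theorem Ng.par (n : G.Ng ρ F w k) (hB : B ⊆ ρ) (o : G.Od B w k) : G.par B + G.par F = 1 := by
  obtain ⟨q, h1, h2⟩ := n
  have h3 := o.par_eq q
  rw [sum_eq_zero fun e he => h1 e (hB he)] at h3
  linear_combination h2 - h3 - z2_add_self (q w) - z2_add_self (q k)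

theorem Ng.keep (n : G.Ng ρ F w k) (hb : G.Bal ρ') (r : G.Rch (ρ ∩ ρ') w k) :
    G.Ng ρ' F w k := by
  obtain ⟨q, h1, h2⟩ := n
  obtain ⟨p, hp⟩ := hb
  have h3 := ndK_const (fun e he => h1 e (mem_inter.1 he).1) (fun e he => hp e (mem_inter.1 he).2) r
  exact ⟨p, hp, by linear_combination h2 + h3 + z2_add_self (p k) - z2_add_self (q w)⟩

/-- all vertex incidences of the configuration -/
theorem K4.vpt (k4 : G.K4 T ρ a a' b b' A1 A2 A3 A4 Z Z') (hc : G.Cub) (v : V) :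
    (v ∈ G.vs A1 → v ∈ G.vs A2 → v = a') ∧ (v ∈ G.vs A2 → v ∈ G.vs A3 → v = b) ∧
      (v ∈ G.vs A3 → v ∈ G.vs A4 → v = b') ∧ (v ∈ G.vs A4 → v ∈ G.vs A1 → v = a) ∧
      (v ∈ G.vs A1 → v ∉ G.vs A3) ∧ (v ∈ G.vs A2 → v ∉ G.vs A4) ∧
      (v ∈ G.vs Z → v ∈ G.vs ρ → v = a ∨ v = b) ∧ (v ∈ G.vs Z' → v ∈ G.vs ρ → v = a' ∨ v = b') ∧
      (v ∈ G.vs Z → v ∉ G.vs Z') ∧
      (v ∈ G.vs ρ ↔ v ∈ G.vs A1 ∨ v ∈ G.vs A2 ∨ v ∈ G.vs A3 ∨ v ∈ G.vs A4) :=
  ⟨k4.adj hc, k4.rot.adj hc, k4.rot.rot.adj hc, k4.rot.rot.rot.adj hc,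
    fun m => disjoint_left.1 (k4.opp hc) m, fun m => disjoint_left.1 (k4.rot.opp hc) m,
    k4.zr hc, k4.rot.zr hc, fun m => disjoint_left.1 k4.dzz m, k4.mem_vs⟩

/-- the branch vertices -/
theorem K4.bpt (k4 : G.K4 T ρ a a' b b' A1 A2 A3 A4 Z Z') (hc : G.Cub) :
    (a ∈ G.vs A1 ∧ a ∉ G.vs A2 ∧ a ∉ G.vs A3 ∧ a ∈ G.vs A4 ∧ a ∈ G.vs Z ∧ a ∉ G.vs Z') ∧
    (a' ∈ G.vs A1 ∧ a' ∈ G.vs A2 ∧ a' ∉ G.vs A3 ∧ a' ∉ G.vs A4 ∧ a' ∉ G.vs Z ∧ a' ∈ G.vs Z') ∧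
    (b ∉ G.vs A1 ∧ b ∈ G.vs A2 ∧ b ∈ G.vs A3 ∧ b ∉ G.vs A4 ∧ b ∈ G.vs Z ∧ b ∉ G.vs Z') ∧
    (b' ∉ G.vs A1 ∧ b' ∉ G.vs A2 ∧ b' ∈ G.vs A3 ∧ b' ∈ G.vs A4 ∧ b' ∉ G.vs Z ∧ b' ∈ G.vs Z') := by
  have o := disjoint_left.1 (k4.opp hc)
  have o' := disjoint_left.1 (k4.rot.opp hc)
  have z := disjoint_left.1 k4.dzz
  exact ⟨⟨k4.j1.left_mem, fun m => o' m k4.j4.right_mem, o k4.j1.left_mem, k4.j4.right_mem,
      k4.jz.left_mem, z k4.jz.left_mem⟩,
    ⟨k4.j1.right_mem, k4.j2.left_mem, o k4.j1.right_mem, o' k4.j2.left_mem,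
      fun m => z m k4.jz'.left_mem, k4.jz'.left_mem⟩,
    ⟨fun m => o m k4.j3.left_mem, k4.j2.right_mem, k4.j3.left_mem, o' k4.j2.right_mem,
      k4.jz.right_mem, z k4.jz.right_mem⟩,
    ⟨fun m => o m k4.j3.right_mem, fun m => o' m k4.j4.left_mem, k4.j3.right_mem, k4.j4.left_mem,
      fun m => z m k4.jz'.right_mem, k4.jz'.right_mem⟩⟩

/-- the ends of an ear off the configuration are no branch vertices.  HINT: `K4.free` for an edge
of `F` at `w`. -/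
theorem K4.end_free (k4 : G.K4 T ρ a a' b b' A1 A2 A3 A4 Z Z') (hc : G.Cub) (hF : F ⊆ G.ins T)
    (d : Disjoint F (ρ ∪ (Z ∪ Z'))) (hw : w ∈ G.vs F) : w ≠ a ∧ w ≠ a' ∧ w ≠ b ∧ w ≠ b' := by
  obtain ⟨e, h1, h2⟩ := SG.mem_vs.1 hw
  have h3 := disjoint_left.1 d h1
  rw [mem_union, mem_union, not_or, not_or] at h3
  exact k4.free hc (ins_sub_A (hF h1)) h2 h3.1 h3.2.1 h3.2.2

/-- The odd circuit of the anchor through `A2`.  HINT: `D1 ∪ A2 ∪ D3` is an arc from `w` to `k`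
(`Od.union`), `Ng.par`. -/
theorem K4.anc_odd (k4 : G.K4 T ρ a a' b b' A1 A2 A3 A4 Z Z') (hF : F ⊆ G.ins T)
    (j : G.Jn F w k) (d : Disjoint F (ρ ∪ (Z ∪ Z'))) (n : G.Ng ρ F w k) (s1 : D1 ⊆ A1)
    (j1 : G.Jn D1 w a') (s3 : D3 ⊆ A3) (j3 : G.Jn D3 b k) :
    D1 ∪ A2 ∪ D3 ∪ F ⊆ G.ins T ∧ G.Ev (D1 ∪ A2 ∪ D3 ∪ F) ∧ G.par (D1 ∪ A2 ∪ D3 ∪ F) = 1 := by
  obtain ⟨r1, r2, r3, -⟩ := k4.s1
  have d1 : Disjoint D1 A2 := k4.d12.mono_left s1
  have d2 : Disjoint (D1 ∪ A2) D3 :=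
    disjoint_union_left.2 ⟨k4.d13.mono s1 s3, k4.d23.mono_right s3⟩
  have h1 : D1 ∪ A2 ∪ D3 ⊆ ρ := union_subset (union_subset (s1.trans r1) r2) (s3.trans r3)
  have d3 : Disjoint (D1 ∪ A2 ∪ D3) F := (d.mono_right (h1.trans subset_union_left)).symm
  have o := (j1.2.1.union k4.j2.2.1 d1).union j3.2.1 d2
  exact ⟨union_subset (h1.trans k4.sub) hF, od_self.1 (o.union j.2.1.symm d3),
    by rw [par_union d3]; exact n.par h1 o⟩

/-- An arc whose ends are outside `Y` contains all of `R` or nothing.  HINT: an edge of `R ∩ B`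
has an end `v ∈ Y`; `v` reaches `k` in `R ∩ ins Y`, and `· ∈ vs B` is closed along such edges
(`mem_of_even`, `Od.other`). -/
theorem BaseY.avoid (bs : G.BaseY T Y R F w k) (hc : G.Cub) (hA : ρ ⊆ G.A) (hE : G.Ev ρ)
    (hR : R ⊆ ρ) (hB : B ⊆ ρ) (o : G.Od B u v) (hu : u ∉ Y) (hv : v ∉ Y) (hk : k ∉ G.vs B) :
    Disjoint R B := by
  refine disjoint_left.2 fun e h1 h2 => hk ?_
  obtain ⟨x, x1, x2⟩ : ∃ x ∈ Y, G.At e x := (mem_tch.1 (bs.tc h1)).2.elim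
    (fun q => ⟨_, q, Or.inl rfl⟩) fun q => ⟨_, q, Or.inr rfl⟩
  have key : ∀ f ∈ R, ∀ x ∈ Y, G.At f x → x ∈ G.vs B → f ∈ B := fun f hf x x1 x2 x3 =>
    mem_of_even hc hA (hE x) hB x3 (o.other (fun q => hu (q ▸ x1)) fun q => hv (q ▸ x1)) (hR hf) x2
  refine (bs.cn x (mem_inter.2 ⟨mem_vs.2 ⟨e, h1, x2⟩, x1⟩) k (mem_inter.2 ⟨bs.kr, bs.ky⟩)).closed
    (P := fun x => x ∈ G.vs B) (fun f hf => ?_) (mem_vs.2 ⟨e, h2, x2⟩)
  obtain ⟨f1, f2⟩ := mem_inter.1 hf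
  exact ⟨fun q => t_mem_vs (key f f1 _ (mem_ins.1 f2).2.1 (Or.inl rfl) q),
    fun q => s_mem_vs (key f f1 _ (mem_ins.1 f2).2.2 (Or.inr rfl) q)⟩

omit [Fintype V] in
theorem tw1_tch {e : E} (d : Disjoint (G.vs Z) Y) (h1 : e ∈ Z) (h2 : e ∈ G.tch Y) : False :=
  (mem_tch.1 h2).2.elim (disjoint_left.1 d (s_mem_vs h1)) (disjoint_left.1 d (t_mem_vs h1))

omit [Fintype V] in
theorem tw1_ins {e : E} (h1 : e ∈ G.ins (T \ Y)) (h2 : e ∈ G.tch Y) : False :=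
  (mem_tch.1 h2).2.elim (mem_sdiff.1 (mem_ins.1 h1).2.1).2 (mem_sdiff.1 (mem_ins.1 h1).2.2).2

namespace An

variable (n : G.An T Y R F w k ρ a a' b b' A1 A2 A3 A4 Z Z')
include n

theorem mir : G.An T Y R F w k ρ a' a b' b A1 A4 A3 A2 Z' Z :=
  ⟨n.k4.mir, n.tf', n.tf, n.dy', n.dy, n.mw, n.sr, n.ry, n.ng, by rw [union_comm]; exact n.ex⟩

/-- HINT: edges of `F` touch `Y`; `ry`, `df`, `dy`, `dy'`. -/
theorem dF (bs : G.BaseY T Y R F w k) : Disjoint F (ρ ∪ (Z ∪ Z')) := by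
  refine disjoint_left.2 fun e h1 h2 => ?_
  have h3 := bs.tf h1
  rw [mem_union, mem_union] at h2
  rcases h2 with q | q | q
  exacts [disjoint_left.1 bs.df h1 (n.ry e q h3), tw1_tch n.dy q h3, tw1_tch n.dy' q h3]

/-- HINT: a common vertex is `w`; the edges of `F` and `F0` at `w` are off the ring, so they are
equal (`third_unique`), but one touches `Y` and the other does not. -/
theorem dV (hc : G.Cub) (bs : G.BaseY T Y R F w k) (hF0 : F0 ⊆ G.ins (T \ Y))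
    (d0 : Disjoint F0 (ρ ∪ (Z ∪ Z'))) : Disjoint (G.vs F) (G.vs F0) := by
  refine disjoint_left.2 fun v h1 h2 => ?_
  obtain rfl := (bs.vf v h1).resolve_left (mem_sdiff.1 ((sub_ins_iff.1 hF0).2 h2)).2
  obtain ⟨e, e1, e2⟩ := SG.mem_vs.1 h1
  obtain ⟨f, f1, f2⟩ := SG.mem_vs.1 h2
  obtain rfl := third_unique hc n.k4.subA (vs_mono n.k4.s1.1 n.mw) (n.k4.cc.1.2.1 v)
    (ins_sub_A (bs.sf e1)) (ins_sub_A (hF0 f1))
    (fun q => disjoint_left.1 (n.dF bs) e1 (mem_union_left _ q))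
    (fun q => disjoint_left.1 d0 f1 (mem_union_left _ q)) e2 f2
  exact tw1_ins (hF0 f1) (bs.tf e1)

/-- HINT: `Ng.keep` with `K4.pot`; edges of `Z`, `Z'`, `ins (T \ Y)` do not touch `Y`;
`Rch.mono`. -/
theorem update (hc : G.Cub) {c c' d d' : V} {B1 B2 B3 B4 W W' : Finset E}
    (k4 : G.K4 T ρ' c c' d d' B1 B2 B3 B4 W W') (s : W ⊆ Z) (s' : W' ⊆ Z') (mw : w ∈ G.vs B1)
    (sr : R ⊆ B3) (hρ : ∀ e ∈ ρ', e ∈ ρ ∨ e ∈ Z ∨ e ∈ Z' ∨ e ∈ G.ins (T \ Y))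
    (r : G.Rch (ρ ∩ ρ') w k) : G.An T Y R F w k ρ' c c' d d' B1 B2 B3 B4 W W' := by
  refine ⟨k4, ndX_tf n.tf s, ndX_tf n.tf' s', n.dy.mono_left (vs_mono s),
    n.dy'.mono_left (vs_mono s'), mw, sr, fun e h1 h2 => ?_, n.ng.keep (k4.pot hc) r,
    fun e h1 h2 m h3 h4 => ?_⟩
  · rcases hρ e h1 with q | q | q | q
    exacts [n.ry e q h2, (tw1_tch n.dy q h2).elim, (tw1_tch n.dy' q h2).elim, (tw1_ins q h2).elim]
  · obtain ⟨x, x1, x2⟩ := n.ex e h1 h2 m h3 h4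
    exact ⟨x, x1, x2.mono (sdiff_subset_sdiff Subset.rfl (union_subset_union s s'))⟩

end An

end SG

end Pool.Agent.Work.MP_8c679b_co
end

-- merged part: Pool.Agent.Work.MP_8c679b_co.ND.Tw1b
section
/-!
Ears of an anchored ring.  For the vertex sets use `K4.vpt` (for a fixed vertex `v`), `K4.bpt`,
`vs_union`, `mem_union`, `vs_mono` and `grind`.
-/

set_option autoImplicit false

namespace Pool.Agent.Work.MP_8c679b_co

open Finset

namespace SG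

variable {V E : Type} [Fintype V] [DecidableEq V] [DecidableEq E] {G : SG V E}

variable {T Y : Finset V} {ρ ρ' A1 A2 A3 A4 Z Z' F F0 R B C D D1 D3 Za Zb Aa : Finset E}
  {a a' b b' u v w k y : V}

/-- An ear `F0` from `Z` to `y` on `A1` ends before the anchor.  HINT: otherwise `w` is an inner
vertex of `Aa` (`end_free`; `w ≠ y` by `dv`).  Split `Aa` at `w` and `A3` at `k` (`Cc.split` in
`k4.cc`).  The odd triangle `(k4.m1 ..).1.odd`, that is `F0 ∪ (A1 \ Aa) ∪ A2 ∪ (Z \ Za)`, misses the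
odd circuit `k4.mir.anc_odd` (part of `Aa` from `w` to `a`, `A4`, part of `A3` from `b'` to `k`,
`F`): `ear_meet` for `F` and `F0`, `vpt`, `bpt`, and `Cc.ends` (a vertex of `Aa` and of `ρ \ Aa` is
`a` or `y`).  `NCx.two_odd`. -/
theorem K4.side (h : G.NCx T) (k4 : G.K4 T ρ a a' b b' A1 A2 A3 A4 Z Z') (hF : F ⊆ G.ins T)
    (j : G.Jn F w k) (d : Disjoint F (ρ ∪ (Z ∪ Z'))) (n : G.Ng ρ F w k) (hk : k ∈ G.vs A3)
    (s : Za ⊆ Z) (j1 : G.Jn Za a u) (j2 : G.Jn (Z \ Za) u b) (n2 : a ∉ G.vs (Z \ Za))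
    (s' : Aa ⊆ A1) (j3 : G.Jn Aa a y) (j4 : G.Jn (A1 \ Aa) y a') (n3 : a' ∉ G.vs Aa)
    (n4 : a ∉ G.vs (A1 \ Aa)) (hF0 : F0 ⊆ G.ins T) (j0 : G.Jn F0 u y)
    (d0 : Disjoint F0 (ρ ∪ (Z ∪ Z'))) (dv : Disjoint (G.vs F) (G.vs F0)) : w ∉ G.vs Aa := by
  intro hw
  have hc := h.hc
  obtain ⟨s1, s2, s3, s4⟩ := k4.s1
  obtain ⟨wa, -, -, -⟩ := k4.end_free hc hF d j.left_mem
  obtain ⟨-, -, kb, kb'⟩ := k4.end_free hc hF d j.right_mem
  obtain ⟨B, sB, jB, -, nB, -⟩ := k4.cc.1.split hc k4.subA (s'.trans s1) j3 hw wa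
    fun q => disjoint_left.1 dv j.left_mem (q ▸ j0.right_mem)
  obtain ⟨D, sD, jD, -, nD, -⟩ := k4.cc.1.split hc k4.subA s3 k4.j3.symm hk kb' kb
  obtain ⟨c1, c2, c3⟩ := k4.mir.anc_odd hF j (by rwa [union_comm Z']) n (sB.trans s') jB.symm sD jD
  obtain ⟨e1, e2, e3⟩ := (k4.m1 h s j1 j2 s' j3 j4 hF0 j0 d0).1.odd
  have hu : u ∉ G.vs ρ := fun m =>
    (k4.zr hc (vs_mono s j1.right_mem) m).elim j1.1.symm j2.1
  have key : ∀ v, v ∈ G.vs B ∨ v ∈ G.vs A4 ∨ v ∈ G.vs D →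
      v ∉ G.vs (F0 ∪ (A1 \ Aa) ∪ A2 ∪ (Z \ Za)) := by
    intro v m1 m2
    rw [vs_union, vs_union, vs_union, mem_union, mem_union, mem_union] at m2
    have p := k4.vpt hc v
    have q := k4.bpt hc
    have q1 := @vs_mono _ _ _ _ G _ _ sB v
    have q2 := @vs_mono _ _ _ _ G _ _ s' v
    have q3 := @vs_mono _ _ _ _ G _ _ sD v
    have q4 := @vs_mono _ _ _ _ G _ _ (sdiff_subset (s := A1) (t := Aa)) v
    have q5 := @vs_mono _ _ _ _ G _ _ (sdiff_subset (s := Z) (t := Za)) v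
    have q6 : v ∈ G.vs F0 → v ∈ G.vs ρ → v = u ∨ v = y := fun x1 x2 =>
      k4.ear_meet hc (hF0.trans ins_sub_A) j0 d0 x1 (vs_mono subset_union_left x2)
    have q7 : v ∈ G.vs Aa → v ∈ G.vs (A1 \ Aa) → v = a ∨ v = y := fun x1 x2 =>
      k4.cc.1.ends hc k4.subA (s'.trans s1) j3.2.1 x1
        (vs_mono (sdiff_subset_sdiff s1 (Subset.refl _)) x2)
    have q8 := vs_mono s' j3.right_mem
    have q9 := j3.1
    clear * - m1 m2 p q q1 q2 q3 q4 q5 q6 q7 q8 q9 hu nB nD n2 n3 n4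
    grind
  refine h.two_odd c1 e3 c2 e1.2.1 c3 e2 (disjoint_left.2 fun v m1 m2 => ?_)
  rw [vs_union, vs_union, vs_union, mem_union, mem_union, mem_union,
    @or_assoc (v ∈ G.vs B)] at m1
  rcases m1 with m1 | m1
  · exact key v m1 m2
  have m3 := m2
  rw [union_assoc, union_assoc, vs_union, mem_union] at m3
  rcases m3 with m3 | m3
  · exact disjoint_left.1 dv m1 m3
  rcases k4.ear_meet hc (hF.trans ins_sub_A) j d m1 (vs_mono (union_subset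
    ((sdiff_subset.trans s1).trans subset_union_left) (union_subset_union s2
      (sdiff_subset.trans subset_union_left))) m3) with rfl | rfl
  · exact key _ (Or.inl jB.right_mem) m2
  · exact key _ (Or.inr (Or.inr jD.right_mem)) m2

/-- An ear `F0` from `Z` to `Z'` forms an even circuit with `A4`.  HINT: split `A1` at `w` and `A3`
at `k`; `A4 ∪ Zb ∪ F0 ∪ Za` is an even-degree set that misses the odd circuit `anc_odd`. -/
theorem K4.even4 (h : G.NCx T) (k4 : G.K4 T ρ a a' b b' A1 A2 A3 A4 Z Z') (hF : F ⊆ G.ins T)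
    (j : G.Jn F w k) (d : Disjoint F (ρ ∪ (Z ∪ Z'))) (n : G.Ng ρ F w k) (hw : w ∈ G.vs A1)
    (hk : k ∈ G.vs A3) (s : Za ⊆ Z) (j1 : G.Jn Za a u) (n1 : b ∉ G.vs Za) (s' : Zb ⊆ Z')
    (j3 : G.Jn Zb b' y) (n3 : a' ∉ G.vs Zb) (hF0 : F0 ⊆ G.ins T) (j0 : G.Jn F0 u y)
    (d0 : Disjoint F0 (ρ ∪ (Z ∪ Z'))) (dv : Disjoint (G.vs F) (G.vs F0)) :
    G.par A4 + G.par Zb + G.par F0 + G.par Za = 0 := by
  have hc := h.hc
  obtain ⟨s1, s2, s3, s4⟩ := k4.s1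
  obtain ⟨wa, wa', -, -⟩ := k4.end_free hc hF d j.left_mem
  obtain ⟨-, -, kb, kb'⟩ := k4.end_free hc hF d j.right_mem
  obtain ⟨B, sB, jB, -, nB, -⟩ := k4.cc.1.split hc k4.subA s1 k4.j1.symm hw wa' wa
  obtain ⟨D, sD, jD, -, nD, -⟩ := k4.cc.1.split hc k4.subA s3 k4.j3 hk kb kb'
  obtain ⟨c1, c2, c3⟩ := k4.anc_odd hF j d n sB jB.symm sD jD
  have dd : Disjoint A4 Zb ∧ Disjoint (A4 ∪ Zb) Za ∧ Disjoint (A4 ∪ Zb ∪ Za) F0 := by
    refine ⟨?_, ?_, ?_⟩ <;>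
    · refine disjoint_left.2 fun e m n => ?_
      have p := ndK2_pt k4 d0 e
      have q := @s e
      have q' := @s' e
      clear * - p q q' m n
      grind
  obtain ⟨d1, d2, d3⟩ := dd
  have sub : A4 ∪ Zb ∪ Za ⊆ ρ ∪ (Z ∪ Z') := union_subset
    (union_subset_union s4 (s'.trans subset_union_right))
    ((s.trans subset_union_left).trans subset_union_right)
  have key : ∀ v, v ∈ G.vs B ∨ v ∈ G.vs A2 ∨ v ∈ G.vs D → v ∉ G.vs (A4 ∪ Zb ∪ Za) := by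
    intro v m1 m2
    rw [vs_union, vs_union, mem_union, mem_union] at m2
    have p := k4.vpt hc v
    have q := k4.bpt hc
    have q1 := @vs_mono _ _ _ _ G _ _ sB v
    have q2 := @vs_mono _ _ _ _ G _ _ s' v
    have q3 := @vs_mono _ _ _ _ G _ _ sD v
    have q4 := @vs_mono _ _ _ _ G _ _ s v
    clear * - m1 m2 p q q1 q2 q3 q4 nB nD n1 n3
    grind
  refine (z2 _).resolve_right fun o => h.two_odd c1 (D := A4 ∪ Zb ∪ Za ∪ F0)
    (union_subset (union_subset (union_subset (s4.trans k4.sub) (s'.trans k4.sz'))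
      (s.trans k4.sz)) hF0) c2 ?_ c3 ?_ (disjoint_left.2 fun v m1 m2 => ?_)
  · rw [union_comm _ Za] at d3 ⊢
    exact od_self.1 ((j1.2.1.symm.union (k4.j4.2.1.symm.union j3.2.1 d1) d2.symm).union
      j0.2.1.symm d3)
  · rw [par_union d3, par_union d2, par_union d1, add_right_comm, o]
  rw [vs_union, vs_union, vs_union, mem_union, mem_union, mem_union,
    @or_assoc (v ∈ G.vs B)] at m1
  rw [vs_union, mem_union] at m2
  rcases m1 with m1 | m1 <;> rcases m2 with m2 | m2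
  · exact key v m1 m2
  · have m3 : v ∈ G.vs ρ := by
      rcases m1 with m | m | m
      exacts [vs_mono (sB.trans s1) m, vs_mono s2 m, vs_mono (sD.trans s3) m]
    rcases k4.ear_meet hc (hF0.trans ins_sub_A) j0 d0 m2 (vs_mono subset_union_left m3) with
      rfl | rfl
    · exact key _ m1 (vs_mono subset_union_right j1.right_mem)
    · exact key _ m1 (vs_mono (subset_union_right.trans subset_union_left) j3.right_mem)
  · rcases k4.ear_meet hc (hF.trans ins_sub_A) j d m1 (vs_mono sub m2) with rfl | rfl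
    · exact key _ (Or.inl jB.right_mem) m2
    · exact key _ (Or.inr (Or.inr jD.right_mem)) m2
  · exact disjoint_left.1 dv m1 m2

end SG

end Pool.Agent.Work.MP_8c679b_co
end

-- merged part: Pool.Agent.Work.MP_8c679b_co.ND.Tw2
section
/-!
Shortening the two paths of an anchored ring.
-/

set_option autoImplicit false

namespace Pool.Agent.Work.MP_8c679b_co

open Finset

namespace SG

variable {V E : Type} [Fintype V] [DecidableEq V] [DecidableEq E] {G : SG V E}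

variable {T Y : Finset V} {ρ A1 A2 A3 A4 Z Z' F F0 R S B : Finset E} {a a' b b' u w k y : V}

omit [Fintype V] in
theorem Jn.rch (j : G.Jn B a b) (hu : u ∈ G.vs B) (hw : w ∈ G.vs B) (hS : B ⊆ S) : G.Rch S u w :=
  (j.2.2 u hu w hw).mono hS

namespace An

variable (n : G.An T Y R F w k ρ a a' b b' A1 A2 A3 A4 Z Z')
include n

theorem st1 (h : G.NCx T) (bs : G.BaseY T Y R F w k) (hu : u ∈ G.vs Z) (ua : u ≠ a) (ub : u ≠ b)
    (hy : y ∈ G.vs A1) (ya : y ≠ a) (ya' : y ≠ a') (hF : F0 ⊆ G.ins (T \ Y)) (j : G.Jn F0 u y)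
    (d : Disjoint F0 (ρ ∪ (Z ∪ Z'))) :
    ∃ m, m < Z.card + Z'.card ∧ G.AnS T Y R F w k m := by
  have k4 := n.k4
  have hF' := hF.trans (ins_mono sdiff_subset)
  obtain ⟨r1, r2, r3, r4⟩ := k4.s1
  obtain ⟨Za, s, j1, j2, -, n2⟩ := k4.odd.1.split h.hc (k4.odd.2.2.trans ins_sub_A)
    subset_union_right k4.jz hu ua ub
  obtain ⟨Aa, s', j3, j4, n3, n4⟩ := k4.cc.1.split h.hc k4.subA r1 k4.j1 hy ya ya'
  have k' := (k4.m1 h s j1 j2 s' j3 j4 hF' j d).1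
  have hw : w ∈ G.vs (A1 \ Aa) := ((vs_split s').1 n.mw).resolve_left
    (k4.side h bs.sf bs.jf (n.dF bs) n.ng (vs_mono n.sr bs.kr) s j1 j2 n2 s' j3 j4 n3 n4 hF' j d
      (n.dV h.hc bs hF d))
  obtain ⟨q1, q2, q3, -⟩ := k'.s1
  refine ⟨_, Nat.add_lt_add_right (card_lt_card (sdiff_ssubset s j1.nonempty)) _,
    _, _, _, _, _, _, _, _, _, _, _, n.update h.hc k' sdiff_subset Subset.rfl
      (vs_mono subset_union_right hw) n.sr (fun e he => ?_)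
      (((j4.rch hw j4.right_mem (subset_inter (sdiff_subset.trans r1)
        (subset_union_right.trans q1))).trans (k4.j2.rch k4.j2.left_mem k4.j2.right_mem
        (subset_inter r2 q2))).trans (k4.j3.rch k4.j3.left_mem (vs_mono n.sr bs.kr)
        (subset_inter r3 q3))), rfl⟩
  simp only [mem_union, mem_sdiff] at he
  rcases he with ((m | m) | m) | m | m | m
  exacts [Or.inr (Or.inr (Or.inr (hF m))), Or.inl (r1 m.1), Or.inl (r2 m), Or.inl (r3 m),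
    Or.inl (r4 m), Or.inr (Or.inl (s m))]

theorem st4 (h : G.NCx T) (bs : G.BaseY T Y R F w k) (hu : u ∈ G.vs Z) (ua : u ≠ a) (ub : u ≠ b)
    (hy : y ∈ G.vs A4) (ya : y ≠ a) (yb : y ≠ b') (hF : F0 ⊆ G.ins (T \ Y)) (j : G.Jn F0 u y)
    (d : Disjoint F0 (ρ ∪ (Z ∪ Z'))) :
    ∃ m, m < Z.card + Z'.card ∧ G.AnS T Y R F w k m := by
  have k4 := n.k4
  have hF' := hF.trans (ins_mono sdiff_subset)
  obtain ⟨r1, r2, r3, r4⟩ := k4.s1
  obtain ⟨Za, s, j1, j2, -, -⟩ := k4.odd.1.split h.hc (k4.odd.2.2.trans ins_sub_A)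
    subset_union_right k4.jz hu ua ub
  obtain ⟨Aa, s', j3, j4, -, -⟩ := k4.cc.1.split h.hc k4.subA r4 k4.j4.symm hy ya yb
  have k' := (k4.flip.m1 h s j1 j2 s' j3 j4 hF' j d).1.flip
  obtain ⟨q1, q2, q3, -⟩ := k'.s1
  refine ⟨_, Nat.add_lt_add_right (card_lt_card (sdiff_ssubset s j1.nonempty)) _,
    _, _, _, _, _, _, _, _, _, _, _, n.update h.hc k' sdiff_subset Subset.rfl
      (vs_mono subset_union_left n.mw) n.sr (fun e he => ?_)
      (((k4.j1.rch n.mw k4.j1.right_mem (subset_inter r1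
        (subset_union_left.trans q1))).trans (k4.j2.rch k4.j2.left_mem k4.j2.right_mem
        (subset_inter r2 q2))).trans (k4.j3.rch k4.j3.left_mem (vs_mono n.sr bs.kr)
        (subset_inter r3 q3))), rfl⟩
  simp only [mem_union, mem_sdiff] at he
  rcases he with ((m | m) | m) | m | m | m
  exacts [Or.inr (Or.inr (Or.inr (hF m))), Or.inl (r4 m.1), Or.inl (r3 m), Or.inl (r2 m),
    Or.inl (r1 m), Or.inr (Or.inl (s m))]

theorem st3 (h : G.NCx T) (bs : G.BaseY T Y R F w k) (hu : u ∈ G.vs Z) (ua : u ≠ a) (ub : u ≠ b)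
    (hy : y ∈ G.vs A3) (yb : y ≠ b) (yb' : y ≠ b') (hF : F0 ⊆ G.ins (T \ Y)) (j : G.Jn F0 u y)
    (d : Disjoint F0 (ρ ∪ (Z ∪ Z'))) :
    ∃ m, m < Z.card + Z'.card ∧ G.AnS T Y R F w k m := by
  have k4 := n.k4
  have hF' := hF.trans (ins_mono sdiff_subset)
  obtain ⟨r1, r2, r3, r4⟩ := k4.s1
  obtain ⟨Za, s, j1, j2, -, n2⟩ := k4.odd.1.split h.hc (k4.odd.2.2.trans ins_sub_A)
    subset_union_right k4.jz.symm hu ub ua
  obtain ⟨Aa, s', j3, j4, n3, n4⟩ := k4.cc.1.split h.hc k4.subA r3 k4.j3 hy yb yb'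
  have k' := (k4.rot.rot.m1 h s j1 j2 s' j3 j4 hF' j d).1.rot.rot
  have hk : k ∉ G.vs Aa :=
    k4.rot.rot.side h bs.sf bs.jf.symm (n.dF bs) n.ng.symm n.mw s j1 j2 n2 s' j3 j4 n3 n4 hF' j d
      (n.dV h.hc bs hF d)
  have hk' : k ∈ G.vs (A3 \ Aa) := ((vs_split s').1 (vs_mono n.sr bs.kr)).resolve_left hk
  have hR : Disjoint R Aa := bs.avoid h.hc k4.subA k4.cc.1.2.1 (n.sr.trans r3) (s'.trans r3) j3.2.1
    (disjoint_left.1 n.dy k4.jz.right_mem)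
    (mem_sdiff.1 ((sub_ins_iff.1 hF).2 j.right_mem)).2 hk
  obtain ⟨q1, -, q3, q4⟩ := k'.s1
  refine ⟨_, Nat.add_lt_add_right (card_lt_card (sdiff_ssubset s j1.nonempty)) _,
    _, _, _, _, _, _, _, _, _, _, _, n.update h.hc k' sdiff_subset Subset.rfl n.mw
      ((subset_sdiff.2 ⟨n.sr, hR⟩).trans subset_union_right) (fun e he => ?_)
      (((k4.j1.rch n.mw k4.j1.left_mem (subset_inter r1 q1)).trans
        (k4.j4.rch k4.j4.right_mem k4.j4.left_mem (subset_inter r4 q4))).trans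
        (j4.rch j4.right_mem hk' (subset_inter (sdiff_subset.trans r3)
          (subset_union_right.trans q3)))), rfl⟩
  simp only [mem_union, mem_sdiff] at he
  rcases he with ((m | m) | m) | m | m | m
  exacts [Or.inr (Or.inr (Or.inr (hF m))), Or.inl (r3 m.1), Or.inl (r4 m), Or.inl (r1 m),
    Or.inl (r2 m), Or.inr (Or.inl (s m))]

theorem st2 (h : G.NCx T) (bs : G.BaseY T Y R F w k) (hu : u ∈ G.vs Z) (ua : u ≠ a) (ub : u ≠ b)
    (hy : y ∈ G.vs A2) (ya : y ≠ a') (yb : y ≠ b) (hF : F0 ⊆ G.ins (T \ Y)) (j : G.Jn F0 u y)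
    (d : Disjoint F0 (ρ ∪ (Z ∪ Z'))) :
    ∃ m, m < Z.card + Z'.card ∧ G.AnS T Y R F w k m := by
  have k4 := n.k4
  have hF' := hF.trans (ins_mono sdiff_subset)
  obtain ⟨r1, r2, r3, r4⟩ := k4.s1
  obtain ⟨Za, s, j1, j2, -, -⟩ := k4.odd.1.split h.hc (k4.odd.2.2.trans ins_sub_A)
    subset_union_right k4.jz.symm hu ub ua
  obtain ⟨Aa, s', j3, j4, -, -⟩ := k4.cc.1.split h.hc k4.subA r2 k4.j2.symm hy yb ya
  have k' := (k4.rot.rot.flip.m1 h s j1 j2 s' j3 j4 hF' j d).1.flip.rot.rot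
  obtain ⟨q1, -, q3, q4⟩ := k'.s1
  refine ⟨_, Nat.add_lt_add_right (card_lt_card (sdiff_ssubset s j1.nonempty)) _,
    _, _, _, _, _, _, _, _, _, _, _, n.update h.hc k' sdiff_subset Subset.rfl n.mw
      (n.sr.trans subset_union_left) (fun e he => ?_)
      (((k4.j1.rch n.mw k4.j1.left_mem (subset_inter r1 q1)).trans
        (k4.j4.rch k4.j4.right_mem k4.j4.left_mem (subset_inter r4 q4))).trans
        (k4.j3.rch k4.j3.right_mem (vs_mono n.sr bs.kr) (subset_inter r3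
          (subset_union_left.trans q3)))), rfl⟩
  simp only [mem_union, mem_sdiff] at he
  rcases he with ((m | m) | m) | m | m | m
  exacts [Or.inr (Or.inr (Or.inr (hF m))), Or.inl (r2 m.1), Or.inl (r1 m), Or.inl (r4 m),
    Or.inl (r3 m), Or.inr (Or.inl (s m))]

theorem st5 (h : G.NCx T) (bs : G.BaseY T Y R F w k) (hu : u ∈ G.vs Z) (ua : u ≠ a) (ub : u ≠ b)
    (hy : y ∈ G.vs Z') (ya : y ≠ a') (yb : y ≠ b') (hF : F0 ⊆ G.ins (T \ Y)) (j : G.Jn F0 u y)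
    (d : Disjoint F0 (ρ ∪ (Z ∪ Z'))) :
    ∃ m, m < Z.card + Z'.card ∧ G.AnS T Y R F w k m := by
  have k4 := n.k4
  have hF' := hF.trans (ins_mono sdiff_subset)
  obtain ⟨r1, r2, r3, r4⟩ := k4.s1
  obtain ⟨Za, s, j1, j2, n1, -⟩ := k4.odd.1.split h.hc (k4.odd.2.2.trans ins_sub_A)
    subset_union_right k4.jz hu ua ub
  obtain ⟨Zb, s', j3, j4, n3, -⟩ := k4.rot.odd.1.split h.hc (k4.rot.odd.2.2.trans ins_sub_A)
    subset_union_right k4.jz'.symm hy yb ya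
  have k' := (k4.flip.m2 h s j1 j2 s' j3 j4 hF' j d
    (k4.even4 h bs.sf bs.jf (n.dF bs) n.ng n.mw (vs_mono n.sr bs.kr) s j1 n1 s' j3 n3 hF' j d
      (n.dV h.hc bs hF d))).flip
  obtain ⟨q1, q2, q3, -⟩ := k'.s1
  refine ⟨_, Nat.add_lt_add_of_lt_of_le (card_lt_card (sdiff_ssubset s j1.nonempty))
    (card_le_card sdiff_subset),
    _, _, _, _, _, _, _, _, _, _, _, n.update h.hc k' sdiff_subset sdiff_subset
      (vs_mono subset_union_left n.mw) (n.sr.trans subset_union_right) (fun e he => ?_)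
      (((k4.j1.rch n.mw k4.j1.right_mem (subset_inter r1
        (subset_union_left.trans q1))).trans (k4.j2.rch k4.j2.left_mem k4.j2.right_mem
        (subset_inter r2 q2))).trans (k4.j3.rch k4.j3.left_mem (vs_mono n.sr bs.kr)
        (subset_inter r3 (subset_union_right.trans q3)))), rfl⟩
  simp only [mem_union] at he
  rcases he with (m | m | m) | m | m | m
  exacts [Or.inr (Or.inr (Or.inr (hF m))), Or.inr (Or.inr (Or.inl (s' m))), Or.inl (r3 m),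
    Or.inl (r2 m), Or.inl (r1 m), Or.inr (Or.inl (s m))]

theorem step (h : G.NCx T) (bs : G.BaseY T Y R F w k) (h2 : 2 ≤ Z.card) :
    ∃ m, m < Z.card + Z'.card ∧ G.AnS T Y R F w k m := by
  obtain ⟨u, y, F0, hu, ua, ub, hy, ya, ya', yb, yb', hF, j, d⟩ := n.k4.exists_ear (Y := Y) h n.tf
    h2 n.dy fun e he he' m h1 h3 => by
      obtain ⟨x, x1, x2⟩ := n.ex e he he' m h1 h3
      exact ⟨x, x1.elim (fun q => vs_mono (n.sr.trans n.k4.s1.2.2.1) q)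
        fun q => q ▸ vs_mono n.k4.s1.1 n.mw, x2⟩
  rcases hy with hy | hy
  · rcases n.k4.mem_vs.1 hy with hy | hy | hy | hy
    · exact n.st1 h bs hu ua ub hy ya ya' hF j d
    · exact n.st2 h bs hu ua ub hy ya' yb hF j d
    · exact n.st3 h bs hu ua ub hy yb yb' hF j d
    · exact n.st4 h bs hu ua ub hy ya yb' hF j d
  · exact n.st5 h bs hu ua ub hy ya' yb' hF j d

end An

/-- an anchored ring can be shortened to a ring with two chords through `R` and `w` -/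
theorem AnS.shr (h : G.NCx T) (bs : G.BaseY T Y R F w k) {m : ℕ} (n : G.AnS T Y R F w k m) :
    ∃ ρ, G.Kch T ρ ∧ R ⊆ ρ ∧ w ∈ G.vs ρ := by
  induction m using Nat.strong_induction_on with
  | _ m ih =>
    obtain ⟨ρ, a, a', b, b', A1, A2, A3, A4, Z, Z', n, rfl⟩ := n
    by_cases h1 : 2 ≤ Z.card
    · obtain ⟨m, h3, h4⟩ := n.step h bs h1
      exact ih m h3 h4
    by_cases h2 : 2 ≤ Z'.card
    · obtain ⟨m, h3, h4⟩ := n.mir.step h bs h2
      exact ih m (by omega) h4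
    have h3 := n.k4.jz.nonempty.card_pos
    have h4 := n.k4.jz'.nonempty.card_pos
    obtain ⟨z, rfl⟩ := card_eq_one.1 (show Z.card = 1 by omega)
    obtain ⟨z', rfl⟩ := card_eq_one.1 (show Z'.card = 1 by omega)
    exact ⟨ρ, ⟨a, a', b, b', A1, A2, A3, A4, z, z', n.k4⟩, n.sr.trans n.k4.s1.2.2.1,
      vs_mono n.k4.s1.1 n.mw⟩

end SG

end Pool.Agent.Work.MP_8c679b_co
end

-- merged part: Pool.Agent.Work.MP_8c679b_co.ND.Tw3
section
/-!
The two twisted rings.  Edge disjointness: pointwise as in `K4.m1` (`ndK2_pt` with `F := R`, then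
`grind`).  Vertex sets: `K4.vpt`, `K4.bpt`.  Parities: for a path `P` from `u` to `v` on which the
potential `p` is positive, `par P = p u + p v` (`tw3_par`); the chords are negative (`K4.neg` for
`k4` and `k4.rot`, `Od.par_eq`).
-/

set_option autoImplicit false

namespace Pool.Agent.Work.MP_8c679b_co

open Finset

namespace SG

variable {V E : Type} [Fintype V] [DecidableEq V] [DecidableEq E] {G : SG V E}

variable {T Y : Finset V} {ρ A1 A2 A3 A4 B1 B2 B3 F R P : Finset E} {z z' g1 g2 g3 : E}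
  {a a' b b' u v w k x1 x2 x3 y1 y2 y3 : V} {p : V → ZMod 2}

theorem tw3_par (o : G.Od P u v) (hp : ∀ e ∈ P, G.sw p e = 0) : G.par P = p u + p v := by
  have h := o.par_eq p
  rw [sum_eq_zero hp] at h
  linear_combination -h - z2_add_self (p u) - z2_add_self (p v)

/-- Edges at `Y` are off the configuration.  HINT: `Y` misses `vs ρ`; `K4.ndK_chord`. -/
theorem tw3_off (k4 : G.K4 T ρ a a' b b' A1 A2 A3 A4 {z} {z'}) (hY : G.Cls (T \ G.vs ρ) Y)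
    (hP : P ⊆ G.tch Y) : Disjoint P (ρ ∪ ({z} ∪ {z'})) := by
  refine disjoint_left.2 fun e m n => ?_
  have s : G.vs (ρ ∪ ({z} ∪ {z'})) ⊆ G.vs ρ := by
    rw [vs_union, vs_union]
    exact union_subset Subset.rfl (union_subset k4.ndK_chord k4.rot.ndK_chord)
  rcases (mem_tch.1 (hP m)).2 with q | q
  · exact (mem_sdiff.1 (hY.1 q)).2 (s (s_mem_vs n))
  · exact (mem_sdiff.1 (hY.1 q)).2 (s (t_mem_vs n))

/-- the diagonal twisted ring `a' A2 b z a B1 x1 R x3 (A3 \ B3) b' z' a'` -/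
theorem tw3_kD (h : G.NCx T) (k4 : G.K4 T ρ a a' b b' A1 A2 A3 A4 {z} {z'})
    (hY : G.Cls (T \ G.vs ρ) Y) (hp : G.PotY T Y ρ p) (h1 : G.HitY Y A1 B1 a a' x1 y1 g1)
    (h3 : G.HitY Y A3 B3 b b' x3 y3 g3) (r : G.EarY T Y R x1 x3) :
    G.K4 T (A2 ∪ ({z} ∪ B1) ∪ (R ∪ (A3 \ B3 ∪ {z'}))) a' b x1 x3 A2 ({z} ∪ B1) R (A3 \ B3 ∪ {z'})
      (A1 \ B1) B3 := by
  have hc := h.hc
  obtain ⟨s1, s2, s3, s4⟩ := k4.s1
  have pt := ndK2_pt k4 (tw3_off k4 hY r.tc)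
  have dd : Disjoint {z} B1 ∧ Disjoint (A3 \ B3) {z'} ∧ Disjoint A2 ({z} ∪ B1) ∧ Disjoint A2 R ∧
      Disjoint A2 (A3 \ B3 ∪ {z'}) ∧ Disjoint ({z} ∪ B1) R ∧
      Disjoint ({z} ∪ B1) (A3 \ B3 ∪ {z'}) ∧ Disjoint R (A3 \ B3 ∪ {z'}) ∧
      Disjoint (A1 \ B1) (A2 ∪ ({z} ∪ B1) ∪ (R ∪ (A3 \ B3 ∪ {z'}))) ∧
      Disjoint B3 (A2 ∪ ({z} ∪ B1) ∪ (R ∪ (A3 \ B3 ∪ {z'}))) := by
    refine ⟨?_, ?_, ?_, ?_, ?_, ?_, ?_, ?_, ?_, ?_⟩ <;>
    · refine disjoint_left.2 fun e m n => ?_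
      have u := pt e
      have q := @h1.sub e
      have q' := @h3.sub e
      clear * - u q q' m n
      grind
  obtain ⟨d1, d2, d3, d4, d5, d6, d7, d8, d9, d10⟩ := dd
  obtain ⟨-, ⟨-, -, n3, -⟩, ⟨n1, -⟩, -⟩ := k4.bpt hc
  have e1 := k4.neg hp.1
  have e2 := k4.rot.neg hp.1
  rw [k4.jz.2.1.par_eq p] at e1
  rw [k4.jz'.2.1.par_eq p] at e2
  have p1 := tw3_par h1.j1.2.1 fun e he => hp.1 e (s1 (h1.sub he))
  have p2 := tw3_par h1.j2.2.1 fun e he => hp.1 e (s1 (sdiff_subset he))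
  have p3 := tw3_par h3.j1.2.1 fun e he => hp.1 e (s3 (h3.sub he))
  have p4 := tw3_par h3.j2.2.1 fun e he => hp.1 e (s3 (sdiff_subset he))
  have p5 := tw3_par r.jn.2.1 fun e he => hp.2 e (r.sub he) (r.tc he)
  refine ⟨rfl, ?_, k4.j2, k4.jz.symm.union h1.j1 d1 fun q => ?_, r.jn,
    h3.j2.union k4.jz'.symm d2 fun q => ?_, d3, d4, d5, d6, d7, d8,
    sdiff_subset.trans (s1.trans k4.sub), h3.sub.trans (s3.trans k4.sub), h1.j2.symm, h3.j1, d9,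
    d10, (k4.opp hc).mono (vs_mono sdiff_subset) (vs_mono h3.sub), ?_, ?_, ?_⟩
  · exact union_subset (union_subset (s2.trans k4.sub) (union_subset k4.sz
      (h1.sub.trans (s1.trans k4.sub)))) (union_subset r.sub (union_subset
        (sdiff_subset.trans (s3.trans k4.sub)) k4.sz'))
  · exact n1 (q ▸ vs_mono h1.sub h1.j1.right_mem)
  · exact n3 (q ▸ vs_mono h3.sub h3.j1.right_mem)
  · rw [par_union d1, par_sdiff h1.sub]
    linear_combination k4.o1 + z2_add_self (G.par B1)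
  · rw [par_union d1, p1, p3, p5]
    linear_combination e1 + z2_add_self (p x1) + z2_add_self (p x3)
  · rw [par_union d2, p2, p4, p5]
    linear_combination e2 + z2_add_self (p x1) + z2_add_self (p x3)

/-- HINT for `ng`: let `q` be the potential of the new ring (`K4.pot`).  `p + q` is constant on
`A2` and on `B1 ∪ R` (`ndK_const`) and changes along `z`; `par F = p w + p k`.
For `ex`: a vertex of `A4` reaches `a` in `A4` and then `x1` in `B1`. -/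
theorem anD (h : G.NCx T) (k4 : G.K4 T ρ a a' b b' A1 A2 A3 A4 {z} {z'})
    (hY : G.Cls (T \ G.vs ρ) Y) (hp : G.PotY T Y ρ p) (h1 : G.HitY Y A1 B1 a a' x1 y1 g1)
    (h3 : G.HitY Y A3 B3 b b' x3 y3 g3) (r : G.EarY T Y R x1 x3) (bs : G.BaseY T Y R F w k)
    (mw : w ∈ G.vs A2) (tf : G.Tf T (A1 \ B1)) (tf' : G.Tf T B3)
    (ex : ∀ e ∈ G.cut Y, e ∈ G.ins T → ∀ n, G.At e n → n ∉ Y →
      n = x1 ∨ n = x3 ∨ n = w ∨ n ∈ G.vs A4) :
    G.An T Y R F w k (A2 ∪ ({z} ∪ B1) ∪ (R ∪ (A3 \ B3 ∪ {z'}))) a' b x1 x3 A2 ({z} ∪ B1) R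
      (A3 \ B3 ∪ {z'}) (A1 \ B1) B3 := by
  have hc := h.hc
  have k' := tw3_kD h k4 hY hp h1 h3 r
  obtain ⟨s1, s2, s3, s4⟩ := k4.s1
  obtain ⟨q1, q2, q3, -⟩ := k'.s1
  have dY : Disjoint (G.vs ρ) Y := disjoint_left.2 fun v m n => (mem_sdiff.1 (hY.1 n)).2 m
  have sY : ρ ⊆ G.ins (T \ Y) := sub_ins_iff.2 ⟨k4.subA, subset_sdiff.2 ⟨k4.vs_sub, dY⟩⟩
  have pt := ndK2_pt k4 (tw3_off k4 hY Subset.rfl)
  refine ⟨k', tf, tf', dY.mono_left (vs_mono (sdiff_subset.trans s1)),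
    dY.mono_left (vs_mono (h3.sub.trans s3)), mw, Subset.rfl, fun e m n => ?_, ?_,
    fun e he he' n hn hn' => ?_⟩
  · have u := (pt e).2.2.2.2.2 n
    have q := @h1.sub e
    clear * - u q m
    grind
  · obtain ⟨q, hq⟩ := k'.pot hc
    have c1 := ndK_const (fun e he => hp.1 e (s2 he)) (fun e he => hq e (q1 he))
      (k4.j2.2.2 w mw b k4.j2.right_mem)
    have c2 := ndK_const (fun e he => hp.2 e (r.sub he) (r.tc he)) (fun e he => hq e (q3 he))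
      (r.jn.2.2 k bs.kr x1 r.jn.left_mem)
    have c3 := ndK_const (fun e he => hp.1 e (s1 (h1.sub he)))
      (fun e he => hq e (q2 (mem_union_right _ he)))
      (h1.j1.2.2 x1 h1.j1.right_mem a h1.j1.left_mem)
    have e1 := k4.neg hp.1
    rw [k4.jz.2.1.par_eq p] at e1
    have e2 := tw3_par k4.jz.2.1 fun e he => hq e (q2 (mem_union_left _ he))
    have e3 := tw3_par bs.jf.2.1 fun e he => hp.2 e (bs.sf he) (bs.tf he)
    exact ⟨q, hq, by linear_combination e3 + c1 + c2 + c3 + e1 - e2⟩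
  · have sb : ∀ {B : Finset E}, B ⊆ A4 ∨ B ⊆ B1 → B ⊆ G.ins (T \ Y) \ (A1 \ B1 ∪ B3) := by
      intro B hB f hf
      refine mem_sdiff.2 ⟨sY (hB.elim (fun s => s4 (s hf)) fun s => s1 (h1.sub (s hf))), ?_⟩
      have u := pt f
      have q := @h1.sub f
      have q' := @h3.sub f
      have m : f ∈ A4 ∨ f ∈ B1 := hB.imp (fun s => s hf) fun s => s hf
      clear * - u q q' m
      grind
    rcases ex e he he' n hn hn' with m | m | m | m
    · exact ⟨n, Or.inl (m ▸ r.jn.left_mem), Rch.refl _ _⟩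
    · exact ⟨n, Or.inl (m ▸ r.jn.right_mem), Rch.refl _ _⟩
    · exact ⟨n, Or.inr m, Rch.refl _ _⟩
    · exact ⟨x1, Or.inl r.jn.left_mem,
        ((k4.j4.2.2 n m a k4.j4.right_mem).mono (sb (Or.inl Subset.rfl))).trans
        ((h1.j1.2.2 a h1.j1.left_mem x1 h1.j1.right_mem).mono (sb (Or.inr Subset.rfl)))⟩

end SG

end Pool.Agent.Work.MP_8c679b_co
end

-- merged part: Pool.Agent.Work.MP_8c679b_co.ND.Tw3b
section
/-!
The adjacent twisted ring; see the hints at the head of `Tw3`.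
-/

set_option autoImplicit false

namespace Pool.Agent.Work.MP_8c679b_co

open Finset

namespace SG

variable {V E : Type} [Fintype V] [DecidableEq V] [DecidableEq E] {G : SG V E}

variable {T Y : Finset V} {ρ A1 A2 A3 A4 B1 B2 B3 F R P : Finset E} {z z' g1 g2 g3 : E}
  {a a' b b' u v w k x1 x2 x3 y1 y2 y3 : V} {p : V → ZMod 2}

/-- the adjacent twisted ring `b A3 b' z' a' B2 x2 R x1 B1 a z b` -/
theorem tw3_kA (h : G.NCx T) (k4 : G.K4 T ρ a a' b b' A1 A2 A3 A4 {z} {z'})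
    (hY : G.Cls (T \ G.vs ρ) Y) (hp : G.PotY T Y ρ p) (h1 : G.HitY Y A1 B1 a a' x1 y1 g1)
    (h2 : G.HitY Y A2 B2 a' b x2 y2 g2) (r : G.EarY T Y R x2 x1) :
    G.K4 T (A3 ∪ ({z'} ∪ B2) ∪ (R ∪ B1 ∪ {z})) b b' x2 a A3 ({z'} ∪ B2) (R ∪ B1) {z}
      (A2 \ B2) A4 := by
  have hc := h.hc
  obtain ⟨s1, s2, s3, s4⟩ := k4.s1
  have pt := ndK2_pt k4 (tw3_off k4 hY r.tc)
  have dd : Disjoint {z'} B2 ∧ Disjoint R B1 ∧ Disjoint A3 ({z'} ∪ B2) ∧ Disjoint A3 (R ∪ B1) ∧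
      Disjoint A3 {z} ∧ Disjoint ({z'} ∪ B2) (R ∪ B1) ∧ Disjoint ({z'} ∪ B2) {z} ∧
      Disjoint (R ∪ B1) {z} ∧ Disjoint (A2 \ B2) (A3 ∪ ({z'} ∪ B2) ∪ (R ∪ B1 ∪ {z})) ∧
      Disjoint A4 (A3 ∪ ({z'} ∪ B2) ∪ (R ∪ B1 ∪ {z})) := by
    refine ⟨?_, ?_, ?_, ?_, ?_, ?_, ?_, ?_, ?_, ?_⟩ <;>
    · refine disjoint_left.2 fun e m n => ?_
      have p := pt e
      have q := @h1.sub e
      have q' := @h2.sub e
      clear * - p q q' m n
      grind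
  obtain ⟨d1, d2, d3, d4, d5, d6, d7, d8, d9, d10⟩ := dd
  obtain ⟨⟨-, n1, -⟩, -, -, -, n2, -⟩ := k4.bpt hc
  have mx : x2 ∈ G.vs A2 := vs_mono h2.sub h2.j1.right_mem
  have e1 := tw3_par h1.j1.2.1 fun e he => hp.1 e (s1 (h1.sub he))
  have e2 := tw3_par h2.j1.2.1 fun e he => hp.1 e (s2 (h2.sub he))
  have e3 := tw3_par h2.j2.2.1 fun e he => hp.1 e (s2 (sdiff_subset he))
  have e4 := tw3_par k4.j4.2.1 fun e he => hp.1 e (s4 he)
  have e5 := tw3_par r.jn.2.1 fun e he => hp.2 e (r.sub he) (r.tc he)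
  have e6 := (k4.neg hp.1).symm.trans (k4.jz.2.1.par_eq p)
  have e7 := (k4.rot.neg hp.1).symm.trans (k4.jz'.2.1.par_eq p)
  refine ⟨rfl, ?_, k4.j3, k4.jz'.symm.union h2.j1 d1 fun q => n2 (q ▸ mx),
    r.jn.union h1.j1.symm d2 fun q => n1 (q ▸ mx), k4.jz, d3, d4, d5, d6, d7, d8,
    sdiff_subset.trans (s2.trans k4.sub), s4.trans k4.sub, h2.j2.symm, k4.j4, d9, d10,
    (k4.rot.opp hc).mono_left (vs_mono sdiff_subset), ?_, ?_, ?_⟩
  · exact union_subset (union_subset (s3.trans k4.sub)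
      (union_subset k4.sz' (h2.sub.trans (s2.trans k4.sub))))
      (union_subset (union_subset r.sub (h1.sub.trans (s1.trans k4.sub))) k4.sz)
  · rw [par_union d1, par_sdiff h2.sub]
    linear_combination k4.o2 + z2_add_self (G.par B2)
  · rw [par_union d1, par_union d2, e1, e2, e4, e5]
    linear_combination -e7 + z2_add_self (p x2) + z2_add_self (p x1) + z2_add_self (p a)
  · rw [par_union d2, e1, e3, e5]
    linear_combination -e6 + z2_add_self (p x2) + z2_add_self (p x1)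

/-- HINT for `ng`: `p + q` is constant on `A3` and on `B2 ∪ R` and changes along `z'`. -/
theorem anA (h : G.NCx T) (k4 : G.K4 T ρ a a' b b' A1 A2 A3 A4 {z} {z'})
    (hY : G.Cls (T \ G.vs ρ) Y) (hp : G.PotY T Y ρ p) (h1 : G.HitY Y A1 B1 a a' x1 y1 g1)
    (h2 : G.HitY Y A2 B2 a' b x2 y2 g2) (r : G.EarY T Y R x2 x1) (bs : G.BaseY T Y R F w k)
    (mw : w ∈ G.vs A3) (tf : G.Tf T (A2 \ B2)) (tf' : G.Tf T A4)
    (ex : ∀ e ∈ G.cut Y, e ∈ G.ins T → ∀ n, G.At e n → n ∉ Y → n = x2 ∨ n = x1 ∨ n = w) :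
    G.An T Y R F w k (A3 ∪ ({z'} ∪ B2) ∪ (R ∪ B1 ∪ {z})) b b' x2 a A3 ({z'} ∪ B2) (R ∪ B1) {z}
      (A2 \ B2) A4 := by
  have k := tw3_kA h k4 hY hp h1 h2 r
  obtain ⟨s1, s2, s3, s4⟩ := k4.s1
  have dy : ∀ P ⊆ ρ, Disjoint (G.vs P) Y := fun P hP =>
    disjoint_left.2 fun v m n => (mem_sdiff.1 (hY.1 n)).2 (vs_mono hP m)
  refine ⟨k, tf, tf', dy _ (sdiff_subset.trans s2), dy _ s4, mw, subset_union_left,
    fun e he ht => ?_, ?_, fun e e1 e2 n e3 e4 => ⟨n, ?_, Rch.refl _ _⟩⟩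
  · have q := disjoint_left.1 (tw3_off k4 hY Subset.rfl) ht
    have q1 := @h1.sub e
    have q2 := @h2.sub e
    have q3 := @s1 e
    have q4 := @s2 e
    have q5 := @s3 e
    clear * - he q q1 q2 q3 q4 q5
    grind
  · obtain ⟨q, hq⟩ := k.pot h.hc
    obtain ⟨t1, t2, t3, -⟩ := k.s1
    refine ⟨q, hq, ?_⟩
    have e1 := tw3_par bs.jf.2.1 fun e he => hp.2 e (bs.sf he) (bs.tf he)
    have e2 := ndK_const (fun e he => hp.1 e (s3 he)) (fun e he => hq e (t1 he))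
      (k4.j3.2.2 w mw b' k4.j3.right_mem)
    have e3 := ndK_const (fun e he => hp.1 e (s2 (h2.sub he)))
      (fun e he => hq e (t2 (mem_union_right _ he))) h2.j1.2.1.rch
    have e4 := ndK_const (fun e he => hp.2 e (r.sub he) (r.tc he))
      (fun e he => hq e (t3 (mem_union_left _ he))) (r.jn.2.2 x2 r.jn.left_mem _ bs.kr)
    have e5 := (k4.rot.neg hp.1).symm.trans (k4.jz'.2.1.par_eq p)
    have e6 := tw3_par k4.jz'.2.1 fun e he => hq e (t2 (mem_union_left _ he))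
    linear_combination e1 + e2 - e3 - e4 - e5 - e6
  · rcases ex e e1 e2 n e3 e4 with rfl | rfl | rfl
    exacts [Or.inl r.jn.left_mem, Or.inl r.jn.right_mem, Or.inr rfl]

end SG

end Pool.Agent.Work.MP_8c679b_co
end

-- merged part: Pool.Agent.Work.MP_8c679b_co.ND.Tw4
section
/-!
The edges from `Y` to the ring.
-/

set_option autoImplicit false

namespace Pool.Agent.Work.MP_8c679b_co

open Finset

namespace SG

variable {V E : Type} [Fintype V] [DecidableEq V] [DecidableEq E] {G : SG V E}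

variable {T Y K : Finset V} {ρ A A1 A2 A3 A4 B B1 B2 B3 B4 Z Z' : Finset E}
  {z z' e g g1 g2 g3 g4 : E} {a a' b b' c c' n s s' u x y x1 x2 x3 x4 y1 y2 y3 y4 : V}
  {p : V → ZMod 2}

/-- HINT: the other end of `e` is in `Y`; `Cls.mem`. -/
theorem Cls.exit (hY : G.Cls (T \ G.vs ρ) Y) (he : e ∈ G.cut Y) (he' : e ∈ G.ins T) (h : G.At e n)
    (hn : n ∉ Y) : n ∈ G.vs ρ := by
  by_contra k
  obtain ⟨h1, h2, h3⟩ := mem_ins.1 he'
  have h4 := (mem_cut.1 he).2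
  rcases h with rfl | rfl
  · exact hn (hY.mem h1 (Or.inr rfl) (Or.inl rfl) (by tauto) (mem_sdiff.2 ⟨h2, k⟩))
  · exact hn (hY.mem h1 (Or.inl rfl) (Or.inr rfl) (by tauto) (mem_sdiff.2 ⟨h3, k⟩))

omit [Fintype V] in
theorem HitY.mx (h : G.HitY Y A B c c' x y g) : x ∈ G.vs A := vs_mono h.sub h.j1.right_mem

theorem HitY.at (h : G.HitY Y A B c c' x y g) : G.At g x ∧ G.At g y :=
  ⟨h.je.at_iff.2 (Or.inl rfl), h.je.at_iff.2 (Or.inr rfl)⟩

/-- the edge of a hit leaves `Y` inside `T` -/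
theorem HitY.mem (h : G.HitY Y A1 B a a' x y g) (k4 : G.K4 T ρ a a' b b' A1 A2 A3 A4 Z Z')
    (hY : G.Cls (T \ G.vs ρ) Y) : x ∉ Y ∧ g ∈ G.cut Y ∧ g ∈ G.ins T := by
  have h1 : x ∈ G.vs ρ := vs_mono k4.s1.1 h.mx
  have h2 : x ∉ Y := fun m => (mem_sdiff.1 (hY.1 m)).2 h1
  have h3 : x ∈ T := k4.vs_sub h1
  have h4 : y ∈ T := (mem_sdiff.1 (hY.1 h.my)).1
  have h5 := h.my
  refine ⟨h2, mem_cut.2 ⟨h.ga, ?_⟩, mem_ins.2 ⟨h.ga, ?_⟩⟩
  · rcases h.je with ⟨rfl, rfl⟩ | ⟨rfl, rfl⟩ <;> tauto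
  · rcases h.je with ⟨rfl, rfl⟩ | ⟨rfl, rfl⟩ <;> tauto

/-- A terminal is not on both parts of the arc.  HINT: a common vertex is `a` or `x` (`Cc.ends`);
`x` has the two ring edges and `g` in `ins T` (`not_br_of_ex`, or `NCx.deg_ex`). -/
theorem HitY.half (h1 : G.HitY Y A1 B a a' x y g) (h : G.NCx T)
    (k4 : G.K4 T ρ a a' b b' A1 A2 A3 A4 Z Z') (hY : G.Cls (T \ G.vs ρ) Y) (hu : G.Ex T u)
    (m : u ∈ G.vs B) : u ∉ G.vs (A1 \ B) := by
  intro m'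
  rcases k4.cc.1.ends h.hc k4.subA (h1.sub.trans k4.s1.1) h1.j1.2.1 m
    (vs_mono (sdiff_subset_sdiff k4.s1.1 Subset.rfl) m') with rfl | rfl
  · exact h1.n2 m'
  · exact not_br_of_ex h.hc k4.sub k4.cc.1.2.1 hu ⟨vs_mono k4.s1.1 h1.mx, g, (h1.mem k4 hY).2.2,
      fun q => (mem_sdiff.1 (hY.1 h1.my)).2 (SG.mem_vs.2 ⟨g, q, h1.at.2⟩), h1.at.1⟩

/-- HINT: the other end is in `Y`, so the edge is off the configuration (`tw3_off`); `K4.free`,
`Cc.split`. -/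
theorem Tc.hit (t : G.Tc Y A1) (hc : G.Cub) (k4 : G.K4 T ρ a a' b b' A1 A2 A3 A4 {z} {z'})
    (hY : G.Cls (T \ G.vs ρ) Y) : ∃ B x y g, G.HitY Y A1 B a a' x y g := by
  obtain ⟨e, he, u, hu, ha⟩ := t
  have h1 : u ∉ Y := fun m => (mem_sdiff.1 (hY.1 m)).2 (vs_mono k4.s1.1 hu)
  obtain ⟨h2, h3⟩ := mem_cut.1 he
  obtain ⟨y, hy, j⟩ : ∃ y ∈ Y, G.Je e u y := by
    rcases ha with rfl | rfl
    · exact ⟨_, by tauto, Or.inl ⟨rfl, rfl⟩⟩
    · exact ⟨_, by tauto, Or.inr ⟨rfl, rfl⟩⟩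
  have h4 := disjoint_left.1 (tw3_off k4 hY (P := {e})
    (singleton_subset_iff.2 (mem_tch.2 ⟨h2, by tauto⟩))) (mem_singleton_self e)
  rw [mem_union, mem_union, not_or, not_or] at h4
  obtain ⟨n1, n2, -, -⟩ := k4.free hc h2 ha h4.1 h4.2.1 h4.2.2
  obtain ⟨B, s, j1, j2, m1, m2⟩ := k4.cc.1.split hc k4.subA k4.s1.1 k4.j1 hu n1 n2
  exact ⟨B, u, y, e, h2, j, hy, s, j1, j2, m1, m2⟩

/-- Three arcs are hit.  HINT: `NCx.cge3` with `K4.two_le`; `crs (ins T) Y` lies in the union of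
the four sets `(cut Y).filter fun e => ∃ u ∈ vs Ai, At e u` (`Cls.exit`), each has at most one
element and is empty if `¬ Tc Y Ai`. -/
theorem att3 (h : G.NCx T) (k4 : G.K4 T ρ a a' b b' A1 A2 A3 A4 Z Z') (hY : G.Cls (T \ G.vs ρ) Y)
    (hs : G.Ex T s) (hs' : G.Ex T s') (ne : s ≠ s') (m : s ∈ Y) (m' : s' ∈ Y) (o1 : G.One Y A1)
    (o2 : G.One Y A2) (o3 : G.One Y A3) (o4 : G.One Y A4) :
    (G.Tc Y A1 ∧ G.Tc Y A2 ∧ G.Tc Y A3) ∨ (G.Tc Y A2 ∧ G.Tc Y A3 ∧ G.Tc Y A4) ∨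
      (G.Tc Y A3 ∧ G.Tc Y A4 ∧ G.Tc Y A1) ∨ (G.Tc Y A4 ∧ G.Tc Y A1 ∧ G.Tc Y A2) := by
  classical
  have h3 := h.cge3 (hY.1.trans sdiff_subset) (k4.two_le hY.1) hs hs' ne m m'
  have c1 : ∀ {B : Finset E}, G.One Y B →
      ((G.cut Y).filter fun e => ∃ u ∈ G.vs B, G.At e u).card ≤ 1 := fun o =>
    card_le_one.2 fun e he e' he' => by
      obtain ⟨p1, u, p2, p3⟩ := mem_filter.1 he
      obtain ⟨q1, u', q2, q3⟩ := mem_filter.1 he'
      exact o e p1 e' q1 u p2 u' q2 p3 q3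
  have c0 : ∀ B : Finset E, G.Tc Y B ∨
      ((G.cut Y).filter fun e => ∃ u ∈ G.vs B, G.At e u).card = 0 := fun B => by
    by_cases t : G.Tc Y B
    · exact Or.inl t
    · exact Or.inr (card_eq_zero.2 (filter_eq_empty_iff.2 fun e he q => t ⟨e, he, q⟩))
  have sub : G.crs (G.ins T) Y ⊆ ((G.cut Y).filter fun e => ∃ u ∈ G.vs A1, G.At e u) ∪
      ((G.cut Y).filter fun e => ∃ u ∈ G.vs A2, G.At e u) ∪
      (((G.cut Y).filter fun e => ∃ u ∈ G.vs A3, G.At e u) ∪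
      ((G.cut Y).filter fun e => ∃ u ∈ G.vs A4, G.At e u)) := by
    intro e he
    obtain ⟨p1, p2⟩ := mem_crs.1 he
    have p3 : e ∈ G.cut Y := mem_cut.2 ⟨ins_sub_A p1, p2⟩
    obtain ⟨n, p4, p5⟩ : ∃ n, G.At e n ∧ n ∉ Y := by
      by_cases q : G.s e ∈ Y
      · exact ⟨_, Or.inr rfl, by tauto⟩
      · exact ⟨_, Or.inl rfl, q⟩
    simp only [mem_union, mem_filter]
    rcases k4.mem_vs.1 (hY.exit p3 p1 p4 p5) with q | q | q | q
    · exact Or.inl (Or.inl ⟨p3, n, q, p4⟩)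
    · exact Or.inl (Or.inr ⟨p3, n, q, p4⟩)
    · exact Or.inr (Or.inl ⟨p3, n, q, p4⟩)
    · exact Or.inr (Or.inr ⟨p3, n, q, p4⟩)
  have h4 := h3.trans ((card_le_card sub).trans ((card_union_le _ _).trans
    (add_le_add (card_union_le _ _) (card_union_le _ _))))
  have b1 := c1 o1
  have b2 := c1 o2
  have b3 := c1 o3
  have b4 := c1 o4
  rcases c0 A1 with t1 | t1 <;> rcases c0 A2 with t2 | t2 <;> rcases c0 A3 with t3 | t3 <;>
    rcases c0 A4 with t4 | t4 <;> first | omega | (clear * - t1 t2 t3 t4; tauto)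

/-- A terminal of `Y` receives at most one edge from outside.  HINT: otherwise `g`, `g'` are its
only edges in `ins T` (`NCx.deg_ex`, `mem_of_deg_le`), so it reaches no other vertex in `ins Y`
(`Rch.mem_vs`). -/
theorem term_one (h : G.NCx T) (hY : Y ⊆ T) (cn : G.Cn Y (G.ins Y)) (m : s ∈ Y) (m' : s' ∈ Y)
    (ne : s ≠ s') (hs : G.Ex T s) {g' : E} (hg : g ∈ G.cut Y) (hg' : g' ∈ G.cut Y)
    (i : g ∈ G.ins T) (i' : g' ∈ G.ins T) (t : G.At g s) (t' : G.At g' s) : g = g' := by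
  by_contra k
  obtain ⟨e, he, ae⟩ := SG.mem_vs.1 ((cn s m s' m').mem_vs ne)
  have h1 : G.deg (G.ins T) s ≤ G.deg {g, g'} s := by
    have p1 := inc_pos.2 t
    have p2 := inc_pos.2 t'
    rw [h.deg_ex hs, deg, sum_pair k]
    omega
  have h2 := mem_of_deg_le (insert_subset i (singleton_subset_iff.2 i')) h1 (ins_mono hY he) ae
  obtain ⟨-, p1, p2⟩ := mem_ins.1 he
  rcases mem_insert.1 h2 with rfl | q
  · exact (mem_cut.1 hg).2 (iff_of_true p1 p2)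
  · rw [mem_singleton.1 q] at p1 p2
    exact (mem_cut.1 hg').2 (iff_of_true p1 p2)

end SG

end Pool.Agent.Work.MP_8c679b_co
end

-- merged part: Pool.Agent.Work.MP_8c679b_co.ND.Tw4b
section
/-!
The signs of the edges at `Y`.
-/

set_option autoImplicit false

namespace Pool.Agent.Work.MP_8c679b_co

open Finset

namespace SG

variable {V E : Type} [Fintype V] [DecidableEq V] [DecidableEq E] {G : SG V E}

variable {T Y K : Finset V} {ρ A A1 A2 A3 A4 B B1 B2 B3 B4 Z Z' : Finset E}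
  {z z' e g g1 g2 g3 g4 : E} {a a' b b' c c' n s s' u x y x1 x2 x3 x4 y1 y2 y3 y4 : V}
  {p : V → ZMod 2}

/-- The potential.  HINT: `p0` on the ring (`K4.pot`), `q` on the rest (`K4.rest`),
`p1 v = if v ∈ vs ρ then p0 v else q v`.  By `K4.same` with `S = ins Y` (and `rot`s) all edges from
`Y` to the ring have the sign of `g1`: `g1 ~ g2`, edges to `A1`, `A2` by `k4`, to `A3` by `k4.rot`
and `g2`, to `A4` by `k4.rot.rot.rot` and `g1`.  Add this sign on `Y`.  An edge of `ins T` that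
touches `Y` is in `ins Y` or in `cut Y` (`mem_tch_iff`, `Cls.exit`). -/
theorem potY (h : G.NCx T) (k4 : G.K4 T ρ a a' b b' A1 A2 A3 A4 {z} {z'})
    (hY : G.Cls (T \ G.vs ρ) Y) (cn : G.Cn Y (G.ins Y)) (h1 : G.HitY Y A1 B1 a a' x1 y1 g1)
    (h2 : G.HitY Y A2 B2 a' b x2 y2 g2) : ∃ p, G.PotY T Y ρ p := by
  obtain ⟨p0, h0⟩ := k4.pot h.hc
  obtain ⟨q, hq⟩ := k4.rest h
  obtain ⟨p1, e1, e2⟩ : ∃ p1 : V → ZMod 2, (∀ v ∈ G.vs ρ, p1 v = p0 v) ∧
      ∀ v, v ∉ G.vs ρ → p1 v = q v :=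
    ⟨fun v => if v ∈ G.vs ρ then p0 v else q v, fun v hv => if_pos hv, fun v hv => if_neg hv⟩
  have n1 : ∀ v ∈ Y, v ∉ G.vs ρ := fun v hv => (mem_sdiff.1 (hY.1 hv)).2
  have hp : ∀ e ∈ ρ, G.sw p1 e = 0 := fun e he => by
    rw [sw, e1 _ (s_mem_vs he), e1 _ (t_mem_vs he)]
    exact h0 e he
  have hS := ins_mono (G := G) hY.1
  have hS' : ∀ e ∈ G.ins Y, G.sw p1 e = 0 := fun e he => by
    rw [sw, e2 _ (n1 _ (mem_ins.1 he).2.1), e2 _ (n1 _ (mem_ins.1 he).2.2)]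
    exact hq e (hS he)
  have a1 : ∀ {g : E} {u m : V}, g ∈ G.A → G.Je g u m → u ∈ G.vs A1 ∨ u ∈ G.vs A2 → m ∈ Y →
      G.sw p1 g = G.sw p1 g1 := fun hg j hu hm =>
    k4.same h hp hS hS' hg h1.ga j h1.je hu (Or.inl h1.mx) (hY.1 hm) (hY.1 h1.my)
      (cn _ hm _ h1.my)
  have a2 : ∀ {g : E} {u m : V}, g ∈ G.A → G.Je g u m → u ∈ G.vs ρ → m ∈ Y →
      G.sw p1 g = G.sw p1 g1 := fun hg j hu hm => by
    rcases k4.mem_vs.1 hu with k | k | k | k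
    · exact a1 hg j (Or.inl k) hm
    · exact a1 hg j (Or.inr k) hm
    · exact (k4.rot.same h hp hS hS' hg h2.ga j h2.je (Or.inr k) (Or.inl h2.mx) (hY.1 hm)
        (hY.1 h2.my) (cn _ hm _ h2.my)).trans (a1 h2.ga h2.je (Or.inr h2.mx) h2.my)
    · exact k4.rot.rot.rot.same h hp hS hS' hg h1.ga j h1.je (Or.inl k) (Or.inr h1.mx) (hY.1 hm)
        (hY.1 h1.my) (cn _ hm _ h1.my)
  refine ⟨fun v => if v ∈ Y then p1 v + G.sw p1 g1 else p1 v, fun e he => ?_, fun e he he' => ?_⟩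
  · rw [sw, if_neg fun k => n1 _ k (s_mem_vs he), if_neg fun k => n1 _ k (t_mem_vs he)]
    exact hp e he
  · rcases mem_tch_iff.1 he' with k | k
    · have k1 := hS' e k
      rw [sw] at k1
      rw [sw, if_pos (mem_ins.1 k).2.1, if_pos (mem_ins.1 k).2.2]
      linear_combination k1 + z2_add_self (G.sw p1 g1)
    · have j := (je_ie_oe (G := G) (X := Y) (e := e)).symm
      have k1 := a2 (ins_sub_A he) j
        (hY.exit k he (j.at_iff.2 (Or.inl rfl)) (oe_not_mem k)) (ie_mem he')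
      rw [Cut_sw j] at k1
      rw [Cut_sw j, if_neg (oe_not_mem k), if_pos (ie_mem he')]
      linear_combination k1 + z2_add_self (G.sw p1 g1)

theorem tw4b_edge {U : Finset V} (hg : g ∈ G.A) (j : G.Je g x y) (hx : x ∈ U) (hy : y ∈ U) :
    {g} ⊆ G.ins U := by
  refine singleton_subset_iff.2 (mem_ins.2 ⟨hg, ?_⟩)
  rcases j with ⟨rfl, rfl⟩ | ⟨rfl, rfl⟩
  exacts [⟨hx, hy⟩, ⟨hy, hx⟩]

theorem tw4b_par (h1 : G.HitY Y A1 B1 a a' x1 y1 g1) (k4 : G.K4 T ρ a a' b b' A1 A2 A3 A4 Z Z')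
    (hY : G.Cls (T \ G.vs ρ) Y) (hp : G.PotY T Y ρ p) :
    G.par B1 = p a + p x1 ∧ G.par {g1} = p x1 + p y1 := by
  obtain ⟨-, m1, m2⟩ := h1.mem k4 hY
  exact ⟨tw3_par h1.j1.2.1 fun e he => hp.1 e (k4.s1.1 (h1.sub he)),
    tw3_par (od_edge h1.je) fun e he => by
      rw [mem_singleton.1 he]
      exact hp.2 _ m2 (cut_sub_tch m1)⟩

theorem tw4b_odd (k4 : G.K4 T ρ a a' b b' A1 A2 A3 A4 {z} {z'})
    (hY : G.Cls (T \ G.vs ρ) Y) (hp : G.PotY T Y ρ p) (h1 : G.HitY Y A1 B1 a a' x1 y1 g1)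
    (h3 : G.HitY Y A3 B3 b b' x3 y3 g3) (hK : K ⊆ Y) (m1 : y1 ∈ K) (m3 : y3 ∈ K)
    (cn : G.Cn K (G.ins K)) :
    ∃ C ⊆ G.ins T, G.Ev C ∧ G.par C = 1 ∧ G.vs C ⊆ G.vs B1 ∪ G.vs B3 ∪ K := by
  obtain ⟨P, hP, oP⟩ := (cn _ m1 _ m3).od
  obtain ⟨r1, -, r3, -⟩ := k4.s1
  have hKT : K ⊆ T := hK.trans (hY.1.trans sdiff_subset)
  have u1 : G.vs B1 ⊆ G.vs B1 ∪ G.vs B3 ∪ K := subset_union_left.trans subset_union_left
  have u3 : G.vs B3 ⊆ G.vs B1 ∪ G.vs B3 ∪ K := subset_union_right.trans subset_union_left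
  have u4 : K ⊆ G.vs B1 ∪ G.vs B3 ∪ K := subset_union_right
  have sd : ∀ {S S' D : Finset E}, S ⊆ D → S' ⊆ D → symmDiff S S' ⊆ D := fun k k' =>
    symmDiff_subset_union.trans (union_subset k k')
  have hC := sd (sd (sd (sd (sd
    (sub_ins_iff.2 ⟨h1.sub.trans (r1.trans k4.subA), u1⟩)
    (tw4b_edge h1.ga h1.je (u1 h1.j1.right_mem) (u4 m1))) (hP.trans (ins_mono u4)))
    (tw4b_edge h3.ga h3.je (u3 h3.j1.right_mem) (u4 m3)))
    (sub_ins_iff.2 ⟨h3.sub.trans (r3.trans k4.subA), u3⟩))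
    (sub_ins_iff.2 ⟨k4.sz.trans ins_sub_A, fun v hv => (ndK_edge k4.jz hv).elim
      (fun e => e ▸ u1 h1.j1.left_mem) fun e => e ▸ u3 h3.j1.left_mem⟩)
  refine ⟨_, hC.trans (ins_mono (union_subset (union_subset
    ((vs_mono (h1.sub.trans r1)).trans k4.vs_sub) ((vs_mono (h3.sub.trans r3)).trans k4.vs_sub))
    hKT)), od_self.1 (((((h1.j1.2.1.symmDiff (od_edge h1.je)).symmDiff oP).symmDiff
      (od_edge h3.je).symm).symmDiff h3.j1.2.1.symm).symmDiff k4.jz.2.1.symm), ?_,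
    (sub_ins_iff.1 hC).2⟩
  obtain ⟨a1, a2⟩ := tw4b_par h1 k4 hY hp
  obtain ⟨a3, a4⟩ := tw4b_par h3 k4.rot.rot hY hp
  have a5 := tw3_par oP fun e he =>
    hp.2 e (ins_mono hKT (hP he)) (ins_sub_tch (ins_mono hK (hP he)))
  have a6 := (k4.jz.2.1.par_eq p).symm.trans (k4.neg hp.1)
  simp only [par_symmDiff]
  linear_combination a1 + a2 + a3 + a4 + a5 + a6 + z2_add_self (p x1) + z2_add_self (p x3) +
    z2_add_self (p y1) + z2_add_self (p y3)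

/-- No crossing connections.  HINT: `Rch.od` gives `P ⊆ ins (Y \ K)` from `y1` to `y3` and
`Q ⊆ ins K` from `y2` to `y4`.  `B1 ∪ {g1} ∪ P ∪ {g3} ∪ B3 ∪ {z}` and
`B2 ∪ {g2} ∪ Q ∪ {g4} ∪ B4 ∪ {z'}` are disjoint even-degree sets of parity one (one lemma, used for
`k4` and `k4.rot`; `Ev.par_eq p`, only the chord is negative).  `NCx.two_odd`. -/
theorem nox (h : G.NCx T) (k4 : G.K4 T ρ a a' b b' A1 A2 A3 A4 {z} {z'})
    (hY : G.Cls (T \ G.vs ρ) Y) (hp : G.PotY T Y ρ p) (h1 : G.HitY Y A1 B1 a a' x1 y1 g1)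
    (h2 : G.HitY Y A2 B2 a' b x2 y2 g2) (h3 : G.HitY Y A3 B3 b b' x3 y3 g3)
    (h4 : G.HitY Y A4 B4 b' a x4 y4 g4) (hK : K ⊆ Y) (m2 : y2 ∈ K) (m4 : y4 ∈ K) (m1 : y1 ∉ K)
    (m3 : y3 ∉ K) (c1 : G.Cn K (G.ins K)) (c2 : G.Cn (Y \ K) (G.ins (Y \ K))) : False := by
  obtain ⟨C, c3, c4, c5, c6⟩ := tw4b_odd k4 hY hp h1 h3 sdiff_subset (mem_sdiff.2 ⟨h1.my, m1⟩)
    (mem_sdiff.2 ⟨h3.my, m3⟩) c2
  obtain ⟨D, d3, d4, d5, d6⟩ := tw4b_odd k4.rot hY hp h2 h4 hK m2 m4 c1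
  refine h.two_odd c3 d3 c4 d4 c5 d5 (disjoint_left.2 fun v hv hv' => ?_)
  obtain ⟨r1, r2, r3, r4⟩ := k4.s1
  have n1 : v ∈ Y → v ∉ G.vs ρ := fun hv => (mem_sdiff.1 (hY.1 hv)).2
  have k := c6 hv
  have k' := d6 hv'
  simp only [mem_union, mem_sdiff] at k k'
  rcases k with (k | k) | k <;> rcases k' with (k' | k') | k'
  · exact h1.n1 (k4.adj h.hc (vs_mono h1.sub k) (vs_mono h2.sub k') ▸ k)
  · exact h4.n1 (k4.rot.rot.rot.adj h.hc (vs_mono h4.sub k') (vs_mono h1.sub k) ▸ k')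
  · exact n1 (hK k') (vs_mono (h1.sub.trans r1) k)
  · exact h2.n1 (k4.rot.adj h.hc (vs_mono h2.sub k') (vs_mono h3.sub k) ▸ k')
  · exact h3.n1 (k4.rot.rot.adj h.hc (vs_mono h3.sub k) (vs_mono h4.sub k') ▸ k)
  · exact n1 (hK k') (vs_mono (h3.sub.trans r3) k)
  · exact n1 k.1 (vs_mono (h2.sub.trans r2) k')
  · exact n1 k.1 (vs_mono (h4.sub.trans r4) k')
  · exact k.2 k'

end SG

end Pool.Agent.Work.MP_8c679b_co
end

-- merged part: Pool.Agent.Work.MP_8c679b_co.ND.Tw6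
section
/-!
The choice of the twisted ring.
-/

set_option autoImplicit false

namespace Pool.Agent.Work.MP_8c679b_co

open Finset

namespace SG

variable {V E : Type} [Fintype V] [DecidableEq V] [DecidableEq E] {G : SG V E}

variable {T Y : Finset V} {ρ A A1 A2 A3 A4 B B1 B2 B3 B4 : Finset E}
  {z z' e f' g g1 g2 g3 g4 : E} {a a' b b' c c' n s s' x y y' x1 x2 x3 x4 y1 y2 y3 y4 t1 t2 t3 : V}
  {p : V → ZMod 2}

/-- the only edge from `Y` to an arc -/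
theorem HitY.eq (h1 : G.HitY Y A B c c' x y g) (o : G.One Y A) (hg : g ∈ G.cut Y)
    (he : e ∈ G.cut Y) (h : G.At e n) (hn : n ∈ G.vs A) (hY : n ∉ Y) : e = g ∧ n = x := by
  obtain rfl := o e he g hg n hn x h1.mx h h1.at.1
  exact ⟨rfl, (h1.je.at_iff.1 h).resolve_right fun q => hY (q ▸ h1.my)⟩

theorem tw6_out (he : e ∈ G.cut Y) : ∃ n, G.At e n ∧ n ∉ Y :=
  ⟨G.oe Y e, (je_ie_oe (X := Y)).at_iff.2 (Or.inr rfl), oe_not_mem he⟩

theorem HitY.ne (h1 : G.HitY Y A B c c' x y g) : x ≠ c ∧ x ≠ c' := ⟨h1.j1.1.symm, h1.j2.1⟩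

/-- the diagonal ring -/
theorem twD (h : G.NCx T) (k4 : G.K4 T ρ a a' b b' A1 A2 A3 A4 {z} {z'})
    (hY : G.Cls (T \ G.vs ρ) Y) (cn : G.Cn Y (G.ins Y)) (m : G.Trm T Y t1 t2 t3)
    (o1 : G.One Y A1) (o2 : G.One Y A2) (o3 : G.One Y A3) (h1 : G.HitY Y A1 B1 a a' x1 y1 g1)
    (h2 : G.HitY Y A2 B2 a' b x2 y2 g2) (h3 : G.HitY Y A3 B3 b b' x3 y3 g3) (af : G.At f' y')
    (my : y' ∈ Y) (e4 : ∀ e ∈ G.cut Y, ∀ n ∈ G.vs A4, G.At e n → e = f')
    (nx : ∀ K ⊆ Y, y2 ∈ K → y' ∈ K → y1 ∉ K → y3 ∉ K → G.Cn K (G.ins K) →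
      G.Cn (Y \ K) (G.ins (Y \ K)) → False)
    (hm : t3 ∈ Y ∨ y' = y1 ∨ ¬ G.Ex T y') (tf : G.Tf T (A1 \ B1)) (tf' : G.Tf T B3) :
    ∃ ρ', G.Kch T ρ' ∧ G.Gd2 T (T \ G.vs ρ') := by
  obtain ⟨p, hp⟩ := potY h k4 hY cn h1 h2
  obtain ⟨a1, a2, a3⟩ := h1.mem k4 hY
  obtain ⟨b1, b2, b3⟩ := h2.mem k4.rot hY
  obtain ⟨c1, c2, c3⟩ := h3.mem k4.rot.rot hY
  have ex : ∀ e ∈ G.cut Y, e ∈ G.ins T → ∀ n, G.At e n → n ∉ Y → (e = g1 ∧ n = x1) ∨
      (e = g3 ∧ n = x3) ∨ (e = g2 ∧ n = x2) ∨ (e = f' ∧ n ∈ G.vs A4) := fun e he he' n q q' => by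
    rcases k4.mem_vs.1 (hY.exit he he' q q') with r | r | r | r
    exacts [Or.inl (h1.eq o1 a2 he q r q'), Or.inr (Or.inr (Or.inl (h2.eq o2 b2 he q r q'))),
      Or.inr (Or.inl (h3.eq o3 c2 he q r q')), Or.inr (Or.inr (Or.inr ⟨e4 e he n r q, r⟩))]
  have i : G.Exi T Y g1 g3 g2 f' x1 x3 x2 y1 y3 y2 y' :=
    ⟨hY.1.trans sdiff_subset, k4.two_le hY.1, cn, a3, c3, b3, h1.je, h3.je, h2.je, af, a1, c1, b1,
      h1.my, h3.my, h2.my, my, fun q => disjoint_left.1 (k4.opp h.hc) h1.mx (q ▸ h3.mx),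
      fun q => h2.ne.1 (k4.adj h.hc (q ▸ h1.mx) h2.mx),
      fun q => h2.ne.2 (k4.rot.adj h.hc h2.mx (q ▸ h3.mx)),
      fun e he he' => by
        obtain ⟨n, q, q'⟩ := tw6_out he
        exact (ex e he he' n q q').imp And.left (Or.imp And.left (Or.imp And.left And.left)), nx⟩
  obtain ⟨R, F, k, r, bs, gd⟩ := i.good h m hm
  obtain ⟨ρ', q1, q2, q3⟩ := AnS.shr h bs ⟨_, _, _, _, _, _, _, _, _, _, _,
    anD h k4 hY hp h1 h3 r bs h2.mx tf tf' fun e he he' n q q' =>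
      (ex e he he' n q q').imp And.right (Or.imp And.right (Or.imp And.right And.right)), rfl⟩
  exact ⟨ρ', q1, gd ρ' q2 q3⟩

/-- the adjacent ring -/
theorem twA (h : G.NCx T) (k4 : G.K4 T ρ a a' b b' A1 A2 A3 A4 {z} {z'})
    (hY : G.Cls (T \ G.vs ρ) Y) (cn : G.Cn Y (G.ins Y)) (m : G.Trm T Y t1 t2 t3)
    (o1 : G.One Y A1) (o2 : G.One Y A2) (o3 : G.One Y A3) (h1 : G.HitY Y A1 B1 a a' x1 y1 g1)
    (h2 : G.HitY Y A2 B2 a' b x2 y2 g2) (h3 : G.HitY Y A3 B3 b b' x3 y3 g3) (n4 : ¬ G.Tc Y A4)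
    (tf : G.Tf T (A2 \ B2)) (tf' : G.Tf T A4) : ∃ ρ', G.Kch T ρ' ∧ G.Gd2 T (T \ G.vs ρ') := by
  obtain ⟨p, hp⟩ := potY h k4 hY cn h1 h2
  obtain ⟨a1, a2, a3⟩ := h1.mem k4 hY
  obtain ⟨b1, b2, b3⟩ := h2.mem k4.rot hY
  obtain ⟨c1, c2, c3⟩ := h3.mem k4.rot.rot hY
  have ex : ∀ e ∈ G.cut Y, e ∈ G.ins T → ∀ n, G.At e n → n ∉ Y → (e = g2 ∧ n = x2) ∨
      (e = g1 ∧ n = x1) ∨ (e = g3 ∧ n = x3) := fun e he he' n q q' => by
    rcases k4.mem_vs.1 (hY.exit he he' q q') with r | r | r | r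
    exacts [Or.inr (Or.inl (h1.eq o1 a2 he q r q')), Or.inl (h2.eq o2 b2 he q r q'),
      Or.inr (Or.inr (h3.eq o3 c2 he q r q')), absurd ⟨e, he, n, r, q⟩ n4]
  have i : G.Exi T Y g2 g1 g3 g2 x2 x1 x3 y2 y1 y3 y2 :=
    ⟨hY.1.trans sdiff_subset, k4.two_le hY.1, cn, b3, a3, c3, h2.je, h1.je, h3.je, h2.at.2, b1, a1,
      c1, h2.my, h1.my, h3.my, h2.my, fun q => h2.ne.1 (k4.adj h.hc (q ▸ h1.mx) h2.mx),
      fun q => h2.ne.2 (k4.rot.adj h.hc h2.mx (q ▸ h3.mx)),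
      fun q => disjoint_left.1 (k4.opp h.hc) h1.mx (q ▸ h3.mx),
      fun e he he' => by
        obtain ⟨n, q, q'⟩ := tw6_out he
        exact (ex e he he' n q q').imp And.left (Or.imp And.left fun r => Or.inl r.1),
      fun _ _ _ q q' => absurd q q'⟩
  obtain ⟨R, F, k, r, bs, gd⟩ := i.good h m (Or.inr (Or.inl rfl))
  obtain ⟨ρ', q1, q2, q3⟩ := AnS.shr h bs ⟨_, _, _, _, _, _, _, _, _, _, _,
    anA h k4 hY hp h1 h2 r bs h3.mx tf tf' fun e he he' n q q' =>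
      (ex e he he' n q q').imp And.right (Or.imp And.right And.right), rfl⟩
  exact ⟨ρ', q1, gd ρ' q2 q3⟩

/-- a terminal on the ring is the third one -/
theorem Trm.ring (m : G.Trm T Y t1 t2 t3) (hY : G.Cls (T \ G.vs ρ) Y) (hB : B ⊆ ρ)
    (h3 : t3 ∉ G.vs B) : G.Tf T B := fun v hv q => by
  have k : v ∉ Y := fun r => (mem_sdiff.1 (hY.1 r)).2 (vs_mono hB hv)
  rcases m.all v q with rfl | rfl | rfl
  exacts [k m.m1, k m.m2, h3 hv]

/-- three edges leave `Y` -/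
theorem tw_three (h : G.NCx T) (k4 : G.K4 T ρ a a' b b' A1 A2 A3 A4 {z} {z'})
    (hY : G.Cls (T \ G.vs ρ) Y) (cn : G.Cn Y (G.ins Y)) (m : G.Trm T Y t1 t2 t3)
    (o1 : G.One Y A1) (o2 : G.One Y A2) (o3 : G.One Y A3) (c1 : G.Tc Y A1) (c2 : G.Tc Y A2)
    (c3 : G.Tc Y A3) (n4 : ¬ G.Tc Y A4) : ∃ ρ', G.Kch T ρ' ∧ G.Gd2 T (T \ G.vs ρ') := by
  obtain ⟨B1, x1, y1, g1, h1⟩ := c1.hit h.hc k4 hY
  obtain ⟨B2, x2, y2, g2, h2⟩ := c2.hit h.hc k4.rot hY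
  obtain ⟨B3, x3, y3, g3, h3⟩ := c3.hit h.hc k4.rot.rot hY
  obtain ⟨r1, r2, r3, r4⟩ := k4.s1
  by_cases q : t3 ∈ G.vs A1 ∨ t3 ∈ G.vs A3
  · obtain ⟨v1, v2, v3, v4, -⟩ := k4.vpt h.hc t3
    have e1 : t3 ≠ a := fun e => k4.not_ex h.hc (e ▸ m.e3)
    have e2 : t3 ≠ a' := fun e => k4.rot.not_ex h.hc (e ▸ m.e3)
    have e3 : t3 ≠ b := fun e => k4.rot.rot.not_ex h.hc (e ▸ m.e3)
    have e4 : t3 ≠ b' := fun e => k4.rot.rot.rot.not_ex h.hc (e ▸ m.e3)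
    exact twA h k4 hY cn m o1 o2 o3 h1 h2 h3 n4
      (m.ring hY (sdiff_subset.trans r2) fun r => q.elim
        (fun q => e2 (v1 q (vs_mono sdiff_subset r))) fun q => e3 (v2 (vs_mono sdiff_subset r) q))
      (m.ring hY r4 fun r => q.elim (fun q => e1 (v4 r q)) fun q => e4 (v3 q r))
  · exact twD h k4 hY cn m o1 o2 o3 h1 h2 h3 h1.at.2 h1.my
      (fun e he n r r' => absurd ⟨e, he, n, r, r'⟩ n4) (fun _ _ _ r r' => absurd r r')
      (Or.inr (Or.inl rfl))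
      (m.ring hY (sdiff_subset.trans r1) fun r => q (Or.inl (vs_mono sdiff_subset r)))
      (m.ring hY (h3.sub.trans r3) fun r => q (Or.inr (vs_mono h3.sub r)))

theorem twD4 (h : G.NCx T) (k4 : G.K4 T ρ a a' b b' A1 A2 A3 A4 {z} {z'})
    (hY : G.Cls (T \ G.vs ρ) Y) (cn : G.Cn Y (G.ins Y)) (m : G.Trm T Y t1 t2 t3)
    (o1 : G.One Y A1) (o2 : G.One Y A2) (o3 : G.One Y A3) (o4 : G.One Y A4)
    (h1 : G.HitY Y A1 B1 a a' x1 y1 g1) (h2 : G.HitY Y A2 B2 a' b x2 y2 g2)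
    (h3 : G.HitY Y A3 B3 b b' x3 y3 g3) (h4 : G.HitY Y A4 B4 b' a x4 y4 g4)
    (hm : t3 ∈ Y ∨ ¬ G.Ex T y4) (q : t3 ∉ G.vs (A1 \ B1)) (q' : t3 ∉ G.vs B3) :
    ∃ ρ', G.Kch T ρ' ∧ G.Gd2 T (T \ G.vs ρ') := by
  obtain ⟨p, hp⟩ := potY h k4 hY cn h1 h2
  exact twD h k4 hY cn m o1 o2 o3 h1 h2 h3 h4.at.2 h4.my
    (fun e he n r r' => o4 e he g4 (h4.mem k4.rot.rot.rot hY).2.1 n r x4 h4.mx r' h4.at.1)
    (fun K hK m2 m4 m1 m3 c1 c2 => nox h k4 hY hp h1 h2 h3 h4 hK m2 m4 m1 m3 c1 c2)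
    (hm.imp_right Or.inr) (m.ring hY (sdiff_subset.trans k4.s1.1) q)
    (m.ring hY (h3.sub.trans k4.s1.2.2.1) q')

/-- different hits have different terminal ends -/
theorem tw6_ne (h : G.NCx T) (hY : Y ⊆ T) (cn : G.Cn Y (G.ins Y)) (m : G.Trm T Y t1 t2 t3)
    {d d' : V} (h1 : G.HitY Y A B c c' x1 y1 g1) (h2 : G.HitY Y A2 B2 d d' x2 y2 g2)
    (a1 : x1 ∉ Y ∧ g1 ∈ G.cut Y ∧ g1 ∈ G.ins T) (a2 : x2 ∉ Y ∧ g2 ∈ G.cut Y ∧ g2 ∈ G.ins T)
    (ne : x1 ≠ x2) (e : G.Ex T y1) : y1 ≠ y2 := by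
  rintro rfl
  obtain ⟨s', q1, q2⟩ : ∃ s' ∈ Y, y1 ≠ s' := by
    by_cases q : y1 = t1
    exacts [⟨t2, m.m2, q ▸ m.n12⟩, ⟨t1, m.m1, q⟩]
  obtain rfl := term_one h hY cn h1.my q1 q2 e a1.2.1 a2.2.1 a1.2.2 a2.2.2 h1.at.2 h2.at.2
  exact ne ((h2.je.at_iff.1 h1.at.1).resolve_right fun q => a1.1 (q ▸ h1.my))

/-- four edges leave `Y` -/
theorem tw_four (h : G.NCx T) (k4 : G.K4 T ρ a a' b b' A1 A2 A3 A4 {z} {z'})
    (hY : G.Cls (T \ G.vs ρ) Y) (cn : G.Cn Y (G.ins Y)) (m : G.Trm T Y t1 t2 t3)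
    (o1 : G.One Y A1) (o2 : G.One Y A2) (o3 : G.One Y A3) (o4 : G.One Y A4) (c1 : G.Tc Y A1)
    (c2 : G.Tc Y A2) (c3 : G.Tc Y A3) (c4 : G.Tc Y A4) :
    ∃ ρ', G.Kch T ρ' ∧ G.Gd2 T (T \ G.vs ρ') := by
  obtain ⟨B1, x1, y1, g1, h1⟩ := c1.hit h.hc k4 hY
  obtain ⟨B2, x2, y2, g2, h2⟩ := c2.hit h.hc k4.rot hY
  obtain ⟨B3, x3, y3, g3, h3⟩ := c3.hit h.hc k4.rot.rot hY
  obtain ⟨B4, x4, y4, g4, h4⟩ := c4.hit h.hc k4.rot.rot.rot hY
  by_cases m3 : t3 ∈ Y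
  · have k : ∀ B ⊆ ρ, t3 ∉ G.vs B := fun B hB r => (mem_sdiff.1 (hY.1 m3)).2 (vs_mono hB r)
    exact twD4 h k4 hY cn m o1 o2 o3 o4 h1 h2 h3 h4 (Or.inl m3)
      (k _ (sdiff_subset.trans k4.s1.1)) (k _ (h3.sub.trans k4.s1.2.2.1))
  by_contra hno
  have d4 := mt (fun q : ¬ G.Ex T y4 ∧ t3 ∉ G.vs (A1 \ B1) ∧ t3 ∉ G.vs B3 =>
    twD4 h k4 hY cn m o1 o2 o3 o4 h1 h2 h3 h4 (Or.inr q.1) q.2.1 q.2.2) hno
  have d1 := mt (fun q : ¬ G.Ex T y1 ∧ t3 ∉ G.vs (A2 \ B2) ∧ t3 ∉ G.vs B4 =>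
    twD4 h k4.rot hY cn m o2 o3 o4 o1 h2 h3 h4 h1 (Or.inr q.1) q.2.1 q.2.2) hno
  have d2 := mt (fun q : ¬ G.Ex T y2 ∧ t3 ∉ G.vs (A3 \ B3) ∧ t3 ∉ G.vs B1 =>
    twD4 h k4.rot.rot hY cn m o3 o4 o1 o2 h3 h4 h1 h2 (Or.inr q.1) q.2.1 q.2.2) hno
  have d3 := mt (fun q : ¬ G.Ex T y3 ∧ t3 ∉ G.vs (A4 \ B4) ∧ t3 ∉ G.vs B2 =>
    twD4 h k4.rot.rot.rot hY cn m o4 o1 o2 o3 h4 h1 h2 h3 (Or.inr q.1) q.2.1 q.2.2) hno
  have sY := hY.1.trans sdiff_subset
  have a1 := h1.mem k4 hY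
  have a2 := h2.mem k4.rot hY
  have a3 := h3.mem k4.rot.rot hY
  have a4 := h4.mem k4.rot.rot.rot hY
  have n12 := tw6_ne h sY cn m h1 h2 a1 a2 fun q => h1.ne.2 (k4.adj h.hc h1.mx (q ▸ h2.mx))
  have n23 := tw6_ne h sY cn m h2 h3 a2 a3 fun q => h2.ne.2 (k4.rot.adj h.hc h2.mx (q ▸ h3.mx))
  have n34 := tw6_ne h sY cn m h3 h4 a3 a4 fun q =>
    h3.ne.2 (k4.rot.rot.adj h.hc h3.mx (q ▸ h4.mx))
  have n41 := tw6_ne h sY cn m h4 h1 a4 a1 fun q =>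
    h4.ne.2 (k4.rot.rot.rot.adj h.hc h4.mx (q ▸ h1.mx))
  have n13 := tw6_ne h sY cn m h1 h3 a1 a3 fun q =>
    disjoint_left.1 (k4.opp h.hc) h1.mx (q ▸ h3.mx)
  have n24 := tw6_ne h sY cn m h2 h4 a2 a4 fun q =>
    disjoint_left.1 (k4.rot.opp h.hc) h2.mx (q ▸ h4.mx)
  have t : ∀ y ∈ Y, G.Ex T y → y = t1 ∨ y = t2 := fun y hy q => by
    rcases m.all y q with r | r | r
    exacts [Or.inl r, Or.inr r, absurd (r ▸ hy) m3]
  have u1 := t _ h1.my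
  have u2 := t _ h2.my
  have u3 := t _ h3.my
  have u4 := t _ h4.my
  have f1 := h1.half h k4 hY m.e3
  have f2 := h2.half h k4.rot hY m.e3
  have f3 := h3.half h k4.rot.rot hY m.e3
  have f4 := h4.half h k4.rot.rot.rot hY m.e3
  obtain ⟨v1, v2, v3, v4, v5, v6, -⟩ := k4.vpt h.hc t3
  have e1 : t3 ≠ a := fun e => k4.not_ex h.hc (e ▸ m.e3)
  have e2 : t3 ≠ a' := fun e => k4.rot.not_ex h.hc (e ▸ m.e3)
  have e3 : t3 ≠ b := fun e => k4.rot.rot.not_ex h.hc (e ▸ m.e3)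
  have e4 : t3 ≠ b' := fun e => k4.rot.rot.rot.not_ex h.hc (e ▸ m.e3)
  have w1 := @vs_mono _ _ _ _ G _ _ h1.sub t3
  have w2 := @vs_mono _ _ _ _ G _ _ h2.sub t3
  have w3 := @vs_mono _ _ _ _ G _ _ h3.sub t3
  have w4 := @vs_mono _ _ _ _ G _ _ h4.sub t3
  have w1' := @vs_mono _ _ _ _ G _ _ (sdiff_subset (s := A1) (t := B1)) t3
  have w2' := @vs_mono _ _ _ _ G _ _ (sdiff_subset (s := A2) (t := B2)) t3
  have w3' := @vs_mono _ _ _ _ G _ _ (sdiff_subset (s := A3) (t := B3)) t3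
  have w4' := @vs_mono _ _ _ _ G _ _ (sdiff_subset (s := A4) (t := B4)) t3
  clear * - d1 d2 d3 d4 n12 n23 n34 n41 n13 n24 u1 u2 u3 u4 f1 f2 f3 f4 v1 v2 v3 v4 v5 v6 e1 e2 e3
    e4 w1 w2 w3 w4 w1' w2' w3' w4'
  grind

/-- A component with two terminals and at most one edge to each arc gives a good ring. -/
theorem tw_good (h : G.NCx T) (k : G.K4 T ρ a a' b b' A1 A2 A3 A4 {z} {z'})
    (hY : G.Cls (T \ G.vs ρ) Y) (cn : G.Cn Y (G.ins Y)) (hs : G.Ex T s) (hs' : G.Ex T s')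
    (ne : s ≠ s') (m : s ∈ Y) (m' : s' ∈ Y) (o1 : G.One Y A1) (o2 : G.One Y A2)
    (o3 : G.One Y A3) (o4 : G.One Y A4) : ∃ ρ', G.Kch T ρ' ∧ G.Gd2 T (T \ G.vs ρ') := by
  obtain ⟨t, t1, t2, t3, t4⟩ := h.third hs hs' ne
  have tm : G.Trm T Y s s' t := ⟨hs, hs', t1, ne, t2.symm, t3.symm, m, m', t4⟩
  rcases att3 h k hY hs hs' ne m m' o1 o2 o3 o4 with ⟨c1, c2, c3⟩ | ⟨c2, c3, c4⟩ | ⟨c3, c4, c1⟩ |
    ⟨c4, c1, c2⟩
  · by_cases c4 : G.Tc Y A4
    exacts [tw_four h k hY cn tm o1 o2 o3 o4 c1 c2 c3 c4,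
      tw_three h k hY cn tm o1 o2 o3 c1 c2 c3 c4]
  · by_cases c1 : G.Tc Y A1
    exacts [tw_four h k hY cn tm o1 o2 o3 o4 c1 c2 c3 c4,
      tw_three h k.rot hY cn tm o2 o3 o4 c2 c3 c4 c1]
  · by_cases c2 : G.Tc Y A2
    exacts [tw_four h k hY cn tm o1 o2 o3 o4 c1 c2 c3 c4,
      tw_three h k.rot.rot hY cn tm o3 o4 o1 c3 c4 c1 c2]
  · by_cases c3 : G.Tc Y A3
    exacts [tw_four h k hY cn tm o1 o2 o3 o4 c1 c2 c3 c4,
      tw_three h k.rot.rot.rot hY cn tm o4 o1 o2 c4 c1 c2 c3]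

end SG

end Pool.Agent.Work.MP_8c679b_co
end

-- merged part: Pool.Agent.Work.MP_8c679b_co.ND.Main
section
/-!
Three-sides without two disjoint odd circuits.
-/

set_option autoImplicit false

namespace Pool.Agent.Work.MP_8c679b_co

open Finset

namespace SG

variable {V E : Type} [Fintype V] [DecidableEq V] [DecidableEq E] {G : SG V E}

variable {T : Finset V} {ρ : Finset E}

theorem nd_good (h : G.NCx T) (k : G.Kch T ρ) : ∃ ρ', G.Kch T ρ' ∧ G.Gd2 T (T \ G.vs ρ') := by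
  suffices H : ∀ (Y : Finset V) (ρ : Finset E), G.Kch T ρ → G.Cls (T \ G.vs ρ) Y →
      (∀ s s', G.Ex T s → G.Ex T s' → s ∈ T \ G.vs ρ → s' ∈ T \ G.vs ρ →
        G.Rch (G.ins (T \ G.vs ρ)) s s' → s ≠ s' → s ∈ Y) →
      ∃ ρ', G.Kch T ρ' ∧ G.Gd2 T (T \ G.vs ρ') from
    H _ ρ k (cls_of_mem Subset.rfl fun _ _ _ _ _ _ _ hv => hv) fun _ _ _ _ hs _ _ _ => hs
  intro Y
  induction Y using Finset.strongInduction with
  | H Y ih =>
  intro ρ k hY hb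
  by_cases g : G.Gd2 T (T \ G.vs ρ)
  · exact ⟨ρ, k, g⟩
  simp only [Gd2, not_forall] at g
  obtain ⟨s, s', e1, e2, m1, m2, r, hne⟩ := g
  have c0 : G.Cls (T \ G.vs ρ) (G.cmp (T \ G.vs ρ) s) := Cls.cmp m1
  obtain ⟨c1, -, -, c4⟩ := cmp_spec (G := G) m1
  have c2 := (c0.rch c1 r).1
  have c3 : G.cmp (T \ G.vs ρ) s ⊆ Y := fun v hv =>
    (hY.rch (hb s s' e1 e2 m1 m2 r hne) (mem_cmp.1 hv).2).1
  generalize G.cmp (T \ G.vs ρ) s = Y0 at c0 c1 c2 c3 c4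
  have mv : ∀ {a a' b b' : V} {A1 A2 A3 A4 : Finset E} {z z' : E},
      G.K4 T ρ a a' b b' A1 A2 A3 A4 {z} {z'} → ¬ G.One Y0 A1 →
      ∃ ρ', G.Kch T ρ' ∧ G.Gd2 T (T \ G.vs ρ') := fun k n => by
    obtain ⟨ρ', k1, k2, k3⟩ := main_move h k c0 c4 n
    refine ih _ (k2.trans_subset c3) ρ' k1 k3 fun r r' f1 f2 n1 n2 rr hn => ?_
    have i1 : r ∈ Y0 → r ∈ Y0 \ G.vs ρ' := fun i => mem_sdiff.2 ⟨i, (mem_sdiff.1 n1).2⟩
    have i2 : r' ∈ Y0 → r ∈ Y0 \ G.vs ρ' := fun i =>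
      (k3.rch (mem_sdiff.2 ⟨i, (mem_sdiff.1 n2).2⟩) rr.symm).1
    rcases h.pair_meet e1 e2 f1 f2 hne hn with rfl | rfl | rfl | rfl
    exacts [i1 c1, i1 c2, i2 c1, i2 c2]
  obtain ⟨a, a', b, b', A1, A2, A3, A4, z, z', k⟩ := k
  by_cases o1 : G.One Y0 A1
  swap
  · exact mv k o1
  by_cases o2 : G.One Y0 A2
  swap
  · exact mv k.rot o2
  by_cases o3 : G.One Y0 A3
  swap
  · exact mv k.rot.rot o3
  by_cases o4 : G.One Y0 A4
  swap
  · exact mv k.rot.rot.rot o4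
  exact tw_good h k c0 c4 e1 e2 hne c1 c2 o1 o2 o3 o4

theorem nd2_even (h : G.NCx T) : G.Cube T ∨ G.Rall T 0 1 := by
  refine h.kch.imp_right ?_
  rintro ⟨ρ, k⟩ y hy
  obtain ⟨ρ', k1, k2⟩ := nd_good h k
  exact (k1.fin h hy k2).rs h

/-- the statement `A3` for sides without two disjoint odd circuits -/
theorem nd_a3 (hc : G.Cub) (hT : G.T3 T) (hF : G.F2 T) (hK : G.K1 T) : G.Acc T ∨ G.Xn T := by
  have h : G.NCx T := ⟨hc, hT.1, hT.2.1, hK, hF⟩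
  rcases nd2_even h with k | k
  exacts [Or.inr (cube_xn h k), Or.inl (acc_of_rall hc hT (nd2_odd h) k)]

end SG

end Pool.Agent.Work.MP_8c679b_co
end
end
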